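import Pool.Agent.LDF.T

/-!
# LDF: BLD, the construction
-/

set_option autoImplicit false

open Filter Topology
open scoped Pointwise

noncomputable section

namespace LDF

namespace BLD_

variable {d : ℕ}

/-- the pairing of a finitely supported function with a function -/
def S (F : Lau d) (φ : (Fin d → ℤ) → ℂ) : ℂ := F.sum fun m c => c * φ m

lemma S_add (F G : Lau d) (φ : (Fin d → ℤ) → ℂ) : S (F + G) φ = S F φ + S G φ := by
  unfold S
  refine Finsupp.sum_add_index' (fun _ => by ring) (fun _ _ _ => by ring)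

lemma S_zero (φ : (Fin d → ℤ) → ℂ) : S (0 : Lau d) φ = 0 := by simp [S]

lemma S_single (m : Fin d → ℤ) (c : ℂ) (φ : (Fin d → ℤ) → ℂ) :
    S (Finsupp.single m c) φ = c * φ m := by simp [S]

lemma S_sum {ι : Type} (s : Finset ι) (F : ι → Lau d) (φ : (Fin d → ℤ) → ℂ) :
    S (∑ i ∈ s, F i) φ = ∑ i ∈ s, S (F i) φ := by
  classical
  induction s using Finset.induction_on with
  | empty => simp [S_zero]
  | insert i s hi ih => rw [Finset.sum_insert hi, S_add, ih, Finset.sum_insert hi]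

/-- the integer scalar product -/
def dz (a m : Fin d → ℤ) : ℤ := ∑ j, a j * m j

lemma dz_add (a x y : Fin d → ℤ) : dz a (x + y) = dz a x + dz a y := by
  simp [dz, mul_add, Finset.sum_add_distrib]

lemma dz_smul (a x : Fin d → ℤ) (c : ℤ) : dz a (c • x) = c * dz a x := by
  simp only [dz, Pi.smul_apply, smul_eq_mul, Finset.mul_sum]
  exact Finset.sum_congr rfl fun j _ => by ring

/-- the real functional -/
def Ar (a : Fin d → ℤ) : (Fin d → ℝ) →ₗ[ℝ] ℝ := ∑ j, (a j : ℝ) • LinearMap.proj j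

lemma Ar_apply (a : Fin d → ℤ) (x : Fin d → ℝ) : Ar a x = ∑ j, (a j : ℝ) * x j := by
  simp [Ar]

lemma Ar_toR (a m : Fin d → ℤ) : Ar a (toR m) = ((dz a m : ℤ) : ℝ) := by
  simp [Ar_apply, dz, toR]

lemma toR_inj {x y : Fin d → ℤ} (h : toR x = toR y) : x = y := by
  funext j
  have := congrFun h j
  simpa [toR] using this

lemma toR_add (x y : Fin d → ℤ) : toR (x + y) = toR x + toR y := by
  funext j; simp [toR]

lemma toR_smul (c : ℤ) (x : Fin d → ℤ) : toR (c • x) = (c : ℝ) • toR x := by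
  funext j; simp [toR]

/-! ### the exponents of the first sum -/

def e0 (k : ℕ) (v : Fin d → ℤ) : Fin d → ℤ := (k : ℤ) • v
def e1 (k : ℕ) (v v' : Fin d → ℤ) : Fin d → ℤ := ((k : ℤ) - 1) • v + v'
def e2 (k : ℕ) (v v' : Fin d → ℤ) : Fin d → ℤ := ((k : ℤ) - 2) • v + (2 : ℤ) • v'

/-- the building block `z^{k v} (1 - z^{v' - v})²` -/
def F1 (k : ℕ) (v v' : Fin d → ℤ) : Lau d :=
  Finsupp.single (e0 k v) 1 + Finsupp.single (e1 k v v') (-2) + Finsupp.single (e2 k v v') 1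

def Aff (φ : (Fin d → ℤ) → ℂ) : Prop :=
  ∀ (k : ℕ) (v v' : Fin d → ℤ), φ (e0 k v) - 2 * φ (e1 k v v') + φ (e2 k v v') = 0

lemma aff_one : Aff (fun _ : Fin d → ℤ => (1 : ℂ)) := by
  intro k v v'; norm_num

lemma aff_coord (j : Fin d) : Aff (fun m : Fin d → ℤ => (m j : ℂ)) := by
  intro k v v'
  simp only [e0, e1, e2, Pi.add_apply, Pi.smul_apply, smul_eq_mul]
  push_cast
  ring

lemma aff_dz (w : Fin d → ℤ) : Aff (fun m : Fin d → ℤ => ((dz w m : ℤ) : ℂ)) := by
  intro k v v'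
  simp only [e0, e1, e2, dz_add, dz_smul]
  push_cast
  ring

lemma S_F1 {φ χ : (Fin d → ℤ) → ℂ} (hφ : Aff φ) (k : ℕ) (v v' : Fin d → ℤ)
    (h1 : χ (e1 k v v') = χ (e0 k v)) (h2 : χ (e2 k v v') = χ (e0 k v)) :
    S (F1 k v v') (fun m => φ m * χ m) = 0 := by
  rw [F1, S_add, S_add, S_single, S_single, S_single, h1, h2]
  linear_combination χ (e0 k v) * hφ k v v'

/-! ### geometry of the face -/

section geometry

variable {V : Finset (Fin d → ℤ)} {Γ : Set (Fin d → ℝ)} {a : Fin d → ℤ}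

lemma mem_conv {v : Fin d → ℤ} (hv : v ∈ V) : toR v ∈ conv V :=
  subset_convexHull ℝ _ ⟨v, hv, rfl⟩

lemma isCompact_conv : IsCompact (conv V) := by
  unfold conv
  exact (V.finite_toSet.image toR).isCompact_convexHull ℝ

lemma ext_sub (hF : IsFace (conv V) Γ) {x : Fin d → ℝ} (hx : x ∈ Γ.extremePoints ℝ) :
    ∃ v ∈ V, toR v = x ∧ toR v ∈ Γ := by
  have h1 : x ∈ (conv V).extremePoints ℝ :=
    hF.2.isExtreme.extremePoints_subset_extremePoints hx
  obtain ⟨v, hv, rfl⟩ := extremePoints_convexHull_subset h1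
  exact ⟨v, hv, rfl, hx.1⟩

lemma closure_ext (hF : IsFace (conv V) Γ) : closure (convexHull ℝ (Γ.extremePoints ℝ)) = Γ :=
  closure_convexHull_extremePoints (hF.2.isCompact isCompact_conv)
    (hF.2.convex (convex_convexHull ℝ _))

lemma ex_vertex (hF : IsFace (conv V) Γ) : ∃ v ∈ V, toR v ∈ Γ := by
  obtain ⟨y, hy⟩ := hF.1
  rw [← closure_ext hF] at hy
  have h2 : (convexHull ℝ (Γ.extremePoints ℝ)).Nonempty := closure_nonempty_iff.1 ⟨y, hy⟩
  obtain ⟨x, hx⟩ := convexHull_nonempty_iff.1 h2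
  obtain ⟨v, hv, -, h⟩ := ext_sub hF hx
  exact ⟨v, hv, h⟩

lemma ex_other (hF : IsFace (conv V) Γ) (hd : 0 < fdim Γ) (v : Fin d → ℤ) :
    ∃ v' ∈ V, toR v' ∈ Γ ∧ v' ≠ v := by
  by_contra hcon
  push Not at hcon
  have h1 : Γ.extremePoints ℝ ⊆ {toR v} := by
    intro x hx
    obtain ⟨u, hu, h1, h2⟩ := ext_sub hF hx
    rw [← h1, hcon u hu h2]
    rfl
  have h2 : Γ ⊆ {toR v} := by
    rw [← closure_ext hF]
    refine closure_minimal (convexHull_min h1 (convex_singleton _)) isClosed_singleton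
  have h3 : vectorSpan ℝ Γ = ⊥ := by
    rw [eq_bot_iff]
    calc vectorSpan ℝ Γ ≤ vectorSpan ℝ {toR v} := vectorSpan_mono ℝ h2
      _ = ⊥ := vectorSpan_singleton ℝ _
      _ ≤ ⊥ := le_rfl
  rw [fdim, h3, finrank_bot] at hd
  exact lt_irrefl _ hd

lemma mem_face_iff (hE : Exposes a (conv V) Γ) {p : Fin d → ℤ} (_hp : p ∈ V) (hpΓ : toR p ∈ Γ)
    {x : Fin d → ℝ} (hx : x ∈ conv V) : x ∈ Γ ↔ Ar a x = ((dz a p : ℤ) : ℝ) := by
  have hE' : ∀ y, y ∈ Γ ↔ y ∈ conv V ∧ ∀ z ∈ conv V, Ar a y ≤ Ar a z := by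
    intro y
    unfold Exposes at hE
    rw [Set.ext_iff] at hE
    simpa [Ar_apply] using hE y
  rw [← Ar_toR]
  constructor
  · intro h
    exact le_antisymm (((hE' x).1 h).2 _ ((hE' _).1 hpΓ).1) (((hE' _).1 hpΓ).2 _ hx)
  · intro h
    rw [hE']
    refine ⟨hx, fun z hz => ?_⟩
    rw [h]
    exact ((hE' _).1 hpΓ).2 z hz

lemma face_sub (hE : Exposes a (conv V) Γ) : Γ ⊆ conv V := by
  intro x hx
  unfold Exposes at hE
  rw [hE] at hx
  exact hx.1

lemma height_le (hE : Exposes a (conv V) Γ) {p : Fin d → ℤ} (hpΓ : toR p ∈ Γ)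
    {x : Fin d → ℝ} (hx : x ∈ conv V) : ((dz a p : ℤ) : ℝ) ≤ Ar a x := by
  rw [← Ar_toR, Ar_apply, Ar_apply]
  unfold Exposes at hE
  rw [hE] at hpΓ
  exact hpΓ.2 x hx

end geometry

/-! ### the points -/

lemma prod_zpow_eq {ι : Type} (s : Finset ι) (e : ι → ℤ) {t : ℂ} (ht : t ≠ 0) :
    ∏ j ∈ s, t ^ e j = t ^ (∑ j ∈ s, e j) := by
  classical
  induction s using Finset.induction_on with
  | empty => simp
  | insert i s hi ih => rw [Finset.prod_insert hi, ih, Finset.sum_insert hi, zpow_add₀ ht]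

/-- the points -/
def pt (a w : Fin d → ℤ) (t τ : ℂ) (j : Fin d) : ℂ := t ^ a j * (1 + τ) ^ w j

lemma pt_tor (a w : Fin d → ℤ) {t τ : ℂ} (ht : t ≠ 0) (hτ : 1 + τ ≠ 0) : pt a w t τ ∈ Tor d :=
  fun _ => mul_ne_zero (zpow_ne_zero _ ht) (zpow_ne_zero _ hτ)

lemma mon_pt (a w m : Fin d → ℤ) {t τ : ℂ} (ht : t ≠ 0) (hτ : 1 + τ ≠ 0) :
    mon (pt a w t τ) m = t ^ dz a m * (1 + τ) ^ dz w m := by
  unfold mon pt
  simp only [mul_zpow, ← zpow_mul, Finset.prod_mul_distrib]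
  rw [prod_zpow_eq _ _ ht, prod_zpow_eq _ _ hτ]
  rfl

/-- the sequence `1/(n+1)` -/
def tt (n : ℕ) : ℂ := 1 / ((n : ℂ) + 1)

lemma tt_ne (n : ℕ) : tt n ≠ 0 := by
  unfold tt
  exact one_div_ne_zero (by exact_mod_cast Nat.succ_ne_zero n)

lemma tt_lim : Tendsto tt atTop (𝓝 0) := tendsto_one_div_add_atTop_nhds_zero_nat

lemma tt_zpow {e : ℤ} (he : 0 ≤ e) : Tendsto (fun n => tt n ^ e) atTop (𝓝 ((0 : ℂ) ^ e)) :=
  tt_lim.zpow₀ e (Or.inr he)

/-! ### supports -/

lemma F1_supp {s : Set (Fin d → ℤ)} {k : ℕ} {v v' : Fin d → ℤ} (h0 : e0 k v ∈ s)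
    (h1 : e1 k v v' ∈ s) (h2 : e2 k v v' ∈ s) : F1 k v v' ∈ Finsupp.supported ℂ ℂ s :=
  Submodule.add_mem _ (Submodule.add_mem _ (Finsupp.single_mem_supported ℂ _ h0)
    (Finsupp.single_mem_supported ℂ _ h1)) (Finsupp.single_mem_supported ℂ _ h2)

lemma comb_mem {V : Finset (Fin d → ℤ)} {k : ℕ} (hk : 3 ≤ k) {P P' : Fin d → ℝ}
    (hP : P ∈ conv V) (hP' : P' ∈ conv V) {x y : ℝ} (hx : 0 ≤ x) (hy : 0 ≤ y)
    (hxy : x + y = k) : x • P + y • P' ∈ (k : ℝ) • conv V := by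
  have hk0 : (0 : ℝ) < k := by exact_mod_cast (by omega : 0 < k)
  refine ⟨(x / k) • P + (y / k) • P', ?_, ?_⟩
  · refine (convex_convexHull ℝ _) hP hP' (by positivity) (by positivity) ?_
    rw [← add_div, hxy, div_self hk0.ne']
  · simp only [smul_add, smul_smul]
    rw [mul_div_cancel₀ _ hk0.ne', mul_div_cancel₀ _ hk0.ne']

lemma ext_ne {V : Finset (Fin d → ℤ)} {v₀ v v' : Fin d → ℤ}
    (h0 : toR v₀ ∈ (conv V).extremePoints ℝ) (hv : v ∈ V) (hv' : v' ∈ V) (hne : v' ≠ v)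
    {x y k : ℝ} (hx : 0 < x) (hy : 0 < y) (hk : 0 < k) (hxy : x + y = k)
    (h : x • toR v + y • toR v' = k • toR v₀) : False := by
  have h1 : toR v₀ ∈ openSegment ℝ (toR v) (toR v') := by
    refine ⟨x / k, y / k, by positivity, by positivity, ?_, ?_⟩
    · rw [← add_div, hxy, div_self hk.ne']
    · have : (k⁻¹) • (x • toR v + y • toR v') = toR v₀ := by
        rw [h, smul_smul, inv_mul_cancel₀ hk.ne', one_smul]
      rw [← this, smul_add, smul_smul, smul_smul]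
      congr 2 <;> ring
  obtain ⟨h2, h3⟩ := (mem_extremePoints.1 h0).2 _ (mem_conv hv) _ (mem_conv hv') h1
  exact hne (toR_inj (h3.trans h2.symm))

lemma toR_e0 (k : ℕ) (v : Fin d → ℤ) : toR (e0 k v) = (k : ℝ) • toR v := by
  rw [e0, toR_smul]; norm_cast

lemma toR_e1 (k : ℕ) (v v' : Fin d → ℤ) :
    toR (e1 k v v') = ((k : ℝ) - 1) • toR v + (1 : ℝ) • toR v' := by
  rw [e1, toR_add, toR_smul, one_smul]; push_cast; rfl

lemma toR_e2 (k : ℕ) (v v' : Fin d → ℤ) :
    toR (e2 k v v') = ((k : ℝ) - 2) • toR v + (2 : ℝ) • toR v' := by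
  rw [e2, toR_add, toR_smul, toR_smul]; push_cast; rfl

lemma e0_inj {k : ℕ} (hk : 3 ≤ k) {v v' : Fin d → ℤ} : e0 k v = e0 k v' ↔ v = v' := by
  constructor
  · intro h
    funext j
    have := congrFun h j
    simp only [e0, Pi.smul_apply, smul_eq_mul] at this
    exact mul_left_cancel₀ (by exact_mod_cast (by omega : k ≠ 0)) this
  · rintro rfl; rfl

lemma F1_apply {V : Finset (Fin d → ℤ)} {k : ℕ} (hk : 3 ≤ k) {v₀ v v' : Fin d → ℤ}
    (h0 : toR v₀ ∈ (conv V).extremePoints ℝ) (hv : v ∈ V) (hv' : v' ∈ V) (hne : v' ≠ v) :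
    F1 k v v' (e0 k v₀) = if v = v₀ then 1 else 0 := by
  have hk3 : (3 : ℝ) ≤ k := by exact_mod_cast hk
  have h1 : e1 k v v' ≠ e0 k v₀ := by
    intro h
    have := congrArg toR h
    rw [toR_e0, toR_e1] at this
    exact ext_ne h0 hv hv' hne (by linarith) one_pos (by linarith) (by ring) this
  have h2 : e2 k v v' ≠ e0 k v₀ := by
    intro h
    have := congrArg toR h
    rw [toR_e0, toR_e2] at this
    exact ext_ne h0 hv hv' hne (by linarith) two_pos (by linarith) (by ring) this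
  simp only [F1, Finsupp.add_apply, Finsupp.single_apply, if_neg h1, if_neg h2, add_zero,
    e0_inj hk]

/-- the rest of the polynomial -/
def RR (V : Finset (Fin d → ℤ)) (k : ℕ) (g : Lau d) : Lau d :=
  ∑ v ∈ V, Finsupp.single (e0 k v) 1 + g

/-- the first sum -/
def QQ (V : Finset (Fin d → ℤ)) (k : ℕ) (π : (Fin d → ℤ) → Fin d → ℤ) : Lau d :=
  ∑ v ∈ V, F1 k v (π v)

lemma RR_supp {s : Set (Fin d → ℤ)} {V : Finset (Fin d → ℤ)} {k : ℕ} {g : Lau d}
    (h0 : ∀ v ∈ V, e0 k v ∈ s) (hg : ∀ m ∈ g.support, m ∈ s) :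
    RR V k g ∈ Finsupp.supported ℂ ℂ s := by
  refine Submodule.add_mem _ (Submodule.sum_mem _ fun v hv => ?_) ?_
  · exact Finsupp.single_mem_supported ℂ _ (h0 v hv)
  · rw [Finsupp.mem_supported]
    exact hg

lemma QQ_supp {s : Set (Fin d → ℤ)} {V : Finset (Fin d → ℤ)} {k : ℕ}
    {π : (Fin d → ℤ) → Fin d → ℤ} (h0 : ∀ v ∈ V, e0 k v ∈ s ∧ e1 k v (π v) ∈ s ∧
      e2 k v (π v) ∈ s) : QQ V k π ∈ Finsupp.supported ℂ ℂ s :=
  Submodule.sum_mem _ fun v hv => F1_supp (h0 v hv).1 (h0 v hv).2.1 (h0 v hv).2.2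

open Classical in
lemma newt_eq {V : Finset (Fin d → ℤ)} {k : ℕ} (hk : 3 ≤ k) {g : Lau d}
    {π : (Fin d → ℤ) → Fin d → ℤ} (hV : ∀ v ∈ V, toR v ∈ (conv V).extremePoints ℝ)
    (hπ : ∀ v, π v ∈ V ∧ π v ≠ v) (hg1 : ∀ m ∈ g.support, toR m ∈ (k : ℝ) • conv V)
    (hg3 : ∀ m ∈ g.support, ∀ v ∈ V, m ≠ (k : ℤ) • v) (P : (Fin d → ℤ) → Prop) :
    newt (QQ (V.filter P) k π + RR (V.filter fun v => ¬ P v) k g) = (k : ℝ) • conv V := by
  have hk3 : (3 : ℝ) ≤ k := by exact_mod_cast hk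
  apply Set.Subset.antisymm
  · have h1 : QQ (V.filter P) k π + RR (V.filter fun v => ¬ P v) k g ∈
        Finsupp.supported ℂ ℂ {m | toR m ∈ (k : ℝ) • conv V} := by
      refine Submodule.add_mem _ (QQ_supp fun v hv => ?_) (RR_supp (fun v hv => ?_) hg1)
      · have hv := (Finset.mem_filter.1 hv).1
        refine ⟨?_, ?_, ?_⟩
        · show toR (e0 k v) ∈ (k : ℝ) • conv V
          rw [toR_e0]
          exact Set.smul_mem_smul_set (mem_conv hv)
        · show toR (e1 k v (π v)) ∈ (k : ℝ) • conv V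
          rw [toR_e1]
          exact comb_mem hk (mem_conv hv) (mem_conv (hπ v).1) (by linarith) zero_le_one (by ring)
        · show toR (e2 k v (π v)) ∈ (k : ℝ) • conv V
          rw [toR_e2]
          exact comb_mem hk (mem_conv hv) (mem_conv (hπ v).1) (by linarith) zero_le_two (by ring)
      · have hv := (Finset.mem_filter.1 hv).1
        show toR (e0 k v) ∈ (k : ℝ) • conv V
        rw [toR_e0]
        exact Set.smul_mem_smul_set (mem_conv hv)
    rw [Finsupp.mem_supported] at h1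
    refine convexHull_min ?_ ((convex_convexHull ℝ _).smul _)
    rintro _ ⟨m, hm, rfl⟩
    exact h1 hm
  · unfold conv
    rw [← convexHull_smul]
    refine convexHull_min ?_ (convex_convexHull ℝ _)
    rintro _ ⟨_, ⟨v₀, hv₀, rfl⟩, rfl⟩
    have hv₀ : v₀ ∈ V := hv₀
    refine subset_convexHull ℝ _ ⟨e0 k v₀, ?_, toR_e0 k v₀⟩
    have hgz : g (e0 k v₀) = 0 := by
      by_contra hne
      exact hg3 _ (Finsupp.mem_support_iff.2 hne) v₀ hv₀ rfl
    have h2 : (QQ (V.filter P) k π + RR (V.filter fun v => ¬ P v) k g) (e0 k v₀) = 1 := by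
      rw [Finsupp.add_apply, QQ, RR, Finsupp.add_apply, hgz, add_zero, Finsupp.finsetSum_apply,
        Finsupp.finsetSum_apply]
      have h3 : ∀ v ∈ V.filter P, F1 k v (π v) (e0 k v₀) = if v = v₀ then 1 else 0 := by
        intro v hv
        exact F1_apply hk (hV v₀ hv₀) (Finset.mem_filter.1 hv).1 (hπ v).1 (hπ v).2
      have h4 : ∀ v ∈ V.filter (fun v => ¬ P v), (Finsupp.single (e0 k v) (1 : ℂ)) (e0 k v₀) =
          if v = v₀ then 1 else 0 := by
        intro v _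
        simp only [Finsupp.single_apply, e0_inj hk]
      rw [Finset.sum_congr rfl h3, Finset.sum_congr rfl h4, Finset.sum_filter_add_sum_filter_not]
      simp [hv₀]
    show e0 k v₀ ∈ (_ : Set _)
    rw [Finset.mem_coe, Finsupp.mem_support_iff, h2]
    exact one_ne_zero

lemma S_eq (F : Lau d) (φ : (Fin d → ℤ) → ℂ) : S F φ = ∑ m ∈ F.support, F m * φ m := rfl

lemma S_congr {F : Lau d} {φ ψ : (Fin d → ℤ) → ℂ} (h : ∀ m ∈ F.support, φ m = ψ m) :
    S F φ = S F ψ := by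
  rw [S_eq, S_eq]
  exact Finset.sum_congr rfl fun m hm => by rw [h m hm]

lemma S_dz (g : Lau d) (w : Fin d → ℤ) {r : Fin d → ℂ}
    (h : ∀ j, (g.sum fun m c => c * (m j : ℂ)) = r j) :
    S g (fun m => ((dz w m : ℤ) : ℂ)) = ∑ j, (w j : ℂ) * r j := by
  simp only [← h, S_eq, Finsupp.sum, Finset.mul_sum, dz]
  push_cast
  simp only [Finset.mul_sum]
  rw [Finset.sum_comm]
  exact Finset.sum_congr rfl fun m _ => Finset.sum_congr rfl fun j _ => by ring

/-- the value at the limit -/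
lemma S_limit {VΓ VN : Finset (Fin d → ℤ)} {k : ℕ} {π : (Fin d → ℤ) → Fin d → ℤ} {g : Lau d}
    {χ φ : (Fin d → ℤ) → ℂ} (hφ : Aff φ)
    (h1 : ∀ v ∈ VΓ, χ (e1 k v (π v)) = χ (e0 k v) ∧ χ (e2 k v (π v)) = χ (e0 k v))
    (h2 : ∀ v ∈ VN, χ (e0 k v) = 0) (h3 : ∀ m ∈ g.support, χ m = 1) :
    S (QQ VΓ k π) (fun m => φ m * χ m) = 0 ∧ S (RR VN k g) (fun m => φ m * χ m) = S g φ := by
  constructor
  · rw [QQ, S_sum]
    exact Finset.sum_eq_zero fun v hv => S_F1 hφ k v (π v) (h1 v hv).1 (h1 v hv).2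
  · rw [RR, S_add, S_sum, Finset.sum_eq_zero, zero_add]
    · exact S_congr fun m hm => by rw [h3 m hm, mul_one]
    · intro v hv
      rw [S_single, h2 v hv]
      ring

/-- shifting the sequence -/
lemma shift {N Γ : Set (Fin d → ℝ)} {Q : Lau d} (hN : newt Q = N) {r : Fin d → ℂ}
    {z : ℕ → Fin d → ℂ} {s : ℕ → ℂ} (hr : r ≠ 0)
    (h1 : ∀ᶠ n in atTop, z n ∈ VQ Q) (hs : ∀ n, s n ≠ 0) (h3 : ToOrbit N Γ z)
    (h4 : Tendsto (fun n => s n • lgr Q (z n)) atTop (𝓝 r)) : IsSmoothLim Q Γ r := by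
  have h2 : ∀ᶠ n in atTop, s n • lgr Q (z n) ≠ 0 := h4.eventually_ne hr
  obtain ⟨N₀, hN₀⟩ := eventually_atTop.1 (h1.and h2)
  have hsh : Tendsto (fun n : ℕ => n + N₀) atTop atTop := tendsto_add_atTop_nat N₀
  refine ⟨hr, fun n => z (n + N₀), fun n => s (n + N₀), fun n => (hN₀ _ (by omega)).1,
    fun n h => (hN₀ (n + N₀) (by omega)).2 (by rw [h, smul_zero]), fun n => hs _, ?_, ?_⟩
  · rw [hN]
    intro u hu
    obtain ⟨c, hc, hc'⟩ := h3 u hu
    exact ⟨c, hc.comp hsh, hc'⟩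
  · exact h4.comp hsh

end BLD_

open BLD_ in
theorem p_BLD (h_EXS : T_EXS) (h_LGR : T_LGR) : T_BLD := by
  intro d V Γ a w k L g r hV hF hE hd hk hL hg1 hg2 hg3 hg4 hg5 hw hLw
  classical
  obtain ⟨p, hp, hpΓ⟩ := ex_vertex hF
  choose π hπ using fun v => ex_other hF hd v
  -- heights
  have hα : ∀ v ∈ V, dz a p ≤ dz a v := by
    intro v hv
    have := height_le hE hpΓ (mem_conv hv)
    rw [Ar_toR] at this
    exact_mod_cast this
  have hαΓ : ∀ v ∈ V, toR v ∈ Γ → dz a v = dz a p := by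
    intro v hv hvΓ
    have := (mem_face_iff hE hp hpΓ (mem_conv hv)).1 hvΓ
    rw [Ar_toR] at this
    exact_mod_cast this
  have hαN : ∀ v ∈ V, toR v ∉ Γ → dz a p + 1 ≤ dz a v := by
    intro v hv hvΓ
    rcases (hα v hv).lt_or_eq with h | h
    · omega
    · exact absurd ((mem_face_iff hE hp hpΓ (mem_conv hv)).2 (by rw [Ar_toR, h])) hvΓ
  set K : ℤ := k * dz a p + L with hK
  have hk0 : (0 : ℤ) < k := by exact_mod_cast (by omega : 0 < k)
  have hLk : (L : ℤ) < k := by exact_mod_cast hL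
  have hL0 : (0 : ℤ) ≤ L := by positivity
  have ha0 : ∀ v, dz a (e0 k v) = k * dz a v := fun v => dz_smul _ _ _
  have ha1 : ∀ b v v' : Fin d → ℤ, dz b v' = dz b v → dz b (e1 k v v') = k * dz b v := by
    intro b v v' h
    rw [e1, dz_add, dz_smul, h]; ring
  have ha2 : ∀ b v v' : Fin d → ℤ, dz b v' = dz b v → dz b (e2 k v v') = k * dz b v := by
    intro b v v' h
    rw [e2, dz_add, dz_smul, dz_smul, h]; ring
  have hb0 : ∀ b v : Fin d → ℤ, dz b (e0 k v) = k * dz b v := fun b v => dz_smul _ _ _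
  have hgK : ∀ m ∈ g.support, dz a m = K := fun m hm => hg2 m hm p hp hpΓ
  have hNK : ∀ v ∈ V.filter (fun v => ¬ toR v ∈ Γ), K < dz a (e0 k v) := by
    intro v hv
    obtain ⟨h1, h2⟩ := Finset.mem_filter.1 hv
    have h3 := hαN v h1 h2
    rw [hb0]
    nlinarith
  set Q0 : Lau d := QQ (V.filter fun v => toR v ∈ Γ) k π with hQ0
  set R : Lau d := RR (V.filter fun v => ¬ toR v ∈ Γ) k g with hR
  set Q1 : Lau d := (if L = 0 then Q0 else 0) + R with hQ1
  refine ⟨Q0 + R, newt_eq hk hV (fun v => ⟨(hπ v).1, (hπ v).2.2⟩) hg1 hg3 _, ?_⟩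
  have hπa : ∀ v ∈ V.filter (fun v => toR v ∈ Γ), dz a (π v) = dz a v := by
    intro v hv
    obtain ⟨h1, h2⟩ := Finset.mem_filter.1 hv
    rw [hαΓ v h1 h2, hαΓ _ (hπ v).1 (hπ v).2.1]
  -- all exponents of `Q1` have height at least `K`
  have hQ1K : ∀ m ∈ Q1.support, K ≤ dz a m := by
    have h1 : Q1 ∈ Finsupp.supported ℂ ℂ {m | K ≤ dz a m} := by
      refine Submodule.add_mem _ ?_ (RR_supp (fun v hv => (hNK v hv).le) fun m hm =>
        (hgK m hm).ge)
      split_ifs with hL'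
      · refine QQ_supp fun v hv => ?_
        have h2 := hπa v hv
        have h3 := (Finset.mem_filter.1 hv)
        have h4 := hαΓ v h3.1 h3.2
        refine ⟨?_, ?_, ?_⟩
        · show K ≤ dz a (e0 k v)
          rw [hb0, h4, hK, hL']; simp
        · show K ≤ dz a (e1 k v (π v))
          rw [ha1 a _ _ h2, h4, hK, hL']; simp
        · show K ≤ dz a (e2 k v (π v))
          rw [ha2 a _ _ h2, h4, hK, hL']; simp
      · exact Submodule.zero_mem _
    rw [Finsupp.mem_supported] at h1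
    intro m hm
    exact h1 hm
  -- the value of the limit
  have hlim : ∀ φ : (Fin d → ℤ) → ℂ, Aff φ →
      S Q1 (fun m => φ m * (0 : ℂ) ^ (dz a m - K)) = S g φ := by
    intro φ hφ
    obtain ⟨h1, h2⟩ := S_limit (VΓ := V.filter fun v => toR v ∈ Γ)
      (VN := V.filter fun v => ¬ toR v ∈ Γ) (k := k) (π := π) (g := g)
      (χ := fun m => (0 : ℂ) ^ (dz a m - K)) hφ
      (fun v hv => by
        simp only [hb0, ha1 a _ _ (hπa v hv), ha2 a _ _ (hπa v hv), and_self])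
      (fun v hv => zero_zpow _ (by have := hNK v hv; omega))
      (fun m hm => by simp only [hgK m hm, sub_self, zpow_zero])
    rw [hQ1, S_add, h2]
    split_ifs
    · rw [h1, zero_add]
    · rw [S_zero, zero_add]
  -- limits of the coefficients
  have hcoef : ∀ m ∈ Q1.support, Tendsto (fun n => Q1 m * tt n ^ (dz a m - K)) atTop
      (𝓝 (Q1 m * (0 : ℂ) ^ (dz a m - K))) := fun m hm =>
    (tt_zpow (by have := hQ1K m hm; omega)).const_mul _
  obtain ⟨τ, hτ0, hτ⟩ := h_EXS (Fin d → ℤ) Q1.support (dz w)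
    (fun n m => Q1 m * tt n ^ (dz a m - K)) (fun m => Q1 m * (0 : ℂ) ^ (dz a m - K)) hcoef
    (by
      have := hlim _ aff_one
      rw [S_eq, S_eq] at this
      simp only [one_mul, mul_one] at this
      rw [this]
      exact hg4)
    (by
      have := hlim _ (aff_dz w)
      rw [S_dz g w hg5, S_eq] at this
      intro h0
      exact hw (this.symm.trans (Eq.trans (Finset.sum_congr rfl fun m _ => by ring) h0)))
  have hτ1 : ∀ᶠ n in atTop, 1 + τ n ≠ 0 := hτ.mono fun n hn => hn.1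
  have h1τ : Tendsto (fun n => 1 + τ n) atTop (𝓝 1) := by
    simpa using hτ0.const_add (1 : ℂ)
  have hpow : ∀ e : ℤ, Tendsto (fun n => (1 + τ n) ^ e) atTop (𝓝 1) := by
    intro e
    simpa using h1τ.zpow₀ e (Or.inl one_ne_zero)
  -- the basic identity
  have hkey : ∀ φ : (Fin d → ℤ) → ℂ, Aff φ → ∀ n, 1 + τ n ≠ 0 →
      S (Q0 + R) (fun m => φ m * mon (pt a w (tt n) (τ n)) m) = tt n ^ K *
        ∑ m ∈ Q1.support, Q1 m * tt n ^ (dz a m - K) * (1 + τ n) ^ dz w m * φ m := by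
    intro φ hφ n hn
    have h1 : S (Q0 + R) (fun m => φ m * mon (pt a w (tt n) (τ n)) m) =
        S Q1 (fun m => φ m * mon (pt a w (tt n) (τ n)) m) := by
      rw [hQ1, S_add, S_add]
      congr 1
      split_ifs with hL'
      · rfl
      · rw [S_zero, hQ0, QQ, S_sum]
        refine Finset.sum_eq_zero fun v hv => ?_
        have h2 := hπa v hv
        have h3 := Finset.mem_filter.1 hv
        have h4 : dz w (π v) = dz w v := by
          have h5 := (hLw.resolve_left hL') _ (hπ v).2.1 _ h3.2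
          simp only [mul_sub, Finset.sum_sub_distrib] at h5
          rw [← Ar_apply, ← Ar_apply, Ar_toR, Ar_toR, sub_eq_zero] at h5
          exact_mod_cast h5
        refine S_F1 hφ k v (π v) ?_ ?_
        · rw [mon_pt _ _ _ (tt_ne n) hn, mon_pt _ _ _ (tt_ne n) hn, ha1 a _ _ h2, ha1 w _ _ h4,
            hb0, hb0]
        · rw [mon_pt _ _ _ (tt_ne n) hn, mon_pt _ _ _ (tt_ne n) hn, ha2 a _ _ h2, ha2 w _ _ h4,
            hb0, hb0]
    rw [h1, S_eq, Finset.mul_sum]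
    refine Finset.sum_congr rfl fun m _ => ?_
    rw [mon_pt _ _ _ (tt_ne n) hn]
    have h6 : tt n ^ dz a m = tt n ^ K * tt n ^ (dz a m - K) := by
      rw [← zpow_add₀ (tt_ne n)]; congr 1; ring
    rw [h6]
    ring
  have hr : r ≠ 0 := by
    rintro rfl
    apply hw
    simp
  refine shift (N := (k : ℝ) • conv V) (newt_eq hk hV (fun v => ⟨(hπ v).1, (hπ v).2.2⟩) hg1 hg3 _)
    (z := fun n => pt a w (tt n) (τ n)) (s := fun n => tt n ^ (-K)) hr ?_
    (fun n => zpow_ne_zero _ (tt_ne n)) ?_ ?_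
  · -- points of the hypersurface
    filter_upwards [hτ] with n hn
    refine ⟨pt_tor a w (tt_ne n) hn.1, ?_⟩
    have h1 := hkey _ aff_one n hn.1
    simp only [one_mul, mul_one] at h1
    rw [hn.2, mul_zero] at h1
    exact h1
  · -- the orbit
    intro u hu
    obtain ⟨t, ht, x, hx, y, hy, hu⟩ := hu
    obtain ⟨x, hx, rfl⟩ := hx
    obtain ⟨y, hy, rfl⟩ := hy
    have hyc := face_sub hE hy
    have hy1 := (mem_face_iff hE hp hpΓ hyc).1 hy
    have hx1 := height_le hE hpΓ hx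
    have hkR : (0 : ℝ) < k := by exact_mod_cast hk0
    have hdz : ((dz a u : ℤ) : ℝ) = t * (k * (Ar a x - dz a p)) := by
      rw [← Ar_toR, hu]
      simp only [map_smul, map_sub, smul_eq_mul, hy1]
      ring
    have hnn : 0 ≤ dz a u := by
      have : (0 : ℝ) ≤ ((dz a u : ℤ) : ℝ) := by
        rw [hdz]
        exact mul_nonneg ht (mul_nonneg hkR.le (sub_nonneg.2 hx1))
      exact_mod_cast this
    refine ⟨(0 : ℂ) ^ dz a u, ?_, ?_⟩
    · have h1 : Tendsto (fun n => tt n ^ dz a u * (1 + τ n) ^ dz w u) atTop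
          (𝓝 ((0 : ℂ) ^ dz a u * 1)) := (tt_zpow hnn).mul (hpow _)
      rw [mul_one] at h1
      refine h1.congr' ?_
      filter_upwards [hτ1] with n hn
      rw [mon_pt _ _ _ (tt_ne n) hn]
    · have hspan : vectorSpan ℝ ((k : ℝ) • Γ) ≤ LinearMap.ker (Ar a) := by
        rw [vectorSpan_def, Submodule.span_le]
        rintro _ ⟨_, ⟨x', hx', rfl⟩, _, ⟨y', hy', rfl⟩, rfl⟩
        have e1 := (mem_face_iff hE hp hpΓ (face_sub hE hx')).1 hx'
        have e2 := (mem_face_iff hE hp hpΓ (face_sub hE hy')).1 hy'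
        show Ar a _ = 0
        simp only [vsub_eq_sub, map_sub, map_smul, e1, e2, sub_self]
      constructor
      · intro h0
        have h1 : dz a u = 0 := by
          by_contra hne
          exact h0 (zero_zpow _ hne)
        rw [h1, Int.cast_zero] at hdz
        rcases mul_eq_zero.1 hdz.symm with h2 | h2
        · rw [hu, h2, zero_smul]
          exact Submodule.zero_mem _
        · have h3 : Ar a x = dz a p := by
            rcases mul_eq_zero.1 h2 with h4 | h4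
            · exact absurd h4 hkR.ne'
            · exact sub_eq_zero.1 h4
          have h4 : x ∈ Γ := (mem_face_iff hE hp hpΓ hx).2 h3
          rw [hu]
          refine Submodule.smul_mem _ _ ?_
          exact vsub_mem_vectorSpan ℝ (Set.smul_mem_smul_set h4) (Set.smul_mem_smul_set hy)
      · intro h
        have h1 : Ar a (toR u) = 0 := hspan h
        rw [Ar_toR] at h1
        have h2 : dz a u = 0 := by exact_mod_cast h1
        rw [h2, zpow_zero]
        exact one_ne_zero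
  · -- the limit of the gradients
    rw [tendsto_pi_nhds]
    intro j
    have h1 : Tendsto (fun n => ∑ m ∈ Q1.support,
        Q1 m * tt n ^ (dz a m - K) * (1 + τ n) ^ dz w m * (m j : ℂ)) atTop
        (𝓝 (∑ m ∈ Q1.support, Q1 m * (0 : ℂ) ^ (dz a m - K) * 1 * (m j : ℂ))) :=
      tendsto_finsetSum _ fun m hm => ((hcoef m hm).mul (hpow _)).mul_const _
    have h2 : ∑ m ∈ Q1.support, Q1 m * (0 : ℂ) ^ (dz a m - K) * 1 * (m j : ℂ) = r j := by
      rw [← hg5 j]
      have := hlim _ (aff_coord j)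
      rw [S_eq] at this
      refine Eq.trans (Finset.sum_congr rfl fun m _ => ?_) this
      ring
    rw [h2] at h1
    refine h1.congr' ?_
    filter_upwards [hτ1] with n hn
    rw [Pi.smul_apply, smul_eq_mul, h_LGR d _ _ (pt_tor a w (tt_ne n) hn) j]
    have h3 := hkey _ (aff_coord j) n hn
    have h4 : (Q0 + R).sum (fun m c => c * (m j : ℂ) * mon (pt a w (tt n) (τ n)) m) =
        S (Q0 + R) (fun m => (m j : ℂ) * mon (pt a w (tt n) (τ n)) m) := by
      unfold S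
      exact Finset.sum_congr rfl fun m _ => by ring
    rw [h4, h3, ← mul_assoc, ← zpow_add₀ (tt_ne n), neg_add_cancel, zpow_zero, one_mul]

end LDF
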