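import Pool.Agent.LDF.T

/-!
# LDF: CSL (algebraic curve selection)
-/

set_option autoImplicit false

noncomputable section

namespace LDF

namespace CSL_

/-- the constant map -/
def cmap {ι : Type} (c : ι → ℂ) : MvPolynomial ι ℂ →ₐ[ℂ] PowerSeries ℂ :=
  (Algebra.ofId ℂ (PowerSeries ℂ)).comp (MvPolynomial.aeval c)

theorem cmap_apply {ι : Type} (c : ι → ℂ) (F : MvPolynomial ι ℂ) :
    cmap c F = PowerSeries.C (MvPolynomial.eval c F) := by
  have h : (MvPolynomial.aeval c) F = MvPolynomial.eval c F := by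
    rw [MvPolynomial.aeval_def, Algebra.algebraMap_self]
    rfl
  unfold cmap
  rw [AlgHom.comp_apply, h, Algebra.ofId_apply]
  rfl

end CSL_

open CSL_ in
theorem p_CSL (h_GD : T_GD) (h_PLA : T_PLA) : T_CSL := by
  intro ι _ I hI c hc g hg
  by_cases hgc : MvPolynomial.eval c g = 0
  · obtain ⟨Q, hQ, hIQ, hcQ, hgQ, j, hj, hjf⟩ := h_GD ι I hI c hc g hg hgc
    have := hQ
    let st : (MvPolynomial ι ℂ ⧸ Q) →ₐ[ℂ] ℂ :=
      Ideal.Quotient.liftₐ Q (MvPolynomial.aeval c) (by
        intro F hF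
        have h : (MvPolynomial.aeval c) F = MvPolynomial.eval c F := by
          rw [MvPolynomial.aeval_def, Algebra.algebraMap_self]
          rfl
        rw [h]
        exact hcQ F hF)
    obtain ⟨ψ, hψ, hst⟩ := h_PLA (MvPolynomial ι ℂ ⧸ Q) j hj hjf st
    refine ⟨ψ.comp (Ideal.Quotient.mkₐ ℂ Q), ?_, ?_, ?_⟩
    · intro F hF
      rw [AlgHom.comp_apply, Ideal.Quotient.mkₐ_eq_mk, Ideal.Quotient.eq_zero_iff_mem.2 (hIQ hF),
        map_zero]
    · rw [AlgHom.comp_apply, Ideal.Quotient.mkₐ_eq_mk]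
      intro h0
      apply hgQ
      rw [← Ideal.Quotient.eq_zero_iff_mem]
      apply hψ
      rw [h0, map_zero]
    · intro F
      rw [AlgHom.comp_apply, hst, Ideal.Quotient.mkₐ_eq_mk]
      have h1 : st (Ideal.Quotient.mk Q F) = (MvPolynomial.aeval c) F := rfl
      rw [h1, MvPolynomial.aeval_def, Algebra.algebraMap_self]
      rfl
  · refine ⟨cmap c, ?_, ?_, ?_⟩
    · intro F hF
      rw [cmap_apply, hc F hF, map_zero]
    · rw [cmap_apply]
      intro h0
      apply hgc
      have h1 := congrArg PowerSeries.constantCoeff h0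
      rw [PowerSeries.constantCoeff_C, map_zero] at h1
      exact h1
    · intro F
      rw [cmap_apply, PowerSeries.constantCoeff_C]

end LDF
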