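import Pool.Agent.LDF.T

/-!
# LDF-DER: the derivation `s d/ds` of the Laurent series
-/

set_option autoImplicit false

open Filter Topology
open scoped Pointwise

noncomputable section

namespace LDF

namespace DER_

/-- `s d/ds` on Laurent series -/
def dfun (x : LaurentSeries ℂ) : LaurentSeries ℂ where
  coeff n := (n : ℂ) * x.coeff n
  isPWO_support' := x.isPWO_support.mono fun n hn => by
    intro h
    apply hn
    show (n : ℂ) * x.coeff n = 0
    rw [h, mul_zero]

theorem dfun_coeff (x : LaurentSeries ℂ) (n : ℤ) : (dfun x).coeff n = (n : ℂ) * x.coeff n := rfl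

theorem supp (x : LaurentSeries ℂ) : (dfun x).support ⊆ x.support := by
  intro n hn h
  apply hn
  show (n : ℂ) * x.coeff n = 0
  rw [h, mul_zero]

theorem leib (x y : LaurentSeries ℂ) : dfun (x * y) = x * dfun y + y * dfun x := by
  ext n
  rw [dfun_coeff, HahnSeries.coeff_add, HahnSeries.coeff_mul,
    HahnSeries.coeff_mul_right' y.isPWO_support (supp y), mul_comm y (dfun x),
    HahnSeries.coeff_mul_left' x.isPWO_support (supp x), Finset.mul_sum,
    ← Finset.sum_add_distrib]
  refine Finset.sum_congr rfl fun ij hij => ?_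
  rw [Finset.mem_antidiagonal] at hij
  rw [dfun_coeff, dfun_coeff, ← hij.2.2]
  push_cast
  ring

theorem alg_mul (c : ℂ) (x : LaurentSeries ℂ) :
    (algebraMap ℂ (LaurentSeries ℂ) c) * x = HahnSeries.C c * x := by
  rw [HahnSeries.algebraMap_apply', PowerSeries.algebraMap_apply]
  rw [HahnSeries.ofPowerSeries_C]
  rfl

theorem C_mul_coeff (c : ℂ) (x : LaurentSeries ℂ) (n : ℤ) :
    (HahnSeries.C c * x).coeff n = c * x.coeff n := by
  rw [HahnSeries.C_mul_eq_smul, HahnSeries.coeff_smul, smul_eq_mul]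

theorem dfun_add (x y : LaurentSeries ℂ) : dfun (x + y) = dfun x + dfun y := by
  ext n
  rw [HahnSeries.coeff_add, dfun_coeff, dfun_coeff, dfun_coeff, HahnSeries.coeff_add, mul_add]

theorem dfun_alg (c : ℂ) (x : LaurentSeries ℂ) :
    dfun (algebraMap ℂ (LaurentSeries ℂ) c * x) = c • dfun x := by
  ext n
  rw [alg_mul, dfun_coeff, C_mul_coeff, HahnSeries.coeff_smul, dfun_coeff, smul_eq_mul]
  ring

/-- `s d/ds` as a derivation -/
def D : Derivation ℂ (LaurentSeries ℂ) (LaurentSeries ℂ) :=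
  Derivation.mk'
    (@LinearMap.mk ℂ ℂ _ _ (RingHom.id ℂ) (LaurentSeries ℂ) (LaurentSeries ℂ) _ _
      Algebra.toModule HahnSeries.instModule ⟨dfun, dfun_add⟩
      (fun c x => (congrArg dfun (Algebra.smul_def c x)).trans (dfun_alg c x)))
    (fun x y => leib x y)

theorem D_apply (x : LaurentSeries ℂ) : D x = dfun x := rfl

end DER_

open DER_ in
theorem p_DER : T_DER := by
  refine ⟨D, fun x hx n hn => ?_⟩
  rw [D_apply]
  set w : LaurentSeries ℂ := dfun x - algebraMap ℂ (LaurentSeries ℂ) (x.order : ℂ) * x with hw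
  have h1 : dfun x * x⁻¹ - algebraMap ℂ (LaurentSeries ℂ) (x.order : ℂ) = w * x⁻¹ := by
    rw [hw, sub_mul, mul_assoc, mul_inv_cancel₀ hx, mul_one]
  rw [h1]
  by_cases hw0 : w = 0
  · rw [hw0, zero_mul, HahnSeries.coeff_zero]
  have hxi : x⁻¹ ≠ 0 := inv_ne_zero hx
  have h2 : x.order + x⁻¹.order = 0 := by
    rw [← HahnSeries.order_mul hx hxi, mul_inv_cancel₀ hx, HahnSeries.order_one]
  have h3 : x.order < w.order := by
    by_contra h
    push Not at h
    have h4 : w.coeff w.order ≠ 0 := fun h5 => hw0 (HahnSeries.coeff_order_eq_zero.1 h5)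
    apply h4
    have h6 : ∀ m, w.coeff m = (m : ℂ) * x.coeff m - (x.order : ℂ) * x.coeff m := by
      intro m
      rw [hw, HahnSeries.coeff_sub, alg_mul, C_mul_coeff, dfun_coeff]
    rw [h6]
    rcases lt_or_eq_of_le h with h5 | h5
    · rw [HahnSeries.coeff_eq_zero_of_lt_order h5]
      ring
    · rw [h5]
      ring
  apply HahnSeries.coeff_eq_zero_of_lt_order
  rw [HahnSeries.order_mul hw0 hxi]
  omega

end LDF
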