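import Pool.Agent.LDF.T

/-!
# LDF: DIM, dimensions
-/

set_option autoImplicit false

open Module

noncomputable section

namespace LDF

namespace DIM_

/-- complexification of real vectors -/
def cx (d : ℕ) : (Fin d → ℝ) →ₗ[ℝ] (Fin d → ℂ) where
  toFun v := fun j => ((v j : ℝ) : ℂ)
  map_add' v w := by
    funext j
    simp
  map_smul' t v := by
    funext j
    simp

/-- the complex span of the differences -/
def W {d : ℕ} (Γ : Set (Fin d → ℝ)) : Submodule ℂ (Fin d → ℂ) :=
  Submodule.span ℂ {w : Fin d → ℂ | ∃ p ∈ Γ, ∃ q ∈ Γ, w = fun j => ((p j - q j : ℝ) : ℂ)}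

lemma indep {d : ℕ} {ι : Type} [Fintype ι] (b : ι → Fin d → ℝ) (hb : LinearIndependent ℝ b) :
    LinearIndependent ℂ fun i => cx d (b i) := by
  rw [Fintype.linearIndependent_iff] at hb ⊢
  intro g hg i
  have h1 : ∑ i, (g i).re • b i = 0 := by
    funext j
    have h2 := congrArg Complex.re (congrFun hg j)
    simpa [cx, Finset.sum_apply] using h2
  have h3 : ∑ i, (g i).im • b i = 0 := by
    funext j
    have h2 := congrArg Complex.im (congrFun hg j)
    simpa [cx, Finset.sum_apply] using h2
  exact Complex.ext (hb _ h1 i) (hb _ h3 i)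

lemma W_eq {d : ℕ} (Γ : Set (Fin d → ℝ)) (U : Submodule ℝ (Fin d → ℝ))
    (hU : U = vectorSpan ℝ Γ) {ι : Type} (b : Basis ι ℝ U) :
    W Γ = Submodule.span ℂ (Set.range fun i => cx d (b i : Fin d → ℝ)) := by
  apply le_antisymm
  · rw [W, Submodule.span_le]
    rintro w ⟨p, hp, q, hq, rfl⟩
    have h1 : p - q ∈ U := by
      rw [hU]
      exact vsub_mem_vectorSpan ℝ hp hq
    have h2 : (fun j => ((p j - q j : ℝ) : ℂ)) = cx d (p - q) := rfl
    rw [h2]
    have h3 : (⟨p - q, h1⟩ : U) ∈ Submodule.span ℝ (Set.range b) := by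
      rw [b.span_eq]
      trivial
    have h4 : ∀ x : U, x ∈ Submodule.span ℝ (Set.range b) →
        cx d (x : Fin d → ℝ) ∈ Submodule.span ℂ (Set.range fun i => cx d (b i : Fin d → ℝ)) := by
      intro x hx
      induction hx using Submodule.span_induction with
      | mem x h =>
        obtain ⟨i, rfl⟩ := h
        exact Submodule.subset_span ⟨i, rfl⟩
      | zero =>
        simp
      | add x y _ _ hx hy =>
        rw [Submodule.coe_add, map_add]
        exact Submodule.add_mem _ hx hy
      | smul t x _ hx =>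
        rw [Submodule.coe_smul, map_smul]
        have h5 : t • cx d (x : Fin d → ℝ) = (t : ℂ) • cx d (x : Fin d → ℝ) := by
          funext j
          simp
        rw [h5]
        exact Submodule.smul_mem _ _ hx
    exact h4 _ h3
  · rw [Submodule.span_le]
    rintro w ⟨i, rfl⟩
    have h1 : (b i : Fin d → ℝ) ∈ vectorSpan ℝ Γ := by
      rw [← hU]
      exact (b i).2
    rw [vectorSpan] at h1
    have h4 : ∀ x : Fin d → ℝ, x ∈ Submodule.span ℝ (Γ -ᵥ Γ) → cx d x ∈ W Γ := by
      intro x hx
      induction hx using Submodule.span_induction with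
      | mem x h =>
        obtain ⟨p, hp, q, hq, rfl⟩ := Set.mem_vsub.1 h
        exact Submodule.subset_span ⟨p, hp, q, hq, rfl⟩
      | zero =>
        rw [map_zero]
        exact Submodule.zero_mem _
      | add x y _ _ hx hy =>
        rw [map_add]
        exact Submodule.add_mem _ hx hy
      | smul t x _ hx =>
        rw [map_smul]
        have h5 : t • cx d x = (t : ℂ) • cx d x := by
          funext j
          simp
        rw [h5]
        exact Submodule.smul_mem _ _ hx
    exact h4 _ h1

lemma finrank_W {d : ℕ} (Γ : Set (Fin d → ℝ)) : finrank ℂ (W Γ) = fdim Γ := by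
  have b := finBasis ℝ (vectorSpan ℝ Γ)
  rw [W_eq Γ _ rfl b, finrank_span_eq_card, Fintype.card_fin]
  · rfl
  · refine indep (fun i => (b i : Fin d → ℝ)) ?_
    exact b.linearIndependent.map' (Submodule.subtype _) (Submodule.ker_subtype _)

/-- the functional of an integer vector -/
def fn {d : ℕ} (a : Fin d → ℤ) : (Fin d → ℂ) →ₗ[ℂ] ℂ :=
  ∑ j, (a j : ℂ) • LinearMap.proj j

lemma fn_apply {d : ℕ} (a : Fin d → ℤ) (r : Fin d → ℂ) : fn a r = ∑ j, (a j : ℂ) * r j := by
  simp [fn, LinearMap.sum_apply]

lemma W_le {d : ℕ} {N Γ : Set (Fin d → ℝ)} (a : Fin d → ℤ) (ha : Exposes a N Γ) :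
    W Γ ≤ LinearMap.ker (fn a) := by
  rw [W, Submodule.span_le]
  rintro w ⟨p, hp, q, hq, rfl⟩
  rw [SetLike.mem_coe, LinearMap.mem_ker, fn_apply]
  have hp' := hp
  have hq' := hq
  rw [ha] at hp' hq'
  have h1 : ∑ j, (a j : ℝ) * p j = ∑ j, (a j : ℝ) * q j :=
    le_antisymm (hp'.2 q hq'.1) (hq'.2 p hp'.1)
  have h2 : ∑ j, (a j : ℝ) * (p j - q j) = 0 := by
    simp only [mul_sub, Finset.sum_sub_distrib]
    linarith
  have h3 := congrArg (fun t : ℝ => (t : ℂ)) h2
  push_cast at h3 ⊢
  exact h3

lemma full {d : ℕ} {N : Set (Fin d → ℝ)} (hN : (interior N).Nonempty) : fdim N = d := by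
  have h1 : affineSpan ℝ (interior N) = ⊤ := isOpen_interior.affineSpan_eq_top hN
  have h2 : affineSpan ℝ N = ⊤ := by
    rw [eq_top_iff, ← h1]
    exact affineSpan_mono ℝ interior_subset
  rw [fdim, ← direction_affineSpan, h2, AffineSubspace.direction_top, finrank_top]
  simp

end DIM_

open DIM_ in
theorem p_DIM (h_INT : T_INT) : T_DIM := by
  intro d N Γ hN hΓ
  have hW := finrank_W Γ
  have hd : finrank ℂ (Fin d → ℂ) = d := by simp
  have hpar : ∀ r, Par Γ r ↔ r ∈ W Γ := fun r => Iff.rfl
  have hker : ∀ a : Fin d → ℤ, finrank ℂ (LinearMap.range (fn a)) +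
      finrank ℂ (LinearMap.ker (fn a)) = d := by
    intro a
    rw [LinearMap.finrank_range_add_finrank_ker, hd]
  refine ⟨?_, ?_, ?_⟩
  · intro h r
    rw [hpar]
    have h1 : W Γ = ⊤ := Submodule.eq_top_of_finrank_eq (by rw [hW, hd, h])
    rw [h1]
    trivial
  · rintro h r ⟨a, ha, har⟩
    have ha0 : a ≠ 0 := by
      rintro rfl
      have h1 : Γ = N := by
        rw [ha]
        ext x
        simp
      have h2 := full hN.2
      rw [← h1] at h2
      omega
    have hfn : fn a ≠ 0 := by
      intro h0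
      apply ha0
      funext j
      have h1 := congrArg (fun f => f (Pi.single j 1)) h0
      simp only [fn_apply, LinearMap.zero_apply] at h1
      rw [Finset.sum_eq_single j] at h1
      · simpa using h1
      · intro i _ hi
        rw [Pi.single_eq_of_ne hi, mul_zero]
      · intro hj
        exact absurd (Finset.mem_univ j) hj
    have hr1 : 0 < finrank ℂ (LinearMap.range (fn a)) := by
      rw [Nat.pos_iff_ne_zero]
      intro h0
      rw [Submodule.finrank_eq_zero, LinearMap.range_eq_bot] at h0
      exact hfn h0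
    have h2 := hker a
    have h3 : W Γ = LinearMap.ker (fn a) := by
      refine Submodule.eq_of_le_of_finrank_le (W_le a ha) ?_
      rw [hW]
      omega
    rw [hpar, h3, LinearMap.mem_ker, fn_apply]
    exact har
  · intro h1 h2
    obtain ⟨a, ha⟩ := h_INT d N Γ hN hΓ
    have h3 : fdim Γ ≤ d := by
      rw [← hW]
      exact (Submodule.finrank_le _).trans_eq hd
    have h4 := hker a
    have h5 : finrank ℂ (LinearMap.range (fn a)) ≤ 1 := by
      refine (Submodule.finrank_le _).trans_eq ?_
      simp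
    have h6 : ¬ LinearMap.ker (fn a) ≤ W Γ := by
      intro hle
      have h7 := Submodule.finrank_mono hle
      rw [hW] at h7
      omega
    obtain ⟨r, hr1, hr2⟩ := SetLike.not_le_iff_exists.1 h6
    refine ⟨r, ?_, ⟨a, ha, ?_⟩, ?_⟩
    · rintro rfl
      exact hr2 (Submodule.zero_mem _)
    · rw [LinearMap.mem_ker, fn_apply] at hr1
      exact hr1
    · rw [hpar]
      exact hr2

end LDF
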