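import Pool.Agent.LDF.T

/-!
# LDF: the target DUAL (helper94)
-/

set_option autoImplicit false

open Filter Topology
open scoped Pointwise

noncomputable section

namespace LDF

lemma DUAL_inj {d : ℕ} : Function.Injective (toR (d := d)) := by
  intro a b h
  funext j
  have := congrFun h j
  simpa [toR] using this

lemma DUAL_comb {d : ℕ} (V : Finset (Fin d → ℤ)) (Γ : Set (Fin d → ℝ))
    (hΓ : IsFace (conv V) Γ) (x : Fin d → ℝ) (hx : x ∈ Γ) :
    ∃ c : (Fin d → ℤ) → ℝ, (∀ v ∈ V, c v ≠ 0 → toR v ∈ Γ) ∧ ∑ v ∈ V, c v = 1 ∧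
      ∑ v ∈ V, c v • toR v = x := by
  classical
  obtain ⟨l, hl⟩ := hΓ.2 hΓ.1
  have hx' : x ∈ conv V ∧ ∀ y ∈ conv V, l y ≤ l x := by
    rw [hl] at hx
    exact hx
  have h1 : x ∈ convexHull ℝ ((V.image toR : Finset (Fin d → ℝ)) : Set (Fin d → ℝ)) := by
    rw [Finset.coe_image]
    exact hx'.1
  rw [Finset.mem_convexHull'] at h1
  obtain ⟨w, hw0, hw1, hw2⟩ := h1
  rw [Finset.sum_image (fun a _ b _ h => DUAL_inj h)] at hw1 hw2
  refine ⟨fun v => w (toR v), ?_, hw1, hw2⟩
  have hin : ∀ v ∈ V, toR v ∈ conv V := fun v hv =>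
    subset_convexHull ℝ _ ⟨v, hv, rfl⟩
  have hnn : ∀ v ∈ V, 0 ≤ w (toR v) * (l x - l (toR v)) := fun v hv =>
    mul_nonneg (hw0 _ (Finset.mem_image_of_mem _ hv)) (sub_nonneg.2 (hx'.2 _ (hin v hv)))
  have hsum : ∑ v ∈ V, w (toR v) * (l x - l (toR v)) = 0 := by
    have h2 : l x = ∑ v ∈ V, w (toR v) * l (toR v) := by
      conv_lhs => rw [← hw2]
      rw [map_sum]
      refine Finset.sum_congr rfl fun v _ => ?_
      rw [map_smul, smul_eq_mul]
    have h3 : ∑ v ∈ V, w (toR v) * (l x - l (toR v))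
        = (∑ v ∈ V, w (toR v)) * l x - ∑ v ∈ V, w (toR v) * l (toR v) := by
      rw [Finset.sum_mul, ← Finset.sum_sub_distrib]
      refine Finset.sum_congr rfl fun v _ => ?_
      ring
    rw [h3, hw1, ← h2]
    ring
  have hz := (Finset.sum_eq_zero_iff_of_nonneg hnn).1 hsum
  intro v hv hne
  have h4 : l x - l (toR v) = 0 := by
    rcases mul_eq_zero.1 (hz v hv) with h | h
    · exact absurd h hne
    · exact h
  rw [hl]
  refine ⟨hin v hv, fun y hy => ?_⟩
  have h5 := hx'.2 y hy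
  linarith

lemma DUAL_vert {d : ℕ} (V : Finset (Fin d → ℤ)) (Γ : Set (Fin d → ℝ))
    (hΓ : IsFace (conv V) Γ) : ∃ q ∈ V, toR q ∈ Γ := by
  obtain ⟨x, hx⟩ := hΓ.1
  obtain ⟨c, h1, h2, _⟩ := DUAL_comb V Γ hΓ x hx
  by_contra hcon
  push Not at hcon
  have h3 : ∑ v ∈ V, c v = 0 := by
    refine Finset.sum_eq_zero fun v hv => ?_
    by_contra hne
    exact hcon v hv (h1 v hv hne)
  rw [h3] at h2
  exact zero_ne_one h2

lemma DUAL_const {d : ℕ} (V : Finset (Fin d → ℤ)) (Γ : Set (Fin d → ℝ))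
    (hΓ : IsFace (conv V) Γ) (q : Fin d → ℤ) (w : Fin d → ℤ)
    (hw : ∀ p ∈ V, toR p ∈ Γ → ∑ j, (w j : ℝ) * ((p j : ℝ) - (q j : ℝ)) = 0) (x : Fin d → ℝ)
    (hx : x ∈ Γ) : ∑ j, (w j : ℝ) * x j = ∑ j, (w j : ℝ) * (q j : ℝ) := by
  obtain ⟨c, h1, h2, h3⟩ := DUAL_comb V Γ hΓ x hx
  have h4 : ∀ j, x j = ∑ v ∈ V, c v * (v j : ℝ) := by
    intro j
    rw [← h3, Finset.sum_apply]
    refine Finset.sum_congr rfl fun v _ => ?_
    simp [toR]
  calc ∑ j, (w j : ℝ) * x j = ∑ j, ∑ v ∈ V, c v * ((w j : ℝ) * (v j : ℝ)) := by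
        refine Finset.sum_congr rfl fun j _ => ?_
        rw [h4 j, Finset.mul_sum]
        refine Finset.sum_congr rfl fun v _ => ?_
        ring
    _ = ∑ v ∈ V, c v * ∑ j, (w j : ℝ) * (v j : ℝ) := by
        rw [Finset.sum_comm]
        refine Finset.sum_congr rfl fun v _ => ?_
        rw [Finset.mul_sum]
    _ = ∑ v ∈ V, c v * ∑ j, (w j : ℝ) * (q j : ℝ) := by
        refine Finset.sum_congr rfl fun v hv => ?_
        by_cases hc : c v = 0
        · rw [hc, zero_mul, zero_mul]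
        · have h5 := hw v hv (h1 v hv hc)
          have h6 : ∑ j, (w j : ℝ) * (v j : ℝ) - ∑ j, (w j : ℝ) * (q j : ℝ) = 0 := by
            rw [← Finset.sum_sub_distrib, ← h5]
            refine Finset.sum_congr rfl fun j _ => ?_
            ring
          rw [sub_eq_zero.1 h6]
    _ = ∑ j, (w j : ℝ) * (q j : ℝ) := by
        rw [← Finset.sum_mul, h2, one_mul]

theorem p_DUAL : T_DUAL := by
  classical
  intro d V Γ hΓ r hr
  by_contra hcon
  push Not at hcon
  apply hr
  obtain ⟨q, hqV, hqΓ⟩ := DUAL_vert V Γ hΓ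
  -- the rational span
  set T : Set (Fin d → ℚ) := {u | ∃ p ∈ V, toR p ∈ Γ ∧ u = fun j => ((p j - q j : ℤ) : ℚ)} with hT
  set W : Submodule ℚ (Fin d → ℚ) := Submodule.span ℚ T with hW
  obtain ⟨g, hg⟩ := LinearMap.exists_leftInverse_of_injective W.subtype
    (by rw [Submodule.ker_subtype])
  have hgW : ∀ u (hu : u ∈ W), ((g u : W) : Fin d → ℚ) = u := by
    intro u hu
    have := LinearMap.congr_fun hg ⟨u, hu⟩
    simp only [LinearMap.comp_apply, Submodule.subtype_apply, LinearMap.id_apply] at this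
    rw [this]
  let P : Fin d → Fin d → ℚ := fun j => ((g (Pi.single j 1) : W) : Fin d → ℚ)
  have hPW : ∀ j, P j ∈ W := fun j => (g (Pi.single j 1)).2
  have hexp : ∀ u ∈ W, ∀ i, u i = ∑ j, u j * P j i := by
    intro u hu i
    have h1 : u = ∑ j, u j • (Pi.single j (1 : ℚ) : Fin d → ℚ) := by
      funext k
      rw [Finset.sum_apply, Finset.sum_eq_single k]
      · simp
      · intro b _ hb
        simp [Ne.symm hb]
      · intro h
        exact absurd (Finset.mem_univ k) h
    have h2 := hgW u hu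
    conv_lhs => rw [← h2, h1]
    rw [map_sum]
    simp only [map_smul]
    rw [AddSubmonoidClass.coe_finsetSum, Finset.sum_apply]
    refine Finset.sum_congr rfl fun j _ => ?_
    simp [P]
  -- the rows
  have hrow : ∀ i, r i = ∑ j, r j * (P j i : ℂ) := by
    intro i
    let R : Fin d → ℚ := fun j => (if i = j then 1 else 0) - P j i
    obtain ⟨b, hb⟩ := IsLocalization.exist_integer_multiples_of_finite (nonZeroDivisors ℤ) R
    have hb0 : ((b : ℤ) : ℂ) ≠ 0 := by
      have := nonZeroDivisors.coe_ne_zero b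
      exact_mod_cast this
    choose z hz using hb
    have hz' : ∀ j, (z j : ℚ) = (b : ℤ) * R j := by
      intro j
      have := hz j
      simpa [Algebra.smul_def] using this
    have hRu : ∀ u ∈ W, ∑ j, R j * u j = 0 := by
      intro u hu
      have h1 := hexp u hu i
      have h2 : ∑ j, R j * u j = (∑ j, (if i = j then u j else 0)) - ∑ j, u j * P j i := by
        rw [← Finset.sum_sub_distrib]
        refine Finset.sum_congr rfl fun j _ => ?_
        simp only [R]
        split_ifs <;> ring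
      rw [h2, Finset.sum_ite_eq Finset.univ i, if_pos (Finset.mem_univ i), ← h1, sub_self]
    have hzu : ∀ p ∈ V, toR p ∈ Γ → ∑ j, (z j : ℝ) * ((p j : ℝ) - (q j : ℝ)) = 0 := by
      intro p hp hpΓ
      have h1 : ∑ j, (z j : ℚ) * ((p j - q j : ℤ) : ℚ) = 0 := by
        have h2 := hRu _ (Submodule.subset_span (⟨p, hp, hpΓ, rfl⟩ : _ ∈ T))
        have h3 : ∑ j, (z j : ℚ) * ((p j - q j : ℤ) : ℚ)
            = (b : ℤ) * ∑ j, R j * ((p j - q j : ℤ) : ℚ) := by
          rw [Finset.mul_sum]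
          refine Finset.sum_congr rfl fun j _ => ?_
          rw [hz' j]
          ring
        rw [h3, h2, mul_zero]
      have h4 : ((∑ j, (z j : ℚ) * ((p j - q j : ℤ) : ℚ) : ℚ) : ℝ) = 0 := by
        rw [h1]
        simp
      rw [← h4]
      push_cast
      rfl
    have hzr : ∑ j, (z j : ℂ) * r j = 0 := by
      apply hcon z
      intro x hx y hy
      have hx1 := DUAL_const V Γ hΓ q z hzu x hx
      have hy1 := DUAL_const V Γ hΓ q z hzu y hy
      have h5 : ∑ j, (z j : ℝ) * (x j - y j) = ∑ j, (z j : ℝ) * x j - ∑ j, (z j : ℝ) * y j := by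
        rw [← Finset.sum_sub_distrib]
        refine Finset.sum_congr rfl fun j _ => ?_
        ring
      rw [h5, hx1, hy1, sub_self]
    have hzc : ∀ j, (z j : ℂ) = ((b : ℤ) : ℂ) * ((if i = j then 1 else 0) - (P j i : ℂ)) := by
      intro j
      have h6 := congrArg (fun t : ℚ => (t : ℂ)) (hz' j)
      simp only [R] at h6
      push_cast at h6
      rw [h6]
      split_ifs <;> simp
    have h7 : ∑ j, (z j : ℂ) * r j
        = ((b : ℤ) : ℂ) * (∑ j, (if i = j then r j else 0) - ∑ j, r j * (P j i : ℂ)) := by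
      rw [← Finset.sum_sub_distrib, Finset.mul_sum]
      refine Finset.sum_congr rfl fun j _ => ?_
      rw [hzc j]
      split_ifs <;> ring
    rw [h7, Finset.sum_ite_eq Finset.univ i, if_pos (Finset.mem_univ i)] at hzr
    rcases mul_eq_zero.1 hzr with h | h
    · exact absurd h hb0
    · exact sub_eq_zero.1 h
  -- the rational vectors of `W` are parallel
  have hpar : ∀ u ∈ W, Par Γ (fun i => (u i : ℂ)) := by
    intro u hu
    unfold Par
    refine Submodule.span_induction (p := fun u _ => (fun i => (u i : ℂ)) ∈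
      Submodule.span ℂ {w : Fin d → ℂ | ∃ p ∈ Γ, ∃ q ∈ Γ, w = fun j => ((p j - q j : ℝ) : ℂ)})
      ?_ ?_ ?_ ?_ hu
    · rintro u ⟨p, hp, hpΓ, rfl⟩
      apply Submodule.subset_span
      refine ⟨toR p, hpΓ, toR q, hqΓ, ?_⟩
      funext j
      simp [toR]
    · have : (fun i : Fin d => (((0 : Fin d → ℚ) i : ℚ) : ℂ)) = 0 := by
        funext i
        simp
      rw [this]
      exact Submodule.zero_mem _
    · intro x y _ _ hx hy
      have : (fun i : Fin d => (((x + y) i : ℚ) : ℂ))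
          = (fun i => (x i : ℂ)) + (fun i => (y i : ℂ)) := by
        funext i
        simp
      rw [this]
      exact Submodule.add_mem _ hx hy
    · intro a x _ hx
      have : (fun i : Fin d => (((a • x) i : ℚ) : ℂ)) = (a : ℂ) • (fun i => (x i : ℂ)) := by
        funext i
        simp
      rw [this]
      exact Submodule.smul_mem _ _ hx
  have hfin : r = ∑ j, r j • (fun i => (P j i : ℂ)) := by
    funext i
    rw [Finset.sum_apply, hrow i]
    simp only [Pi.smul_apply, smul_eq_mul]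
  unfold Par
  rw [hfin]
  exact Submodule.sum_mem _ fun j _ => Submodule.smul_mem _ _ (hpar _ (hPW j))

end LDF
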