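import Pool.Agent.LDF.T

set_option autoImplicit false

open scoped Pointwise

noncomputable section

namespace LDF

namespace EX_

/-- the vertices of the unit cube -/
def V (d : ℕ) : Finset (Fin d → ℤ) := Fintype.piFinset fun _ => {0, 1}

lemma toR_V (d : ℕ) :
    toR '' (V d : Set (Fin d → ℤ)) = Set.univ.pi fun _ : Fin d => ({0, 1} : Set ℝ) := by
  ext x
  simp only [Set.mem_image, Finset.mem_coe, V, Fintype.mem_piFinset, Finset.mem_insert,
    Finset.mem_singleton, Set.mem_pi, Set.mem_univ, true_implies, Set.mem_insert_iff,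
    Set.mem_singleton_iff]
  constructor
  · rintro ⟨m, hm, rfl⟩ j
    rcases hm j with h | h
    · left; simp [toR, h]
    · right; simp [toR, h]
  · intro hx
    refine ⟨fun j => if x j = 0 then 0 else 1, fun j => ?_, ?_⟩
    · simp only
      split_ifs
      · left; rfl
      · right; rfl
    · ext j
      simp only [toR]
      split_ifs with h
      · simp [h]
      · rcases hx j with h' | h'
        · exact absurd h' h
        · simp [h']

lemma conv_V (d : ℕ) : conv (V d) = Set.univ.pi fun _ : Fin d => Set.Icc (0 : ℝ) 1 := by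
  rw [conv, toR_V, convexHull_pi]
  have : convexHull ℝ ({0, 1} : Set ℝ) = Set.Icc (0 : ℝ) 1 := by
    rw [convexHull_pair, segment_eq_Icc zero_le_one]
  simp only [this]

end EX_

open EX_ in
theorem p_EX : T_EX := by
  classical
  intro d hd
  let i0 : Fin d := ⟨0, by omega⟩
  let l : (Fin d → ℝ) →L[ℝ] ℝ := - ∑ j ∈ Finset.univ.erase i0, ContinuousLinearMap.proj j
  have hl : ∀ x, l x = - ∑ j ∈ Finset.univ.erase i0, x j := by
    intro x
    simp [l]
  have hmem : ∀ x : Fin d → ℝ, x ∈ conv (V d) ↔ ∀ j, 0 ≤ x j ∧ x j ≤ 1 := by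
    intro x
    rw [conv_V, Set.mem_univ_pi]
    rfl
  let Γ : Set (Fin d → ℝ) := {x | x ∈ conv (V d) ∧ ∀ y ∈ conv (V d), l y ≤ l x}
  have h0 : (0 : Fin d → ℝ) ∈ conv (V d) := by
    rw [hmem]; intro j; simp
  have hΓ : ∀ x, x ∈ Γ ↔ (x ∈ conv (V d) ∧ ∀ j, j ≠ i0 → x j = 0) := by
    intro x
    constructor
    · rintro ⟨hx, h⟩
      refine ⟨hx, ?_⟩
      have h1 := h 0 h0
      rw [hl, hl] at h1
      simp only [Pi.zero_apply, Finset.sum_const_zero, neg_zero] at h1
      have h2 : ∑ j ∈ Finset.univ.erase i0, x j = 0 :=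
        le_antisymm (by linarith) (Finset.sum_nonneg fun j _ => ((hmem x).mp hx j).1)
      rw [Finset.sum_eq_zero_iff_of_nonneg (fun j _ => ((hmem x).mp hx j).1)] at h2
      intro j hj
      exact h2 j (Finset.mem_erase.mpr ⟨hj, Finset.mem_univ _⟩)
    · rintro ⟨hx, h⟩
      refine ⟨hx, fun y hy => ?_⟩
      rw [hl, hl]
      have h1 : ∑ j ∈ Finset.univ.erase i0, x j = 0 :=
        Finset.sum_eq_zero fun j hj => h j (Finset.mem_erase.mp hj).1
      have h2 : 0 ≤ ∑ j ∈ Finset.univ.erase i0, y j :=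
        Finset.sum_nonneg fun j _ => ((hmem y).mp hy j).1
      rw [h1]
      linarith
  have h0Γ : (0 : Fin d → ℝ) ∈ Γ := by
    rw [hΓ]
    exact ⟨h0, fun j _ => rfl⟩
  have h1Γ : (Pi.single i0 1 : Fin d → ℝ) ∈ Γ := by
    rw [hΓ, hmem]
    refine ⟨fun j => ?_, fun j hj => ?_⟩
    · by_cases hj : j = i0
      · subst hj; simp
      · simp [Pi.single_eq_of_ne hj]
    · simp [Pi.single_eq_of_ne hj]
  refine ⟨conv (V d), Γ, ⟨⟨V d, rfl⟩, ?_⟩, ⟨⟨0, h0Γ⟩, ?_⟩, ?_⟩
  · rw [conv_V, interior_pi_set Set.finite_univ]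
    refine ⟨fun _ => 1 / 2, ?_⟩
    simp only [Set.mem_pi, Set.mem_univ, interior_Icc, Set.mem_Ioo, true_implies]
    intro j
    norm_num
  · intro _
    exact ⟨l, rfl⟩
  · have hspan : vectorSpan ℝ Γ = Submodule.span ℝ {(Pi.single i0 1 : Fin d → ℝ)} := by
      apply le_antisymm
      · rw [vectorSpan_def, Submodule.span_le]
        rintro z ⟨p, hp, q, hq, rfl⟩
        simp only [SetLike.mem_coe, Submodule.mem_span_singleton]
        refine ⟨p i0 - q i0, ?_⟩
        ext j
        by_cases hj : j = i0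
        · subst hj; simp
        · simp only [vsub_eq_sub, Pi.smul_apply, Pi.sub_apply, Pi.single_eq_of_ne hj, smul_eq_mul,
            mul_zero]
          rw [((hΓ p).mp hp).2 j hj, ((hΓ q).mp hq).2 j hj, sub_zero]
      · rw [Submodule.span_singleton_le_iff_mem]
        have := vsub_mem_vectorSpan ℝ h1Γ h0Γ
        simpa using this
    rw [fdim, hspan]
    apply finrank_span_singleton
    intro h
    have := congrFun h i0
    simp at this

end LDF
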