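import Pool.Agent.LDF.T

/-! # LDF-EXP: discrete valuation rings and power series -/

set_option autoImplicit false

open Filter Topology
open scoped Pointwise

noncomputable section

namespace LDF

namespace EXP_

variable {R : Type} [CommRing R] [Algebra ℂ R]

/-- `f` is the expansion of `x` in powers of `π` -/
def Rel (π x : R) (f : PowerSeries ℂ) : Prop :=
  ∀ n : ℕ, π ^ n ∣ x - Polynomial.aeval π (PowerSeries.trunc n f)

theorem aeval_dvd (π : R) (n : ℕ) (p : Polynomial ℂ) (h : ∀ d < n, p.coeff d = 0) :
    π ^ n ∣ Polynomial.aeval π p := by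
  obtain ⟨q, rfl⟩ := Polynomial.X_pow_dvd_iff.2 h
  exact ⟨Polynomial.aeval π q, by simp⟩

theorem Rel.add {π x y : R} {f g : PowerSeries ℂ} (hf : Rel π x f) (hg : Rel π y g) :
    Rel π (x + y) (f + g) := by
  intro n
  have h : PowerSeries.trunc n (f + g) = PowerSeries.trunc n f + PowerSeries.trunc n g := by
    ext i
    simp
  have e : x + y - Polynomial.aeval π (PowerSeries.trunc n (f + g)) =
      (x - Polynomial.aeval π (PowerSeries.trunc n f)) +
      (y - Polynomial.aeval π (PowerSeries.trunc n g)) := by
    rw [h, map_add]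
    ring
  rw [e]
  exact dvd_add (hf n) (hg n)

theorem Rel.sub {π x y : R} {f g : PowerSeries ℂ} (hf : Rel π x f) (hg : Rel π y g) :
    Rel π (x - y) (f - g) := by
  intro n
  have e : x - y - Polynomial.aeval π (PowerSeries.trunc n (f - g)) =
      (x - Polynomial.aeval π (PowerSeries.trunc n f)) -
      (y - Polynomial.aeval π (PowerSeries.trunc n g)) := by
    rw [PowerSeries.trunc_sub, map_sub]
    ring
  rw [e]
  exact dvd_sub (hf n) (hg n)

theorem Rel.mul {π x y : R} {f g : PowerSeries ℂ} (hf : Rel π x f) (hg : Rel π y g) :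
    Rel π (x * y) (f * g) := by
  intro n
  set F := PowerSeries.trunc n f with hF
  set G := PowerSeries.trunc n g with hG
  have h : π ^ n ∣ Polynomial.aeval π (F * G - PowerSeries.trunc n (f * g)) := by
    refine aeval_dvd π n _ fun d hd => ?_
    rw [Polynomial.coeff_sub, PowerSeries.coeff_trunc, if_pos hd,
      PowerSeries.coeff_mul_eq_coeff_trunc_mul_trunc f g hd, ← hF, ← hG, sub_eq_zero,
      ← Polynomial.coe_mul, Polynomial.coeff_coe]
  have e : x * y - Polynomial.aeval π (PowerSeries.trunc n (f * g)) =
      (x - Polynomial.aeval π F) * y + Polynomial.aeval π F * (y - Polynomial.aeval π G) +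
      Polynomial.aeval π (F * G - PowerSeries.trunc n (f * g)) := by
    have e1 : Polynomial.aeval π (F * G - PowerSeries.trunc n (f * g)) =
        Polynomial.aeval π F * Polynomial.aeval π G -
        Polynomial.aeval π (PowerSeries.trunc n (f * g)) := by
      simp only [map_sub, map_mul]
    rw [e1]
    ring
  rw [e]
  exact dvd_add (dvd_add ((hf n).mul_right y) ((hg n).mul_left _)) h

theorem Rel.const (π : R) (c : ℂ) : Rel π (algebraMap ℂ R c) (PowerSeries.C c) := by
  intro n
  cases n with
  | zero => simp
  | succ n =>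
    rw [PowerSeries.trunc_C, Polynomial.aeval_C, sub_self]
    exact dvd_zero _

theorem Rel.zero_unique {π : R} (hπ : ¬ IsUnit π) [IsDomain R] (h0 : π ≠ 0)
    {f : PowerSeries ℂ} (hf : Rel π 0 f) : f = 0 := by
  ext n
  rw [map_zero]
  induction n using Nat.strong_induction_on with
  | _ n ih =>
    have h1 : PowerSeries.trunc (n + 1) f =
        Polynomial.monomial n (PowerSeries.coeff n f) := by
      rw [← Nat.succ_eq_add_one, PowerSeries.trunc_succ]
      have : PowerSeries.trunc n f = 0 := by
        ext i
        rw [PowerSeries.coeff_trunc]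
        split_ifs with hi
        · rw [ih i hi, Polynomial.coeff_zero]
        · rw [Polynomial.coeff_zero]
      rw [this, zero_add]
    have h2 := hf (n + 1)
    rw [h1, Polynomial.aeval_monomial, zero_sub, dvd_neg, pow_succ', mul_dvd_mul_iff_right
      (pow_ne_zero n h0)] at h2
    by_contra hc
    refine hπ (isUnit_of_dvd_unit h2 ?_)
    exact (IsUnit.mk0 _ hc).map (algebraMap ℂ R)

theorem Rel.unique {π x : R} (hπ : ¬ IsUnit π) [IsDomain R] (h0 : π ≠ 0)
    {f g : PowerSeries ℂ} (hf : Rel π x f) (hg : Rel π x g) : f = g := by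
  have h := hf.sub hg
  rw [sub_self] at h
  exact sub_eq_zero.1 (Rel.zero_unique hπ h0 h)

end EXP_

open EXP_ in
/-- EXP -/
theorem p_EXP : T_EXP := by
  intro R _ _ _ _ hres
  obtain ⟨π, hirr⟩ := IsDiscreteValuationRing.exists_irreducible R
  have hm : IsLocalRing.maximalIdeal R = Ideal.span {π} := hirr.maximalIdeal_eq
  have hπ : ¬ IsUnit π := hirr.not_isUnit
  have h0 : π ≠ 0 := hirr.ne_zero
  have hq : ∀ x : R, ∃ q : R, ∃ c : ℂ, x = algebraMap ℂ R c + π * q := by
    intro x
    obtain ⟨c, hc⟩ := hres x
    rw [hm, Ideal.mem_span_singleton] at hc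
    obtain ⟨q, hq⟩ := hc
    exact ⟨q, c, by rw [← hq]; ring⟩
  choose q c hqc using hq
  -- existence
  have hex : ∀ x : R, Rel π x (PowerSeries.mk fun n => c (q^[n] x)) := by
    intro x n
    refine ⟨q^[n] x, ?_⟩
    induction n with
    | zero => simp
    | succ n ih =>
      rw [← Nat.succ_eq_add_one, PowerSeries.trunc_succ, map_add, Polynomial.aeval_monomial,
        PowerSeries.coeff_mk, ← sub_sub, ih, Function.iterate_succ_apply']
      nth_rw 1 [hqc (q^[n] x)]
      rw [Nat.succ_eq_add_one, pow_succ]
      ring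
  set F : R → PowerSeries ℂ := fun x => PowerSeries.mk fun n => c (q^[n] x) with hF
  have huniq : ∀ (x : R) (f : PowerSeries ℂ), Rel π x f → F x = f :=
    fun x f hf => Rel.unique hπ h0 (hex x) hf
  let ψ : R →ₐ[ℂ] PowerSeries ℂ :=
    { toFun := F
      map_one' := by
        refine huniq 1 1 ?_
        have := Rel.const π 1
        rwa [map_one, map_one] at this
      map_mul' := fun x y => huniq _ _ ((hex x).mul (hex y))
      map_zero' := by
        refine huniq 0 0 ?_
        have := Rel.const π 0
        rwa [map_zero, map_zero] at this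
      map_add' := fun x y => huniq _ _ ((hex x).add (hex y))
      commutes' := fun a => huniq _ _ (Rel.const π a) }
  refine ⟨ψ, ?_, ?_⟩
  · rw [injective_iff_map_eq_zero]
    intro x hx
    have h1 : Rel π x 0 := by
      have := hex x
      rwa [show (PowerSeries.mk fun n => c (q^[n] x)) = 0 from hx] at this
    have h2 : x ∈ ⨅ i : ℕ, (IsLocalRing.maximalIdeal R) ^ i := by
      rw [Ideal.mem_iInf]
      intro n
      rw [hm, Ideal.span_singleton_pow, Ideal.mem_span_singleton]
      have := h1 n
      rwa [show PowerSeries.trunc n (0 : PowerSeries ℂ) = 0 by ext i; simp, map_zero,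
        sub_zero] at this
    rw [Ideal.iInf_pow_eq_bot_of_isLocalRing _ (Ideal.IsPrime.ne_top')] at h2
    exact h2
  · intro x hx
    rw [hm, Ideal.mem_span_singleton] at hx
    have h1 := hex x 1
    have h2 : PowerSeries.trunc 1 (F x) = Polynomial.C (PowerSeries.constantCoeff (F x)) := by
      ext i
      rw [PowerSeries.coeff_trunc, Polynomial.coeff_C]
      by_cases hi : i = 0
      · subst hi
        simp
      · rw [if_neg (by omega), if_neg hi]
    change π ^ 1 ∣ x - Polynomial.aeval π (PowerSeries.trunc 1 (F x)) at h1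
    rw [h2, Polynomial.aeval_C, pow_one] at h1
    have h3 : π ∣ algebraMap ℂ R (PowerSeries.constantCoeff (F x)) := by
      have := dvd_sub hx h1
      rwa [sub_sub_cancel] at this
    show PowerSeries.constantCoeff (F x) = 0
    by_contra hc
    refine hπ (isUnit_of_dvd_unit h3 ?_)
    exact (IsUnit.mk0 _ hc).map (algebraMap ℂ R)

end LDF
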