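import Pool.Agent.LDF.T

/-!
# LDF: roots of exponential sums (helper14)
-/

set_option autoImplicit false

open Filter Topology Polynomial

noncomputable section

namespace LDF

theorem p_EXS (h_ROOT : T_ROOT) : T_EXS := by
  intro ι A e c c' hc h0 h1
  classical
  set M : ℕ := ∑ i ∈ A, (e i).natAbs with hM
  set k : ι → ℕ := fun i => (e i + M).toNat with hk
  have hki : ∀ i ∈ A, ((k i : ℕ) : ℤ) = e i + M := by
    intro i hi
    have h2 : (e i).natAbs ≤ M := Finset.single_le_sum (f := fun i => (e i).natAbs)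
      (fun _ _ => Nat.zero_le _) hi
    have h3 : 0 ≤ e i + M := by omega
    exact Int.toNat_of_nonneg h3
  set D : ℕ := ∑ i ∈ A, k i with hD
  set p : ℕ → ℂ[X] := fun n => ∑ i ∈ A, C (c n i) * (1 + X) ^ k i with hp
  have hdeg : ∀ n, (p n).natDegree ≤ D := by
    intro n
    refine Polynomial.natDegree_sum_le_of_forall_le A _ fun i hi => ?_
    refine (Polynomial.natDegree_C_mul_le _ _).trans ?_
    refine (Polynomial.natDegree_pow_le).trans ?_
    have h2 : (1 + X : ℂ[X]).natDegree ≤ 1 := by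
      have : (1 + X : ℂ[X]) = C 1 + X := by simp
      rw [this]
      exact (Polynomial.natDegree_add_le _ _).trans (by simp)
    have h3 : k i ≤ D := Finset.single_le_sum (f := k) (fun _ _ => Nat.zero_le _) hi
    calc k i * (1 + X : ℂ[X]).natDegree ≤ k i * 1 := Nat.mul_le_mul_left _ h2
      _ = k i := mul_one _
      _ ≤ D := h3
  have hev : ∀ n x, (p n).eval x = ∑ i ∈ A, c n i * (1 + x) ^ k i := by
    intro n x
    simp only [hp, Polynomial.eval_finset_sum, Polynomial.eval_mul, Polynomial.eval_C,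
      Polynomial.eval_pow, Polynomial.eval_add, Polynomial.eval_one, Polynomial.eval_X]
  have hev0 : ∀ n, (p n).eval 0 = ∑ i ∈ A, c n i := by
    intro n
    rw [hev]
    simp
  have hder : ∀ n, (p n).derivative.eval 0 = ∑ i ∈ A, c n i * (k i : ℂ) := by
    intro n
    simp only [hp, Polynomial.derivative_sum, Polynomial.eval_finset_sum]
    refine Finset.sum_congr rfl fun i _ => ?_
    simp [Polynomial.derivative_mul, Polynomial.derivative_pow]
  have hlim0 : Tendsto (fun n => (p n).eval 0) atTop (𝓝 0) := by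
    have h2 : Tendsto (fun n => ∑ i ∈ A, c n i) atTop (𝓝 (∑ i ∈ A, c' i)) :=
      tendsto_finset_sum A hc
    rw [h0] at h2
    simpa only [hev0] using h2
  have hL : ∑ i ∈ A, c' i * (k i : ℂ) = ∑ i ∈ A, c' i * (e i : ℂ) := by
    have h2 : ∀ i ∈ A, c' i * (k i : ℂ) = c' i * (e i : ℂ) + c' i * (M : ℂ) := by
      intro i hi
      have h3 : ((k i : ℕ) : ℂ) = (e i : ℂ) + (M : ℂ) := by
        have := congrArg (fun z : ℤ => (z : ℂ)) (hki i hi)
        simpa using this
      rw [h3]
      ring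
    rw [Finset.sum_congr rfl h2, Finset.sum_add_distrib, ← Finset.sum_mul, h0, zero_mul, add_zero]
  have hlim1 : Tendsto (fun n => (p n).derivative.eval 0) atTop
      (𝓝 (∑ i ∈ A, c' i * (e i : ℂ))) := by
    rw [← hL]
    simp only [hder]
    exact tendsto_finset_sum A fun i hi => (hc i hi).mul_const _
  have hne : ∀ᶠ n in atTop, (p n).derivative.eval 0 ≠ 0 := hlim1.eventually_ne h1
  have hroot : ∀ n, ∃ τ : ℂ, ((p n).derivative.eval 0 ≠ 0 → (p n).eval τ = 0 ∧
      ‖τ‖ ≤ D * ‖(p n).eval 0 / (p n).derivative.eval 0‖) := by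
    intro n
    by_cases h : (p n).derivative.eval 0 ≠ 0
    · obtain ⟨τ, h2, h3⟩ := h_ROOT D (p n) (hdeg n) h
      exact ⟨τ, fun _ => ⟨h2, h3⟩⟩
    · exact ⟨0, fun h' => absurd h' h⟩
  choose τ hτ using hroot
  have hτ0 : Tendsto τ atTop (𝓝 0) := by
    have h2 : Tendsto (fun n => (D : ℝ) * ‖(p n).eval 0 / (p n).derivative.eval 0‖) atTop
        (𝓝 0) := by
      have h3 := ((hlim0.div hlim1 h1).norm).const_mul (D : ℝ)
      simpa using h3
    rw [tendsto_zero_iff_norm_tendsto_zero]
    refine tendsto_of_tendsto_of_tendsto_of_le_of_le' tendsto_const_nhds h2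
      (Eventually.of_forall fun n => norm_nonneg _) ?_
    filter_upwards [hne] with n hn using (hτ n hn).2
  refine ⟨τ, hτ0, ?_⟩
  have h1τ : Tendsto (fun n => 1 + τ n) atTop (𝓝 1) := by
    simpa using hτ0.const_add (1 : ℂ)
  filter_upwards [hne, h1τ.eventually_ne one_ne_zero] with n hn hn'
  refine ⟨hn', ?_⟩
  have h2 := (hτ n hn).1
  rw [hev] at h2
  have h3 : ∑ i ∈ A, c n i * (1 + τ n) ^ k i =
      (∑ i ∈ A, c n i * (1 + τ n) ^ e i) * (1 + τ n) ^ M := by
    rw [Finset.sum_mul]
    refine Finset.sum_congr rfl fun i hi => ?_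
    rw [mul_assoc, ← zpow_natCast (1 + τ n) (k i), hki i hi, zpow_add₀ hn', zpow_natCast]
  rw [h3] at h2
  rcases mul_eq_zero.1 h2 with h4 | h4
  · exact h4
  · exact absurd h4 (pow_ne_zero _ hn')

end LDF
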