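import Pool.Agent.LDF.T

/-!
# LDF: target `FIN`, from `MAIN`, `EX`
-/

set_option autoImplicit false

open Filter Topology
open scoped Pointwise

noncomputable section

namespace LDF

theorem FIN_fdim_le {d : ℕ} (Γ : Set (Fin d → ℝ)) : fdim Γ ≤ d := by
  unfold fdim
  have h := Submodule.finrank_le (vectorSpan ℝ Γ)
  rwa [Module.finrank_fin_fun] at h

theorem p_FIN (h_MAIN : T_MAIN) (h_EX : T_EX) : T_FIN := by
  refine ⟨h_MAIN, ?_⟩
  intro d
  constructor
  · intro h
    by_contra hd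
    obtain ⟨N, Γ, hN, hΓ, hf⟩ := h_EX d (by omega)
    have h1 := ((h_MAIN d N Γ hN hΓ).2.2).1 (h N Γ hN hΓ)
    rw [hf] at h1
    omega
  · intro hd N Γ hN hΓ
    refine ((h_MAIN d N Γ hN hΓ).2.2).2 ?_
    have := FIN_fdim_le Γ
    omega

end LDF
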