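import Pool.Agent.LDF.T

/-!
# LDF: a curve through a point (GD)
-/

set_option autoImplicit false

noncomputable section

namespace LDF

theorem p_GD : T_LIN → T_GD := by
  intro hLIN ι _ I hI c hc g hg hgc
  have := hI
  have : IsDomain (MvPolynomial ι ℂ ⧸ I) := Ideal.Quotient.isDomain I
  obtain ⟨n, θ, hinj, hfin⟩ :=
    exists_finite_inj_algHom_of_fg ℂ (MvPolynomial ι ℂ ⧸ I)
  have haev : ∀ F : MvPolynomial ι ℂ, (MvPolynomial.aeval c) F = MvPolynomial.eval c F :=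
    fun F => congrArg (fun φ : MvPolynomial ι ℂ →+* ℂ => φ F) (MvPolynomial.coe_aeval_eq_eval c)
  have hcI : ∀ F : MvPolynomial ι ℂ, F ∈ I → (MvPolynomial.aeval c) F = 0 := fun F hF => by
    rw [haev]
    exact hc F hF
  let ev : (MvPolynomial ι ℂ ⧸ I) →ₐ[ℂ] ℂ :=
    Ideal.Quotient.liftₐ I (MvPolynomial.aeval c) hcI
  have hev : ∀ F : MvPolynomial ι ℂ, ev (Ideal.Quotient.mk I F) = MvPolynomial.eval c F := by
    intro F
    have h1 : ev (Ideal.Quotient.mk I F) = (MvPolynomial.aeval c) F := rfl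
    rw [h1, haev]
  let c' : Fin n → ℂ := fun i => ev (θ (MvPolynomial.X i))
  have hevθ : ∀ F : MvPolynomial (Fin n) ℂ, ev (θ F) = MvPolynomial.eval c' F := by
    intro F
    have h1 : ev.comp θ = MvPolynomial.aeval c' := by
      refine MvPolynomial.algHom_ext fun i => ?_
      simp [c']
    have h2 := congrArg (fun φ : MvPolynomial (Fin n) ℂ →ₐ[ℂ] ℂ => φ F) h1
    simpa [MvPolynomial.coe_aeval_eq_eval] using h2
  letI : Algebra (MvPolynomial (Fin n) ℂ) (MvPolynomial ι ℂ ⧸ I) := θ.toRingHom.toAlgebra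
  have halg : ∀ F : MvPolynomial (Fin n) ℂ,
      algebraMap (MvPolynomial (Fin n) ℂ) (MvPolynomial ι ℂ ⧸ I) F = θ F := fun F => rfl
  have : Module.Finite (MvPolynomial (Fin n) ℂ) (MvPolynomial ι ℂ ⧸ I) := hfin
  have : Algebra.IsIntegral (MvPolynomial (Fin n) ℂ) (MvPolynomial ι ℂ ⧸ I) := inferInstance
  have : FaithfulSMul (MvPolynomial (Fin n) ℂ) (MvPolynomial ι ℂ ⧸ I) :=
    (faithfulSMul_iff_algebraMap_injective _ _).2 hinj
  have hgb : Ideal.Quotient.mk I g ≠ 0 := fun h => hg (Ideal.Quotient.eq_zero_iff_mem.1 h)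
  have hne := Ideal.comap_ne_bot_of_integral_mem (R := MvPolynomial (Fin n) ℂ)
    (I := Ideal.span {Ideal.Quotient.mk I g}) hgb (Ideal.mem_span_singleton_self _)
    (Algebra.IsIntegral.isIntegral _)
  obtain ⟨h, hh, h0⟩ := Submodule.exists_mem_ne_zero_of_ne_bot hne
  have hh' : θ h ∈ Ideal.span {Ideal.Quotient.mk I g} := hh
  have hhc : MvPolynomial.eval c' h = 0 := by
    rw [← hevθ]
    obtain ⟨y, hy⟩ := Ideal.mem_span_singleton'.1 hh'
    rw [← hy, map_mul, hev, hgc, mul_zero]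
  obtain ⟨l, hl, hlh, hl0⟩ := hLIN n h c' h0 hhc
  have hp : (RingHom.ker l).IsPrime := RingHom.ker_isPrime l
  have hqe : (RingHom.ker ev).IsPrime := RingHom.ker_isPrime ev
  have hle : RingHom.ker l ≤ (RingHom.ker ev).under (MvPolynomial (Fin n) ℂ) := by
    intro F hF
    have h1 : l F = 0 := hF
    have h2 : ev (θ F) = 0 := by
      rw [hevθ, ← hl0, h1, Polynomial.eval_zero]
    exact h2
  have : ((RingHom.ker ev).under (MvPolynomial (Fin n) ℂ)).IsPrime := inferInstance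
  have : (RingHom.ker ev).LiesOver ((RingHom.ker ev).under (MvPolynomial (Fin n) ℂ)) := ⟨rfl⟩
  obtain ⟨Q', hQle, hQp, hQo⟩ := Ideal.exists_ideal_le_liesOver_of_le
    (p := RingHom.ker l) (q := (RingHom.ker ev).under (MvPolynomial (Fin n) ℂ))
    (RingHom.ker ev) hle
  have := hQp
  have hQl : ∀ F : MvPolynomial (Fin n) ℂ, θ F ∈ Q' ↔ l F = 0 := by
    intro F
    have h1 := hQo.over
    have h2 : F ∈ RingHom.ker l ↔ θ F ∈ Q' := by
      rw [h1]
      exact Iff.rfl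
    exact h2.symm
  have hgQ : Ideal.Quotient.mk I g ∉ Q' := by
    intro hcon
    refine hlh ((hQl h).1 ?_)
    exact (Ideal.span_singleton_le_iff_mem Q').2 hcon hh'
  let φ : MvPolynomial ι ℂ →ₐ[ℂ] ((MvPolynomial ι ℂ ⧸ I) ⧸ Q') :=
    (Ideal.Quotient.mkₐ ℂ Q').comp (Ideal.Quotient.mkₐ ℂ I)
  have hφ : Function.Surjective φ :=
    (Ideal.Quotient.mkₐ_surjective ℂ Q').comp (Ideal.Quotient.mkₐ_surjective ℂ I)
  have hφ0 : ∀ F : MvPolynomial ι ℂ, F ∈ RingHom.ker φ ↔ Ideal.Quotient.mk I F ∈ Q' := by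
    intro F
    rw [RingHom.mem_ker]
    exact Ideal.Quotient.eq_zero_iff_mem
  let e : (MvPolynomial ι ℂ ⧸ RingHom.ker φ) ≃ₐ[ℂ] ((MvPolynomial ι ℂ ⧸ I) ⧸ Q') :=
    Ideal.quotientKerAlgEquivOfSurjective hφ
  let e2 : (MvPolynomial (Fin n) ℂ ⧸ RingHom.ker l) ≃ₐ[ℂ] Polynomial ℂ :=
    Ideal.quotientKerAlgEquivOfSurjective hl
  have hk0 : ∀ F : MvPolynomial (Fin n) ℂ, F ∈ RingHom.ker l →
      ((Ideal.Quotient.mkₐ ℂ Q').comp θ) F = 0 := by
    intro F hF
    exact Ideal.Quotient.eq_zero_iff_mem.2 ((hQl F).2 hF)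
  let k : (MvPolynomial (Fin n) ℂ ⧸ RingHom.ker l) →ₐ[ℂ] ((MvPolynomial ι ℂ ⧸ I) ⧸ Q') :=
    Ideal.Quotient.liftₐ (RingHom.ker l) ((Ideal.Quotient.mkₐ ℂ Q').comp θ) hk0
  have hkinj : Function.Injective k := by
    rw [injective_iff_map_eq_zero]
    intro x hx
    obtain ⟨F, rfl⟩ := Ideal.Quotient.mk_surjective x
    have h1 : (Ideal.Quotient.mk Q') (θ F) = 0 := hx
    exact Ideal.Quotient.eq_zero_iff_mem.2 ((hQl F).1 (Ideal.Quotient.eq_zero_iff_mem.1 h1))
  have hkfin : k.toRingHom.Finite := by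
    have h1 : (k.toRingHom.comp (Ideal.Quotient.mk (RingHom.ker l))).Finite := by
      have h2 : k.toRingHom.comp (Ideal.Quotient.mk (RingHom.ker l)) =
          (Ideal.Quotient.mk Q').comp θ.toRingHom := rfl
      rw [h2]
      exact (RingHom.Finite.of_surjective _ Ideal.Quotient.mk_surjective).comp hfin
    exact RingHom.Finite.of_comp_finite h1
  refine ⟨RingHom.ker φ, RingHom.ker_isPrime φ, ?_, ?_, ?_,
    (e.symm.toAlgHom.comp k).comp e2.symm.toAlgHom, ?_, ?_⟩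
  · intro F hF
    rw [hφ0, Ideal.Quotient.eq_zero_iff_mem.2 hF]
    exact Q'.zero_mem
  · intro F hF
    rw [← hev]
    exact hQle ((hφ0 F).1 hF)
  · intro hcon
    exact hgQ ((hφ0 g).1 hcon)
  · exact (e.symm.injective.comp hkinj).comp e2.symm.injective
  · have h1 : ((e.symm.toAlgHom.comp k).comp e2.symm.toAlgHom).toRingHom =
        (e.symm.toAlgHom.toRingHom.comp k.toRingHom).comp e2.symm.toAlgHom.toRingHom := rfl
    rw [h1]
    exact ((RingHom.Finite.of_surjective _ e.symm.surjective).comp hkfin).comp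
      (RingHom.Finite.of_surjective _ e2.symm.surjective)

end LDF
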