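import Pool.Agent.LDF.T

/-!
# LDF: faces and vertices
-/

set_option autoImplicit false

open Filter Topology
open scoped Pointwise

noncomputable section

namespace LDF

namespace GEO_

theorem toR_sub {d : ℕ} (p q : Fin d → ℤ) : toR (p - q) = toR p - toR q := by
  ext j
  simp [toR]

theorem mem_conv {d : ℕ} {V : Finset (Fin d → ℤ)} {p : Fin d → ℤ} (hp : p ∈ V) :
    toR p ∈ conv V :=
  subset_convexHull ℝ _ ⟨p, hp, rfl⟩

theorem exists_weights {d : ℕ} {V : Finset (Fin d → ℤ)} {x : Fin d → ℝ} (hx : x ∈ conv V) :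
    ∃ (s : Finset (Fin d → ℝ)) (w : (Fin d → ℝ) → ℝ), (∀ y ∈ s, ∃ p ∈ V, y = toR p) ∧
      (∀ y ∈ s, 0 ≤ w y) ∧ ∑ y ∈ s, w y = 1 ∧ x = ∑ y ∈ s, w y • y := by
  classical
  have h1 : x ∈ convexHull ℝ ((V.image toR : Finset (Fin d → ℝ)) : Set (Fin d → ℝ)) := by
    rw [Finset.coe_image]
    exact hx
  rw [Finset.convexHull_eq] at h1
  obtain ⟨w, hw, h2, h3⟩ := h1
  refine ⟨V.image toR, w, ?_, hw, h2, ?_⟩
  · intro y hy
    obtain ⟨p, hp, rfl⟩ := Finset.mem_image.1 hy
    exact ⟨p, hp, rfl⟩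
  · rw [← h3, Finset.centerMass_eq_of_sum_1 _ _ h2]
    rfl

/-- two functionals with the same zeros on the vertices -/
theorem two {d : ℕ} {V : Finset (Fin d → ℤ)} (f g : (Fin d → ℝ) →ₗ[ℝ] ℝ) (α β : ℝ)
    (hf : ∀ p ∈ V, 0 ≤ f (toR p) - α) (hg : ∀ p ∈ V, 0 ≤ g (toR p) - β)
    (hfg : ∀ p ∈ V, f (toR p) - α = 0 ↔ g (toR p) - β = 0) {x : Fin d → ℝ} (hx : x ∈ conv V) :
    0 ≤ f x - α ∧ (f x - α = 0 ↔ g x - β = 0) := by
  obtain ⟨s, w, hs, hw, h1, h2⟩ := exists_weights hx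
  have key : ∀ (h : (Fin d → ℝ) →ₗ[ℝ] ℝ) (γ : ℝ), h x - γ = ∑ y ∈ s, w y * (h y - γ) := by
    intro h γ
    rw [h2, map_sum]
    simp only [map_smul, smul_eq_mul, mul_sub, Finset.sum_sub_distrib]
    rw [← Finset.sum_mul, h1, one_mul]
  have pf : ∀ y ∈ s, 0 ≤ w y * (f y - α) := by
    intro y hy
    obtain ⟨p, hp, rfl⟩ := hs y hy
    exact mul_nonneg (hw _ hy) (hf p hp)
  have pg : ∀ y ∈ s, 0 ≤ w y * (g y - β) := by
    intro y hy
    obtain ⟨p, hp, rfl⟩ := hs y hy
    exact mul_nonneg (hw _ hy) (hg p hp)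
  rw [key f α, key g β]
  refine ⟨Finset.sum_nonneg pf, ?_⟩
  rw [Finset.sum_eq_zero_iff_of_nonneg pf, Finset.sum_eq_zero_iff_of_nonneg pg]
  refine forall₂_congr fun y hy => ?_
  obtain ⟨p, hp, rfl⟩ := hs y hy
  rw [mul_eq_zero, mul_eq_zero, hfg p hp]

/-- the functional of an integer vector -/
def fun_ {d : ℕ} (a : Fin d → ℤ) : (Fin d → ℝ) →ₗ[ℝ] ℝ where
  toFun x := ∑ j, (a j : ℝ) * x j
  map_add' x y := by
    simp only [Pi.add_apply, mul_add, Finset.sum_add_distrib]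
  map_smul' c x := by
    simp only [Pi.smul_apply, smul_eq_mul, RingHom.id_apply, Finset.mul_sum]
    exact Finset.sum_congr rfl fun j _ => by ring

theorem fun_apply {d : ℕ} (a : Fin d → ℤ) (x : Fin d → ℝ) :
    fun_ a x = ∑ j, (a j : ℝ) * x j := rfl

theorem fun_toR {d : ℕ} (a p q : Fin d → ℤ) :
    fun_ a (toR p) - fun_ a (toR q) = ((∑ j, a j * (p - q) j : ℤ) : ℝ) := by
  rw [← map_sub, ← toR_sub, fun_apply]
  push_cast
  rfl

end GEO_

open GEO_ in
theorem p_GEO : T_GEO := by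
  intro d V Γ hF
  obtain ⟨hne, hexp⟩ := hF
  obtain ⟨l, hl⟩ := hexp hne
  obtain ⟨x0, hx0⟩ := hne
  have hx0' := hx0
  rw [hl] at hx0'
  obtain ⟨hx0c, hx0m⟩ := hx0'
  have hmem : ∀ x, x ∈ Γ ↔ x ∈ conv V ∧ l x = l x0 := by
    intro x
    constructor
    · intro hx
      rw [hl] at hx
      exact ⟨hx.1, le_antisymm (hx0m x hx.1) (hx.2 x0 hx0c)⟩
    · rintro ⟨h1, h2⟩
      rw [hl]
      exact ⟨h1, fun y hy => h2 ▸ hx0m y hy⟩
  have h1 : ∃ v ∈ V, toR v ∈ Γ := by
    by_contra hcon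
    push Not at hcon
    have hsub : conv V ⊆ {x | l x < l x0} := by
      refine convexHull_min ?_ (convex_halfSpace_lt l.toLinearMap.isLinear _)
      rintro _ ⟨v, hv, rfl⟩
      refine lt_of_le_of_ne (hx0m _ (mem_conv hv)) fun h => ?_
      exact hcon v hv ((hmem _).2 ⟨mem_conv hv, h⟩)
    exact lt_irrefl (l x0) (hsub hx0c)
  refine ⟨h1, ?_, ?_⟩
  · intro p hp q hq hqΓ
    constructor
    · intro h
      have hker : vectorSpan ℝ Γ ≤ LinearMap.ker l.toLinearMap := by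
        rw [vectorSpan, Submodule.span_le]
        rintro _ ⟨a, ha, b, hb, rfl⟩
        have := ((hmem a).1 ha).2.trans ((hmem b).1 hb).2.symm
        simp only [vsub_eq_sub, SetLike.mem_coe, LinearMap.mem_ker, map_sub]
        exact sub_eq_zero.2 this
      have h2 := hker h
      rw [toR_sub, LinearMap.mem_ker, map_sub, sub_eq_zero] at h2
      exact (hmem _).2 ⟨mem_conv hp, h2.trans ((hmem _).1 hqΓ).2⟩
    · intro h
      rw [toR_sub]
      exact vsub_mem_vectorSpan ℝ h hqΓ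
  · intro a ha
    obtain ⟨q, hq, hqΓ⟩ := h1
    have key : ∀ x ∈ conv V, 0 ≤ fun_ a x - fun_ a (toR q) ∧
        (fun_ a x - fun_ a (toR q) = 0 ↔ x ∈ Γ) := by
      intro x hx
      have h3 := two (V := V) (fun_ a) (-l.toLinearMap) (fun_ a (toR q)) (-(l x0)) ?_ ?_ ?_ hx
      · refine ⟨h3.1, h3.2.trans ?_⟩
        rw [hmem]
        simp only [LinearMap.neg_apply, ContinuousLinearMap.coe_coe]
        constructor
        · intro h
          exact ⟨hx, by linarith⟩
        · rintro ⟨-, h⟩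
          linarith
      · intro p hp
        rw [fun_toR]
        exact_mod_cast (ha p hp q hq hqΓ).1
      · intro p hp
        have := hx0m _ (mem_conv hp)
        simp only [LinearMap.neg_apply, ContinuousLinearMap.coe_coe]
        linarith
      · intro p hp
        rw [fun_toR, Int.cast_eq_zero, (ha p hp q hq hqΓ).2, hmem]
        simp only [LinearMap.neg_apply, ContinuousLinearMap.coe_coe]
        constructor
        · rintro ⟨-, h⟩
          linarith
        · intro h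
          exact ⟨mem_conv hp, by linarith⟩
    unfold Exposes
    ext x
    constructor
    · intro hx
      have hxc := ((hmem x).1 hx).1
      refine ⟨hxc, fun y hy => ?_⟩
      have h4 := (key x hxc).2.2 hx
      have h5 := (key y hy).1
      rw [← fun_apply, ← fun_apply]
      linarith
    · rintro ⟨hx, hmin⟩
      have h4 := hmin _ (mem_conv hq)
      rw [← fun_apply, ← fun_apply] at h4
      have h5 := (key x hx).1
      exact (key x hx).2.1 (by linarith)

end LDF
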