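import Pool.Agent.LDF.T

/-!
# LDF: INT, a face is exposed by an integer vector (helper13)
-/

set_option autoImplicit false

open Filter Topology
open scoped Pointwise

noncomputable section

namespace LDF

/-- finitely many positive elements of a finite dimensional rational space of reals are positive
for some rational functional -/
theorem INT_func (S : Submodule ℚ ℝ) [FiniteDimensional ℚ S] (A : Finset S)
    (hA : ∀ s ∈ A, (0 : ℝ) < s) : ∃ g : S →ₗ[ℚ] ℚ, ∀ s ∈ A, 0 < g s := by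
  classical
  let B := Module.finBasis ℚ S
  have hcont : ∀ s : S, Continuous fun t : Fin (Module.finrank ℚ S) → ℝ =>
      ∑ i, ((B.repr s i : ℚ) : ℝ) * t i := fun s => by fun_prop
  let O : Set (Fin (Module.finrank ℚ S) → ℝ) :=
    ⋂ s ∈ A, {t | 0 < ∑ i, ((B.repr s i : ℚ) : ℝ) * t i}
  have hO : IsOpen O := isOpen_biInter_finset fun s _ => isOpen_lt continuous_const (hcont s)
  have hval : ∀ s : S, ∑ i, ((B.repr s i : ℚ) : ℝ) * ((B i : S) : ℝ) = (s : ℝ) := by
    intro s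
    have h1 := B.sum_repr s
    have h2 := congrArg (fun x : S => (x : ℝ)) h1
    simp only [Submodule.coe_sum, Submodule.coe_smul] at h2
    rw [← h2]
    refine Finset.sum_congr rfl fun i _ => ?_
    rw [Rat.smul_def]
  have hne : (fun i => ((B i : S) : ℝ)) ∈ O := by
    simp only [O, Set.mem_iInter, Set.mem_setOf_eq]
    intro s hs
    rw [hval s]
    exact hA s hs
  have hd : DenseRange (Pi.map fun _ : Fin (Module.finrank ℚ S) => ((↑) : ℚ → ℝ)) :=
    DenseRange.piMap fun _ => Rat.denseRange_cast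
  obtain ⟨t, ht⟩ := hd.exists_mem_open hO ⟨_, hne⟩
  refine ⟨B.constr ℚ t, fun s hs => ?_⟩
  have h1 : (0 : ℝ) < ∑ i, ((B.repr s i : ℚ) : ℝ) * ((t i : ℚ) : ℝ) := by
    simp only [O, Set.mem_iInter, Set.mem_setOf_eq] at ht
    exact ht s hs
  have h2 : B.constr ℚ t s = ∑ i, B.repr s i * t i := by
    rw [Module.Basis.constr_apply_fintype]
    refine Finset.sum_congr rfl fun i _ => ?_
    rw [Module.Basis.equivFun_apply, smul_eq_mul]
  rw [h2]
  exact_mod_cast h1

theorem p_INT (h_GEO : T_GEO) : T_INT := by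
  classical
  rintro d N Γ ⟨⟨V, rfl⟩, -⟩ hΓ
  obtain ⟨hG1, -, hG3⟩ := h_GEO d V Γ hΓ
  obtain ⟨l, hl⟩ := hΓ.2 hΓ.1
  have hV : ∀ v ∈ V, toR v ∈ conv V := fun v hv => subset_convexHull ℝ _ ⟨v, hv, rfl⟩
  -- the real exposing vector
  set b : Fin d → ℝ := fun j => - l (Pi.single j 1) with hb
  have hlx : ∀ x : Fin d → ℝ, l x = - ∑ j, b j * x j := by
    intro x
    conv_lhs => rw [pi_eq_sum_univ' x]
    rw [map_sum, ← Finset.sum_neg_distrib]
    refine Finset.sum_congr rfl fun j _ => ?_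
    rw [map_smul, smul_eq_mul]
    simp only [hb]
    ring
  have hpq : ∀ p ∈ V, ∀ q ∈ V, toR q ∈ Γ →
      0 ≤ ∑ j, b j * ((p - q) j : ℝ) ∧ (∑ j, b j * ((p - q) j : ℝ) = 0 ↔ toR p ∈ Γ) := by
    intro p hp q hq hqΓ
    have e1 : ∑ j, b j * ((p - q) j : ℝ) = l (toR q) - l (toR p) := by
      rw [hlx, hlx]
      rw [sub_neg_eq_add, neg_add_eq_sub, ← Finset.sum_sub_distrib]
      refine Finset.sum_congr rfl fun j _ => ?_
      simp only [toR, Pi.sub_apply, Int.cast_sub]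
      ring
    have hq' : toR q ∈ conv V ∧ ∀ y ∈ conv V, l y ≤ l (toR q) := by
      rw [hl] at hqΓ
      exact hqΓ
    rw [e1]
    refine ⟨sub_nonneg.2 (hq'.2 _ (hV p hp)), ⟨fun h => ?_, fun h => ?_⟩⟩
    · rw [hl]
      refine ⟨hV p hp, fun y hy => ?_⟩
      rw [← sub_eq_zero.1 h]
      exact hq'.2 y hy
    · rw [hl] at h
      exact sub_eq_zero.2 (le_antisymm (h.2 _ hq'.1) (hq'.2 _ h.1))
  -- the rational space
  let S : Submodule ℚ ℝ := Submodule.span ℚ (Set.range b)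
  have : FiniteDimensional ℚ S := FiniteDimensional.span_of_finite ℚ (Set.finite_range b)
  let bS : Fin d → S := fun j => ⟨b j, Submodule.subset_span ⟨j, rfl⟩⟩
  let φ : (Fin d → ℤ) → S := fun u => ∑ j, (u j) • bS j
  have hφ : ∀ u, ((φ u : S) : ℝ) = ∑ j, b j * (u j : ℝ) := by
    intro u
    simp only [φ, Submodule.coe_sum]
    refine Finset.sum_congr rfl fun j _ => ?_
    rw [Submodule.coe_smul_of_tower, zsmul_eq_mul, mul_comm]
  obtain ⟨g, hg⟩ := INT_func S (((V ×ˢ V).filter fun x => toR x.2 ∈ Γ ∧ ¬ toR x.1 ∈ Γ).image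
    fun x => φ (x.1 - x.2)) (by
      intro s hs
      obtain ⟨x, hx, rfl⟩ := Finset.mem_image.1 hs
      rw [Finset.mem_filter, Finset.mem_product] at hx
      obtain ⟨⟨h1, h2⟩, h3, h4⟩ := hx
      have := hpq x.1 h1 x.2 h2 h3
      rw [hφ]
      exact lt_of_le_of_ne this.1 fun h => h4 (this.2.1 h.symm))
  have hgφ : ∀ u, g (φ u) = ∑ j, g (bS j) * (u j : ℚ) := by
    intro u
    simp only [φ, map_sum]
    refine Finset.sum_congr rfl fun j _ => ?_
    rw [map_zsmul, zsmul_eq_mul, mul_comm]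
  -- common denominator
  set D : ℕ := ∏ j, (g (bS j)).den with hD
  have hDpos : 0 < D := Finset.prod_pos fun j _ => (g (bS j)).den_pos
  have hint : ∀ j, ∃ a : ℤ, (a : ℚ) = D * g (bS j) := by
    intro j
    obtain ⟨c, hc⟩ : (g (bS j)).den ∣ D := Finset.dvd_prod_of_mem _ (Finset.mem_univ j)
    refine ⟨c * (g (bS j)).num, ?_⟩
    rw [hc]
    push_cast
    rw [← Rat.mul_den_eq_num (g (bS j))]
    ring
  choose a ha using hint
  have hval : ∀ u : Fin d → ℤ, ((∑ j, a j * u j : ℤ) : ℚ) = D * g (φ u) := by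
    intro u
    rw [hgφ, Finset.mul_sum]
    push_cast
    refine Finset.sum_congr rfl fun j _ => ?_
    rw [ha j]
    ring
  have hDq : (0 : ℚ) < D := by exact_mod_cast hDpos
  refine ⟨a, hG3 a fun p hp q hq hqΓ => ?_⟩
  have hcase := hpq p hp q hq hqΓ
  by_cases hpΓ : toR p ∈ Γ
  · have h0 : φ (p - q) = 0 := by
      apply Subtype.ext
      rw [hφ, hcase.2.2 hpΓ]
      rfl
    have h1 := hval (p - q)
    rw [h0, map_zero, mul_zero] at h1
    have h2 : ∑ j, a j * (p - q) j = 0 := by exact_mod_cast h1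
    rw [h2]
    exact ⟨le_rfl, ⟨fun _ => hpΓ, fun _ => rfl⟩⟩
  · have h1 : 0 < g (φ (p - q)) := hg _ (Finset.mem_image.2 ⟨(p, q), Finset.mem_filter.2
      ⟨Finset.mem_product.2 ⟨hp, hq⟩, hqΓ, hpΓ⟩, rfl⟩)
    have h2 := hval (p - q)
    have h3 : (0 : ℚ) < ((∑ j, a j * (p - q) j : ℤ) : ℚ) := by
      rw [h2]
      exact mul_pos hDq h1
    have h4 : 0 < ∑ j, a j * (p - q) j := by exact_mod_cast h3
    exact ⟨h4.le, ⟨fun h => absurd h h4.ne', fun h => absurd h hpΓ⟩⟩

end LDF
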