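import Pool.Agent.LDF.T

/-! LDF target LAT: lattice points for the construction. -/

set_option autoImplicit false

open Filter Topology
open scoped Pointwise

noncomputable section

namespace LDF

namespace LAT_

/-- the height -/
def ht {d : ℕ} (a m : Fin d → ℤ) : ℤ := ∑ j, a j * m j

theorem ht_add {d : ℕ} (a x y : Fin d → ℤ) : ht a (x + y) = ht a x + ht a y := by
  simp only [ht, Pi.add_apply, mul_add, Finset.sum_add_distrib]

theorem ht_smul {d : ℕ} (a x : Fin d → ℤ) (k : ℤ) : ht a (k • x) = k * ht a x := by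
  simp only [ht, Pi.smul_apply, smul_eq_mul, Finset.mul_sum]
  exact Finset.sum_congr rfl fun j _ => by ring

theorem ht_real {d : ℕ} (a m : Fin d → ℤ) : ∑ j, (a j : ℝ) * toR m j = ((ht a m : ℤ) : ℝ) := by
  unfold ht toR
  push_cast
  rfl

theorem mem_conv {d : ℕ} {V : Finset (Fin d → ℤ)} {v : Fin d → ℤ} (h : v ∈ V) :
    toR v ∈ conv V := subset_convexHull ℝ _ ⟨v, h, rfl⟩

theorem min_of {d : ℕ} {V : Finset (Fin d → ℤ)} {Γ : Set (Fin d → ℝ)} {a : Fin d → ℤ}
    (hexp : Exposes a (conv V) Γ) {p v : Fin d → ℤ} (hp : toR p ∈ Γ) (hv : v ∈ V) :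
    ht a p ≤ ht a v := by
  have h := hexp
  unfold Exposes at h
  rw [h] at hp
  have h1 := hp.2 _ (mem_conv hv)
  rw [ht_real, ht_real] at h1
  exact_mod_cast h1

theorem mem_of {d : ℕ} {V : Finset (Fin d → ℤ)} {Γ : Set (Fin d → ℝ)} {a : Fin d → ℤ}
    (hexp : Exposes a (conv V) Γ) {p v : Fin d → ℤ} (hp : toR p ∈ Γ) (hv : v ∈ V)
    (he : ht a v = ht a p) : toR v ∈ Γ := by
  have h := hexp
  unfold Exposes at h
  rw [h] at hp ⊢
  refine ⟨mem_conv hv, fun y hy => ?_⟩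
  have h1 := hp.2 y hy
  rw [ht_real] at h1 ⊢
  rw [he]
  exact h1

theorem tri_mem {d : ℕ} {V : Finset (Fin d → ℤ)} {p v w : Fin d → ℤ} (hp : p ∈ V) (hv : v ∈ V)
    (hw : w ∈ V) (x y z k : ℕ) (h : x + y + z = k) :
    toR ((x : ℤ) • p + (y : ℤ) • v + (z : ℤ) • w) ∈ (k : ℝ) • conv V := by
  have hc : Convex ℝ (conv V) := convex_convexHull ℝ _
  have h1 : ((k : ℕ) : ℝ) = (x : ℝ) + (y : ℝ) + (z : ℝ) := by rw [← h]; push_cast; ring
  rw [h1, hc.add_smul (by positivity) (by positivity),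
    hc.add_smul (by positivity) (by positivity)]
  have h2 : toR ((x : ℤ) • p + (y : ℤ) • v + (z : ℤ) • w) =
      (x : ℝ) • toR p + (y : ℝ) • toR v + (z : ℝ) • toR w := by
    funext j
    simp [toR]
  rw [h2]
  exact Set.add_mem_add (Set.add_mem_add (Set.smul_mem_smul_set (mem_conv hp))
    (Set.smul_mem_smul_set (mem_conv hv))) (Set.smul_mem_smul_set (mem_conv hw))

theorem span_real {d : ℕ} {V : Finset (Fin d → ℤ)} (hint : (interior (conv V)).Nonempty)
    {p : Fin d → ℤ} (hp : p ∈ V) (y : Fin d → ℝ) :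
    ∃ c : (Fin d → ℤ) → ℝ, ∀ j, y j = ∑ v ∈ V, c v * ((v j : ℝ) - p j) := by
  have h1 : affineSpan ℝ (toR '' (V : Set (Fin d → ℤ))) = ⊤ :=
    interior_convexHull_nonempty_iff_affineSpan_eq_top.1 hint
  have h2 : vectorSpan ℝ (toR '' (V : Set (Fin d → ℤ))) = ⊤ := by
    rw [← direction_affineSpan, h1, AffineSubspace.direction_top]
  have hp' : toR p ∈ toR '' (V : Set (Fin d → ℤ)) := ⟨p, hp, rfl⟩
  rw [vectorSpan_eq_span_vsub_set_right ℝ hp', Set.image_image] at h2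
  have h3 : y ∈ Submodule.span ℝ ((fun v => toR v -ᵥ toR p) '' (V : Set (Fin d → ℤ))) := by
    rw [h2]
    exact Submodule.mem_top
  obtain ⟨c, hc⟩ := (Submodule.mem_span_image_finset_iff_exists_fun' ℝ).1 h3
  refine ⟨c, fun j => ?_⟩
  rw [← hc, Finset.sum_apply]
  rfl

theorem span_complex {d : ℕ} {V : Finset (Fin d → ℤ)} (hint : (interior (conv V)).Nonempty)
    {p : Fin d → ℤ} (hp : p ∈ V) (x : Fin d → ℂ) :
    ∃ c : (Fin d → ℤ) → ℂ, ∀ j, x j = ∑ v ∈ V, c v * ((v j : ℂ) - p j) := by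
  obtain ⟨c1, h1⟩ := span_real hint hp (fun j => (x j).re)
  obtain ⟨c2, h2⟩ := span_real hint hp (fun j => (x j).im)
  refine ⟨fun v => (c1 v : ℂ) + (c2 v : ℂ) * Complex.I, fun j => ?_⟩
  have e1 : (x j).re = ∑ v ∈ V, c1 v * ((v j : ℝ) - p j) := h1 j
  have e2 : (x j).im = ∑ v ∈ V, c2 v * ((v j : ℝ) - p j) := h2 j
  have e : x j = ((x j).re : ℂ) + ((x j).im : ℂ) * Complex.I := (Complex.re_add_im _).symm
  rw [e, e1, e2]
  push_cast
  rw [Finset.sum_mul, ← Finset.sum_add_distrib]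
  exact Finset.sum_congr rfl fun v _ => by ring

theorem sum_single_sub {d : ℕ} (V : Finset (Fin d → ℤ)) (c : (Fin d → ℤ) → ℂ)
    (m : (Fin d → ℤ) → Fin d → ℤ) (m₀ : Fin d → ℤ) (F : (Fin d → ℤ) → ℂ) :
    ((∑ v ∈ V, (Finsupp.single (m v) (c v) - Finsupp.single m₀ (c v)) : Lau d).sum
      fun n x => x * F n) = ∑ v ∈ V, c v * (F (m v) - F m₀) := by
  have h1 : ∀ g : Lau d, (g.sum fun n x => x * F n) = Finsupp.linearCombination ℂ F g :=
    fun g => by
      rw [Finsupp.linearCombination_apply]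
      rfl
  rw [h1, map_sum]
  refine Finset.sum_congr rfl fun v _ => ?_
  rw [map_sub, Finsupp.linearCombination_single, Finsupp.linearCombination_single, smul_eq_mul,
    smul_eq_mul]
  ring

theorem supp_of {d : ℕ} (V : Finset (Fin d → ℤ)) (c : (Fin d → ℤ) → ℂ)
    (m : (Fin d → ℤ) → Fin d → ℤ) {v₀ : Fin d → ℤ} (hv₀ : v₀ ∈ V) {n : Fin d → ℤ}
    (hn : n ∈ (∑ v ∈ V, (Finsupp.single (m v) (c v) - Finsupp.single (m v₀) (c v)) :
      Lau d).support) : ∃ v ∈ V, n = m v := by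
  classical
  by_contra hcon
  push Not at hcon
  rw [Finsupp.mem_support_iff] at hn
  refine hn ?_
  rw [Finsupp.finsetSum_apply]
  refine Finset.sum_eq_zero fun v hv => ?_
  rw [Finsupp.sub_apply, Finsupp.single_eq_of_ne (hcon v hv),
    Finsupp.single_eq_of_ne (hcon v₀ hv₀), sub_zero]

end LAT_

open LAT_ in
theorem p_LAT (hG : T_GEO) : T_LAT := by
  classical
  intro d V Γ a hint hface hexp hout r hr
  obtain ⟨p, hpV, hpΓ⟩ := (hG d V Γ hface).1
  obtain ⟨v₀, hv₀, hv₀Γ⟩ := hout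
  -- heights
  obtain ⟨h, hh⟩ : ∃ h : (Fin d → ℤ) → ℕ, ∀ v ∈ V, ht a v = ht a p + h v :=
    ⟨fun v => (ht a v - ht a p).toNat, fun v hv => by
      have h1 := min_of hexp hpΓ hv
      rw [Int.toNat_of_nonneg (by omega)]
      omega⟩
  have hpos : ∀ v ∈ V, toR v ∉ Γ → 0 < h v := by
    intro v hv hvΓ
    rcases Nat.eq_zero_or_pos (h v) with h1 | h1
    · exact absurd (mem_of hexp hpΓ hv (by rw [hh v hv, h1]; simp)) hvΓ
    · exact h1
  have hh0 := hpos v₀ hv₀ hv₀Γ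
  obtain ⟨L, hL0, hLd⟩ : ∃ L : ℕ, 0 < L ∧ ∀ v ∈ V, 0 < h v → h v ∣ L := by
    refine ⟨∏ v ∈ V.filter (fun v => 0 < h v), h v, ?_, ?_⟩
    · exact Finset.prod_pos fun v hv => (Finset.mem_filter.1 hv).2
    · intro v hv h1
      exact Finset.dvd_prod_of_mem _ (Finset.mem_filter.2 ⟨hv, h1⟩)
  obtain ⟨k, hk⟩ : ∃ k : ℕ, k = L + 3 := ⟨_, rfl⟩
  -- the points
  obtain ⟨q, hq⟩ : ∃ q : (Fin d → ℤ) → ℕ, ∀ v ∈ V, 0 < h v → q v * h v = L :=
    ⟨fun v => L / h v, fun v hv h1 => Nat.div_mul_cancel (hLd v hv h1)⟩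
  have hqL : ∀ v ∈ V, 0 < h v → q v ≤ L := by
    intro v hv h1
    rw [← hq v hv h1]
    exact Nat.le_mul_of_pos_right _ h1
  obtain ⟨m, hm1, hm2⟩ : ∃ m : (Fin d → ℤ) → Fin d → ℤ,
      (∀ v, 0 < h v → m v = ((k - q v : ℕ) : ℤ) • p + (q v : ℤ) • v + ((0 : ℕ) : ℤ) • v) ∧
      (∀ v, h v = 0 → m v =
        ((k - q v₀ - 1 : ℕ) : ℤ) • p + (q v₀ : ℤ) • v₀ + ((1 : ℕ) : ℤ) • v) :=
    ⟨fun v => if 0 < h v then
        ((k - q v : ℕ) : ℤ) • p + (q v : ℤ) • v + ((0 : ℕ) : ℤ) • v else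
        ((k - q v₀ - 1 : ℕ) : ℤ) • p + (q v₀ : ℤ) • v₀ + ((1 : ℕ) : ℤ) • v,
      fun v h1 => if_pos h1, fun v h1 => if_neg (by omega)⟩
  have hq0L := hqL v₀ hv₀ hh0
  have hmem : ∀ v ∈ V, toR (m v) ∈ (k : ℝ) • conv V := by
    intro v hv
    rcases Nat.eq_zero_or_pos (h v) with h1 | h1
    · rw [hm2 v h1]
      exact tri_mem hpV hv₀ hv _ _ _ _ (by omega)
    · rw [hm1 v h1]
      have := hqL v hv h1
      exact tri_mem hpV hv hv _ _ _ _ (by omega)
  have hht : ∀ v ∈ V, ht a (m v) = k * ht a p + L := by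
    intro v hv
    rcases Nat.eq_zero_or_pos (h v) with h1 | h1
    · rw [hm2 v h1, ht_add, ht_add, ht_smul, ht_smul, ht_smul, hh v₀ hv₀, hh v hv, h1]
      have e1 : ((k - q v₀ - 1 : ℕ) : ℤ) = k - q v₀ - 1 := by omega
      have e2 : ((q v₀ : ℕ) : ℤ) * h v₀ = L := by exact_mod_cast hq v₀ hv₀ hh0
      rw [e1]
      push_cast
      linear_combination e2
    · rw [hm1 v h1, ht_add, ht_add, ht_smul, ht_smul, ht_smul, hh v hv]
      have := hqL v hv h1
      have e1 : ((k - q v : ℕ) : ℤ) = k - q v := by omega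
      have e2 : ((q v : ℕ) : ℤ) * h v = L := by exact_mod_cast hq v hv h1
      rw [e1]
      push_cast
      linear_combination e2
  -- the coefficients
  obtain ⟨c, hc⟩ := span_complex hint hpV r
  have hLc : (L : ℂ) ≠ 0 := by exact_mod_cast hL0.ne'
  have hsum : ∑ v ∈ V, c v * (h v : ℂ) = 0 := by
    have e1 : ∀ v ∈ V, c v * (h v : ℂ) = ∑ j, (a j : ℂ) * (c v * ((v j : ℂ) - p j)) := by
      intro v hv
      have e2 : (h v : ℂ) = ((ht a v - ht a p : ℤ) : ℂ) := by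
        rw [hh v hv]
        push_cast
        ring
      rw [e2]
      unfold ht
      push_cast
      rw [← Finset.sum_sub_distrib, Finset.mul_sum]
      exact Finset.sum_congr rfl fun j _ => by ring
    rw [Finset.sum_congr rfl e1, Finset.sum_comm, ← hr]
    refine Finset.sum_congr rfl fun j _ => ?_
    rw [hc j, Finset.mul_sum]
  obtain ⟨c', hc1, hc2⟩ : ∃ c' : (Fin d → ℤ) → ℂ,
      (∀ v, 0 < h v → c' v = c v * (h v : ℂ) / L) ∧ (∀ v, h v = 0 → c' v = c v) :=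
    ⟨fun v => if 0 < h v then c v * (h v : ℂ) / L else c v, fun v h1 => if_pos h1,
      fun v h1 => if_neg (by omega)⟩
  have hkey : ∀ v ∈ V, ∀ j, c' v * ((m v j : ℂ) - (m v₀ j : ℂ)) =
      c v * ((v j : ℂ) - p j) + c v * (h v : ℂ) * (((k : ℂ) * p j - m v₀ j) / L) := by
    intro v hv j
    have e0 : (m v₀ j : ℂ) = ((k : ℂ) - q v₀) * p j + q v₀ * v₀ j := by
      rw [hm1 v₀ hh0]
      simp only [Pi.add_apply, Pi.smul_apply, smul_eq_mul, Nat.cast_zero, zero_mul, add_zero]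
      have e1 : ((k - q v₀ : ℕ) : ℤ) = k - q v₀ := by omega
      rw [e1]
      push_cast
      ring
    rcases Nat.eq_zero_or_pos (h v) with h1 | h1
    · have e2 : (m v j : ℂ) = ((k : ℂ) - q v₀ - 1) * p j + q v₀ * v₀ j + v j := by
        rw [hm2 v h1]
        simp only [Pi.add_apply, Pi.smul_apply, smul_eq_mul, Nat.cast_one, one_mul]
        have e1 : ((k - q v₀ - 1 : ℕ) : ℤ) = k - q v₀ - 1 := by omega
        rw [e1]
        push_cast
        ring
      rw [hc2 v h1, e2, e0, h1]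
      push_cast
      ring
    · have e2 : (m v j : ℂ) = ((k : ℂ) - q v) * p j + q v * v j := by
        rw [hm1 v h1]
        have := hqL v hv h1
        simp only [Pi.add_apply, Pi.smul_apply, smul_eq_mul, Nat.cast_zero, zero_mul, add_zero]
        have e1 : ((k - q v : ℕ) : ℤ) = k - q v := by omega
        rw [e1]
        push_cast
        ring
      have e3 : (q v : ℂ) * (h v : ℂ) = L := by exact_mod_cast hq v hv h1
      rw [hc1 v h1, e2]
      field_simp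
      linear_combination c v * ((v j : ℂ) - p j) * e3
  refine ⟨k, L, ∑ v ∈ V, (Finsupp.single (m v) (c' v) - Finsupp.single (m v₀) (c' v)),
    by omega, hL0, by omega, ?_, ?_, ?_, ?_, ?_⟩
  · intro n hn
    obtain ⟨v, hv, rfl⟩ := supp_of V c' m hv₀ hn
    exact hmem v hv
  · intro n hn p' hp' hp'Γ
    obtain ⟨v, hv, rfl⟩ := supp_of V c' m hv₀ hn
    have e1 : ht a p' = ht a p := le_antisymm (min_of hexp hp'Γ hpV) (min_of hexp hpΓ hp')
    show ht a (m v) = k * ht a p' + L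
    rw [e1]
    exact hht v hv
  · intro n hn w hw hnw
    obtain ⟨v, hv, rfl⟩ := supp_of V c' m hv₀ hn
    have e1 := hht v hv
    rw [hnw, ht_smul, hh w hw] at e1
    have e2 : (k : ℤ) * h w = L := by linear_combination e1
    have e3 : k * h w = L := by exact_mod_cast e2
    rcases Nat.eq_zero_or_pos (h w) with h1 | h1
    · rw [h1, mul_zero] at e3
      omega
    · have := Nat.le_mul_of_pos_right k h1
      omega
  · have e1 := sum_single_sub V c' m (m v₀) (fun _ => 1)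
    simp only [mul_one, sub_self, mul_zero, Finset.sum_const_zero] at e1
    exact e1
  · intro j
    rw [sum_single_sub V c' m (m v₀) (fun n => (n j : ℂ)), Finset.sum_congr rfl
      (fun v hv => hkey v hv j), Finset.sum_add_distrib, ← Finset.sum_mul, hsum, zero_mul,
      add_zero, hc j]

end LDF
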