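import Pool.Agent.LDF.T

/-!
# LDF: target LAT0 (lattice points, parallel case)
-/

set_option autoImplicit false

open Filter Topology
open scoped Pointwise

noncomputable section

namespace LDF

namespace LAT0_

/-- the directions obtained from the lattice points with the property `P` -/
def rea {d : ℕ} (P : (Fin d → ℤ) → Prop) : Submodule ℂ (Fin d → ℂ) :=
  Submodule.map (Finsupp.linearCombination ℂ fun (m : Fin d → ℤ) (j : Fin d) => (m j : ℂ))
    (Finsupp.supported ℂ ℂ {m | P m} ⊓
      LinearMap.ker (Finsupp.linearCombination ℂ fun _ : Fin d → ℤ => (1 : ℂ)))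

lemma rea_iff {d : ℕ} {P : (Fin d → ℤ) → Prop} {r : Fin d → ℂ} (h : r ∈ rea P) :
    ∃ g : Lau d, (∀ m ∈ g.support, P m) ∧ (g.sum fun _ c => c) = 0 ∧
      ∀ j, (g.sum fun m c => c * (m j : ℂ)) = r j := by
  obtain ⟨g, ⟨h1, h2⟩, h3⟩ := h
  refine ⟨g, fun m hm => ?_, ?_, fun j => ?_⟩
  · exact h1 hm
  · have h4 : Finsupp.linearCombination ℂ (fun _ : Fin d → ℤ => (1 : ℂ)) g = 0 := h2
    rw [Finsupp.linearCombination_apply] at h4
    simpa using h4
  · have h4 := congrFun h3 j
    rw [Finsupp.linearCombination_apply, Finsupp.sum, Finset.sum_apply] at h4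
    simpa [Finsupp.sum] using h4

lemma mem_rea {d : ℕ} {P : (Fin d → ℤ) → Prop} {m m' : Fin d → ℤ} (h : P m) (h' : P m') :
    (fun j => (m j : ℂ) - (m' j : ℂ)) ∈ rea P := by
  refine ⟨Finsupp.single m 1 - Finsupp.single m' 1, ⟨?_, ?_⟩, ?_⟩
  · exact Submodule.sub_mem _ (Finsupp.single_mem_supported ℂ _ h)
      (Finsupp.single_mem_supported ℂ _ h')
  · show Finsupp.linearCombination ℂ (fun _ : Fin d → ℤ => (1 : ℂ))
      (Finsupp.single m 1 - Finsupp.single m' 1) = 0
    rw [map_sub, Finsupp.linearCombination_single, Finsupp.linearCombination_single]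
    simp
  · rw [map_sub, Finsupp.linearCombination_single, Finsupp.linearCombination_single]
    funext j
    simp

lemma toR_inj {d : ℕ} {u v : Fin d → ℤ} (h : toR u = toR v) : u = v := by
  funext j
  have := congrFun h j
  unfold toR at this
  exact_mod_cast this

/-- a face is the convex hull of its lattice points in `V` -/
lemma face_sub {d : ℕ} {V : Finset (Fin d → ℤ)} {Γ : Set (Fin d → ℝ)}
    (hF : IsFace (conv V) Γ) : Γ ⊆ convexHull ℝ {x | ∃ v ∈ V, toR v ∈ Γ ∧ x = toR v} := by
  obtain ⟨⟨x₀, hx₀⟩, hE⟩ := hF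
  obtain ⟨l, hl⟩ := hE ⟨x₀, hx₀⟩
  have hx₀' : x₀ ∈ conv V ∧ ∀ y ∈ conv V, l y ≤ l x₀ := by
    have := hx₀
    rw [hl] at this
    exact this
  have key : conv V ⊆ {x | l x < l x₀ ∨ (l x ≤ l x₀ ∧
      x ∈ convexHull ℝ {x | ∃ v ∈ V, toR v ∈ Γ ∧ x = toR v})} := by
    refine convexHull_min ?_ ?_
    · rintro _ ⟨v, hv, rfl⟩
      have h1 : toR v ∈ conv V := subset_convexHull ℝ _ ⟨v, hv, rfl⟩
      rcases (hx₀'.2 _ h1).lt_or_eq with h | h
      · exact Or.inl h
      · refine Or.inr ⟨h.le, subset_convexHull ℝ _ ⟨v, hv, ?_, rfl⟩⟩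
        rw [hl]
        exact ⟨h1, fun y hy => h ▸ hx₀'.2 y hy⟩
    · rw [convex_iff_forall_pos]
      intro x hx y hy s t hs ht hst
      have e : l (s • x + t • y) = s * l x + t * l y := by
        rw [map_add, map_smul, map_smul, smul_eq_mul, smul_eq_mul]
      have e0 : l x₀ = s * l x₀ + t * l x₀ := by rw [← add_mul, hst, one_mul]
      have hx1 : l x ≤ l x₀ := hx.elim (fun h => h.le) fun h => h.1
      have hy1 : l y ≤ l x₀ := hy.elim (fun h => h.le) fun h => h.1
      rcases hx with hx | hx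
      · left
        show l (s • x + t • y) < l x₀
        rw [e, e0]
        exact add_lt_add_of_lt_of_le (mul_lt_mul_of_pos_left hx hs)
          (mul_le_mul_of_nonneg_left hy1 ht.le)
      · rcases hy with hy | hy
        · left
          show l (s • x + t • y) < l x₀
          rw [e, e0]
          exact add_lt_add_of_le_of_lt (mul_le_mul_of_nonneg_left hx1 hs.le)
            (mul_lt_mul_of_pos_left hy ht)
        · right
          refine ⟨?_, (convex_convexHull ℝ _) hx.2 hy.2 hs.le ht.le hst⟩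
          rw [e, e0]
          exact add_le_add (mul_le_mul_of_nonneg_left hx1 hs.le)
            (mul_le_mul_of_nonneg_left hy1 ht.le)
  intro x hx
  have hx' : x ∈ conv V ∧ ∀ y ∈ conv V, l y ≤ l x := by
    have := hx
    rw [hl] at this
    exact this
  rcases key hx'.1 with h | h
  · exact absurd (hx'.2 _ hx₀'.1) (not_le.2 h)
  · exact h.2

end LAT0_

open LAT0_ in
/-- lattice points for a direction parallel to the face -/
theorem p_LAT0 : T_LAT0 := by
  intro d V Γ hV hF _ r hr
  set P : (Fin d → ℤ) → Prop := fun m => toR m ∈ (3 : ℝ) • Γ ∧ ∀ v ∈ V, m ≠ (3 : ℤ) • v with hP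
  have hconv : Convex ℝ Γ := hF.2.convex (convex_convexHull ℝ _)
  have hsub : Γ ⊆ conv V := hF.2.subset
  -- the lattice points `u + 2 v`
  have hpt : ∀ u v : Fin d → ℤ, toR u ∈ Γ → toR v ∈ Γ → u ≠ v → P (u + (2 : ℤ) • v) := by
    intro u v hu hv huv
    have e1 : toR (u + (2 : ℤ) • v) = (3 : ℝ) • ((1 / 3 : ℝ) • toR u + (2 / 3 : ℝ) • toR v) := by
      funext j
      simp only [toR, Pi.add_apply, Pi.smul_apply, smul_eq_mul, Int.cast_add, Int.cast_mul,
        Int.cast_ofNat]
      ring
    refine ⟨?_, fun w hw he => huv ?_⟩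
    · rw [e1]
      exact Set.smul_mem_smul_set (hconv hu hv (by norm_num) (by norm_num) (by norm_num))
    · have e2 : (1 / 3 : ℝ) • toR u + (2 / 3 : ℝ) • toR v = toR w := by
        have e3 : toR ((3 : ℤ) • w) = (3 : ℝ) • toR w := by
          funext j
          simp only [toR, Pi.smul_apply, smul_eq_mul, Int.cast_mul, Int.cast_ofNat]
        rw [he, e3] at e1
        exact (smul_right_injective _ (by norm_num : (3 : ℝ) ≠ 0) e1).symm
      have h1 := (mem_extremePoints.1 (hV w hw)).2 _ (hsub hu) _ (hsub hv)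
        ⟨1 / 3, 2 / 3, by norm_num, by norm_num, by norm_num, e2⟩
      exact toR_inj (h1.1.trans h1.2.symm)
  -- differences of lattice points
  have hdif : ∀ u v : Fin d → ℤ, toR u ∈ Γ → toR v ∈ Γ →
      (fun j => (v j : ℂ) - (u j : ℂ)) ∈ rea P := by
    intro u v hu hv
    by_cases huv : u = v
    · rw [huv]
      have : (fun j => (v j : ℂ) - (v j : ℂ)) = 0 := by
        funext j
        simp
      rw [this]
      exact Submodule.zero_mem _
    · have h1 := mem_rea (hpt u v hu hv huv) (hpt v u hv hu (Ne.symm huv))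
      have h2 : (fun j => (((u + (2 : ℤ) • v) j : ℤ) : ℂ) - (((v + (2 : ℤ) • u) j : ℤ) : ℂ)) =
          fun j => (v j : ℂ) - (u j : ℂ) := by
        funext j
        simp only [Pi.add_apply, Pi.smul_apply, smul_eq_mul, Int.cast_add, Int.cast_mul,
          Int.cast_ofNat]
        ring
      rw [h2] at h1
      exact h1
  -- differences of points of the face
  have hface : ∀ u : Fin d → ℤ, toR u ∈ Γ → ∀ x ∈ Γ,
      (fun j => (x j : ℂ) - (u j : ℂ)) ∈ rea P := by
    intro u hu x hx
    have h1 : convexHull ℝ {x | ∃ v ∈ V, toR v ∈ Γ ∧ x = toR v} ⊆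
        {x : Fin d → ℝ | (fun j => (x j : ℂ) - (u j : ℂ)) ∈ rea P} := by
      refine convexHull_min ?_ ?_
      · rintro _ ⟨v, -, hv, rfl⟩
        have h2 := hdif u v hu hv
        have h3 : (fun j => ((toR v j : ℝ) : ℂ) - (u j : ℂ)) =
            fun j => (v j : ℂ) - (u j : ℂ) := by
          funext j
          simp [toR]
        show (fun j => ((toR v j : ℝ) : ℂ) - (u j : ℂ)) ∈ rea P
        rw [h3]
        exact h2
      · intro x hx y hy s t _ _ hst
        have hx' : (fun j => (x j : ℂ) - (u j : ℂ)) ∈ rea P := hx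
        have hy' : (fun j => (y j : ℂ) - (u j : ℂ)) ∈ rea P := hy
        have h2 := Submodule.add_mem _ (Submodule.smul_mem _ (s : ℂ) hx')
          (Submodule.smul_mem _ (t : ℂ) hy')
        have h3 : ((s : ℂ) • (fun j => (x j : ℂ) - (u j : ℂ)) +
            (t : ℂ) • fun j => (y j : ℂ) - (u j : ℂ)) =
            fun j => (((s • x + t • y) j : ℝ) : ℂ) - (u j : ℂ) := by
          funext j
          have hst' : (s : ℂ) + t = 1 := by exact_mod_cast hst
          simp only [Pi.add_apply, Pi.smul_apply, smul_eq_mul, Complex.ofReal_add,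
            Complex.ofReal_mul]
          linear_combination (-(u j : ℂ)) * hst'
        rw [h3] at h2
        exact h2
    exact h1 (face_sub hF hx)
  have hmem : r ∈ rea P := by
    refine Submodule.span_le.2 ?_ hr
    rintro _ ⟨p, hp, q, hq, rfl⟩
    obtain ⟨u, hu⟩ : ∃ u : Fin d → ℤ, toR u ∈ Γ := by
      have h1 : (convexHull ℝ {x | ∃ v ∈ V, toR v ∈ Γ ∧ x = toR v}).Nonempty :=
        ⟨p, face_sub hF hp⟩
      obtain ⟨_, v, -, hv, rfl⟩ := convexHull_nonempty_iff.1 h1
      exact ⟨v, hv⟩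
    have h2 := Submodule.sub_mem _ (hface u hu p hp) (hface u hu q hq)
    have h3 : ((fun j => (p j : ℂ) - (u j : ℂ)) - fun j => (q j : ℂ) - (u j : ℂ)) =
        fun j => ((p j - q j : ℝ) : ℂ) := by
      funext j
      simp only [Pi.sub_apply, Complex.ofReal_sub]
      ring
    rw [h3] at h2
    exact h2
  obtain ⟨g, h1, h2, h3⟩ := rea_iff hmem
  exact ⟨g, fun m hm => (h1 m hm).1, fun m hm => (h1 m hm).2, h2, h3⟩

end LDF
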