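import Pool.Agent.LDF.T

/-!
# LDF, job LIN
-/

set_option autoImplicit false

noncomputable section

namespace LDF

theorem LIN_eval (n : ℕ) (c w : Fin n → ℂ) (s : ℂ) (F : MvPolynomial (Fin n) ℂ) :
    (MvPolynomial.aeval (fun i => Polynomial.C (c i) + Polynomial.X * Polynomial.C (w i)) F :
      Polynomial ℂ).eval s = MvPolynomial.eval (fun i => c i + s * w i) F := by
  induction F using MvPolynomial.induction_on with
  | C a => simp [Polynomial.algebraMap_eq]
  | add p q hp hq => rw [map_add, Polynomial.eval_add, hp, hq, map_add]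
  | mul_X p i hp =>
    rw [map_mul, Polynomial.eval_mul, hp, MvPolynomial.aeval_X, map_mul, MvPolynomial.eval_X]
    simp only [Polynomial.eval_add, Polynomial.eval_C, Polynomial.eval_mul, Polynomial.eval_X]

theorem p_LIN : T_LIN := by
  intro n h c hh hc
  obtain ⟨y, hy⟩ : ∃ y, MvPolynomial.eval y h ≠ 0 := by
    by_contra hcon
    push Not at hcon
    exact hh (MvPolynomial.funext fun x => by rw [hcon x, map_zero])
  set w : Fin n → ℂ := fun i => y i - c i with hw
  have hw0 : ∃ i, w i ≠ 0 := by
    by_contra hcon
    push Not at hcon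
    apply hy
    have : y = c := by
      funext i
      have := hcon i
      simp only [hw] at this
      exact sub_eq_zero.mp this
    rw [this]; exact hc
  obtain ⟨i, hi⟩ := hw0
  let l : MvPolynomial (Fin n) ℂ →ₐ[ℂ] Polynomial ℂ :=
    MvPolynomial.aeval (fun i => Polynomial.C (c i) + Polynomial.X * Polynomial.C (w i))
  refine ⟨l, ?_, ?_, ?_⟩
  · intro q
    refine ⟨Polynomial.aeval (MvPolynomial.C (w i)⁻¹ * (MvPolynomial.X i - MvPolynomial.C (c i))) q,
      ?_⟩
    have hX : l (MvPolynomial.C (w i)⁻¹ * (MvPolynomial.X i - MvPolynomial.C (c i))) =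
        Polynomial.X := by
      have h1 : l (MvPolynomial.X i) = Polynomial.C (c i) + Polynomial.X * Polynomial.C (w i) := by
        simp [l]
      have h2 : ∀ a : ℂ, l (MvPolynomial.C a) = Polynomial.C a := by
        intro a
        simp [l, Polynomial.algebraMap_eq]
      rw [map_mul, map_sub, h1, h2, h2]
      have h3 : Polynomial.C (w i)⁻¹ * Polynomial.C (w i) = 1 := by
        rw [← Polynomial.C_mul, inv_mul_cancel₀ hi, Polynomial.C_1]
      calc Polynomial.C (w i)⁻¹ * (Polynomial.C (c i) + Polynomial.X * Polynomial.C (w i) -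
            Polynomial.C (c i)) = Polynomial.X * (Polynomial.C (w i)⁻¹ * Polynomial.C (w i)) := by
            ring
        _ = Polynomial.X := by rw [h3, mul_one]
    rw [← Polynomial.aeval_algHom_apply, hX, Polynomial.aeval_X_left_apply]
  · intro h0
    have h1 := LIN_eval n c w 1 h
    have h2 : (fun i => c i + 1 * w i) = y := by
      funext j
      simp [hw]
    rw [h2] at h1
    apply hy
    rw [← h1]
    change (l h).eval 1 = 0
    rw [h0, Polynomial.eval_zero]
  · intro F
    have h1 := LIN_eval n c w 0 F
    have h2 : (fun i => c i + 0 * w i) = c := by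
      funext j
      simp
    rw [h2] at h1
    exact h1

end LDF
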