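import Pool.Agent.LDF.T

set_option autoImplicit false

open Filter Topology
open scoped Pointwise

noncomputable section

namespace LDF

namespace MAIN_

theorem smooth_lim {d : ℕ} {Q : Lau d} {N Γ : Set (Fin d → ℝ)} {r : Fin d → ℂ}
    (hN : newt Q = N) (h : IsSmoothLim Q Γ r) : IsLim N Γ (VQ Q) r := by
  obtain ⟨hr, z, s, hz, -, -, horb, hlim⟩ := h
  refine ⟨hr, z, fun n => s n • lgr Q (z n), hz, fun n => ?_, ?_, hlim⟩
  · refine Submodule.smul_mem _ _ (Submodule.subset_span ⟨Q, fun y hy => hy.2, rfl⟩)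
  · rw [← hN]
    exact horb

end MAIN_

open MAIN_ in
theorem p_MAIN (hONE : T_ONE) (hTWO : T_TWO) (hVTX : T_VTX) (hDIM : T_DIM) (hSCL : T_SCL) :
    T_MAIN := by
  intro d N Γ hN hΓ
  refine ⟨hONE d N Γ hN hΓ, hTWO d N Γ hN hΓ, ?_⟩
  constructor
  · intro hQ
    by_contra hc
    push Not at hc
    obtain ⟨h0, h1, h2⟩ := hc
    obtain ⟨r, hr, hort, hpar⟩ := (hDIM d N Γ hN hΓ).2.2 h1 h2
    obtain ⟨k, Q, hk, hnewt, hlim⟩ := hTWO d N Γ hN hΓ r hr hort (Nat.pos_of_ne_zero h0)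
    have h3 := hQ k hk Q hnewt (VQ Q) (Set.Subset.refl _) r (smooth_lim hnewt hlim)
    exact hpar (((hSCL d N Γ k hk hN hΓ).2.2.2 r).1.1 h3)
  · intro h k hk Q hnewt S hS r hlim
    obtain ⟨e1, e2, e3, e4⟩ := hSCL d N Γ k hk hN hΓ
    have e5 := e4 r
    rcases h with h | h | h
    · exfalso
      have h1 : IsFace (newt Q) ((k : ℝ) • Γ) := by rw [hnewt]; exact e2
      refine hVTX d Q ((k : ℝ) • Γ) h1 (e3.trans h) S r hS ?_
      rw [hnewt]
      exact hlim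
    · have h1 : Ort ((k : ℝ) • N) ((k : ℝ) • Γ) r :=
        hONE d _ _ e1 e2 S r (fun z hz => (hS hz).1) hlim
      exact e5.1.2 ((hDIM d N Γ hN hΓ).2.1 h r (e5.2.1 h1))
    · exact e5.1.2 ((hDIM d N Γ hN hΓ).1 h r)

end LDF
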