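import Pool.Agent.LDF.T

/-!
# LDF: target NOE
-/

set_option autoImplicit false

open Filter Topology
open scoped Pointwise

noncomputable section

namespace LDF

namespace NOE_

/-- the group algebra -/
abbrev R (d : ℕ) : Type := AddMonoidAlgebra ℂ (Fin d → ℤ)

instance (d : ℕ) : AddMonoid.FG (Fin d → ℤ) := by
  have h : AddGroup.FG (Fin d → ℤ) := Module.Finite.iff_addGroup_fg.1 inferInstance
  exact AddGroup.fg_iff_addMonoid_fg.1 h

instance (d : ℕ) : IsNoetherianRing (R d) := Algebra.FiniteType.isNoetherianRing ℂ (R d)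

theorem mon_zero {d : ℕ} (z : Fin d → ℂ) : mon z 0 = 1 := by
  simp [mon]

theorem mon_add {d : ℕ} {z : Fin d → ℂ} (hz : z ∈ Tor d) (m n : Fin d → ℤ) :
    mon z (m + n) = mon z m * mon z n := by
  unfold mon
  rw [← Finset.prod_mul_distrib]
  exact Finset.prod_congr rfl fun j _ => zpow_add₀ (hz j) _ _

/-- weighted sum of the coefficients -/
def L {d : ℕ} (w : (Fin d → ℤ) → ℂ) (f : R d) : ℂ := f.coeff.sum fun m c => c * w m

theorem L_zero {d : ℕ} (w : (Fin d → ℤ) → ℂ) : L w (0 : R d) = 0 := by
  simp [L]

theorem L_add {d : ℕ} (w : (Fin d → ℤ) → ℂ) (f g : R d) : L w (f + g) = L w f + L w g := by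
  unfold L
  rw [AddMonoidAlgebra.coeff_add]
  exact Finsupp.sum_add_index' (fun m => zero_mul _) fun m a b => add_mul _ _ _

theorem L_single {d : ℕ} (w : (Fin d → ℤ) → ℂ) (m : Fin d → ℤ) (c : ℂ) :
    L w (AddMonoidAlgebra.single m c) = c * w m := by
  unfold L
  rw [AddMonoidAlgebra.coeff_single]
  exact Finsupp.sum_single_index (zero_mul _)

/-- product formula -/
theorem L_mul {d : ℕ} (v w : (Fin d → ℤ) → ℂ)
    (h : ∀ m n, w (m + n) = v m * w n + w m * v n) (f g : R d) :
    L w (f * g) = L v f * L w g + L w f * L v g := by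
  induction f using AddMonoidAlgebra.induction_linear with
  | zero => simp [L_zero]
  | add x y hx hy => rw [add_mul, L_add, L_add, L_add, hx, hy]; ring
  | single m a =>
    induction g using AddMonoidAlgebra.induction_linear with
    | zero => simp [L_zero]
    | add x y hx hy => rw [mul_add, L_add, L_add, L_add, hx, hy]; ring
    | single n b =>
      rw [AddMonoidAlgebra.single_mul_single, L_single, L_single, L_single, L_single, L_single, h]
      ring

theorem L_mul' {d : ℕ} (v : (Fin d → ℤ) → ℂ) (h : ∀ m n, v (m + n) = v m * v n) (f g : R d) :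
    L v (f * g) = L v f * L v g := by
  induction f using AddMonoidAlgebra.induction_linear with
  | zero => simp [L_zero]
  | add x y hx hy => rw [add_mul, L_add, L_add, hx, hy]; ring
  | single m a =>
    induction g using AddMonoidAlgebra.induction_linear with
    | zero => simp [L_zero]
    | add x y hx hy => rw [mul_add, L_add, L_add, hx, hy]; ring
    | single n b =>
      rw [AddMonoidAlgebra.single_mul_single, L_single, L_single, L_single, h]
      ring

theorem ev_eq {d : ℕ} (Q : Lau d) (z : Fin d → ℂ) : ev Q z = L (mon z) (.ofCoeff Q) := rfl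

/-- the weights of the logarithmic gradient -/
def gw {d : ℕ} (z : Fin d → ℂ) (j : Fin d) (m : Fin d → ℤ) : ℂ := (m j : ℂ) * mon z m

theorem lgr_eq (h_LGR : T_LGR) {d : ℕ} (Q : Lau d) {z : Fin d → ℂ} (hz : z ∈ Tor d) (j : Fin d) :
    lgr Q z j = L (gw z j) (.ofCoeff Q) := by
  rw [h_LGR d Q z hz j]
  unfold L gw
  exact Finset.sum_congr rfl fun m _ => mul_assoc _ _ _

theorem gw_add {d : ℕ} {z : Fin d → ℂ} (hz : z ∈ Tor d) (j : Fin d) (m n : Fin d → ℤ) :
    gw z j (m + n) = mon z m * gw z j n + gw z j m * mon z n := by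
  unfold gw
  rw [mon_add hz, Pi.add_apply]
  push_cast
  ring

/-- the ideal of the functions which vanish on `S` -/
def I {d : ℕ} (S : Set (Fin d → ℂ)) (hS : S ⊆ Tor d) : Ideal (R d) where
  carrier := {f | ∀ y ∈ S, L (mon y) f = 0}
  add_mem' := by
    intro a b ha hb y hy
    rw [L_add, ha y hy, hb y hy, add_zero]
  zero_mem' := fun y _ => L_zero _
  smul_mem' := by
    intro c f hf y hy
    rw [smul_eq_mul, L_mul' (mon y) (mon_add (hS hy)), hf y hy, mul_zero]

theorem mem_I {d : ℕ} {S : Set (Fin d → ℂ)} {hS : S ⊆ Tor d} {f : R d} :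
    f ∈ I S hS ↔ ∀ y ∈ S, L (mon y) f = 0 := Iff.rfl

end NOE_

open NOE_ in
theorem p_NOE (h_LGR : T_LGR) : T_NOE := by
  intro d S hS
  obtain ⟨s, hs⟩ := (isNoetherianRing_iff_ideal_fg (NOE_.R d)).1 inferInstance (I S hS)
  have hmem : ∀ f ∈ s, f ∈ I S hS := fun f hf => by
    rw [← hs]; exact Ideal.subset_span hf
  refine ⟨s.card, fun i => (s.equivFin.symm i : NOE_.R d).coeff, fun i y hy => ?_, fun z hz => ?_⟩
  · exact hmem _ (s.equivFin.symm i).2 y hy
  · unfold logNormal
    rw [Submodule.span_le]
    rintro w ⟨f, hf, rfl⟩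
    have hz' : z ∈ Tor d := hS hz
    have h1 : (.ofCoeff f : NOE_.R d) ∈ I S hS := fun y hy => hf y hy
    have h2 : ∀ g ∈ Ideal.span (s : Set (NOE_.R d)), (fun j => L (gw z j) g) ∈
        Submodule.span ℂ (Set.range fun i : Fin s.card =>
          lgr ((s.equivFin.symm i : NOE_.R d).coeff) z) := by
      intro g hg
      induction hg using Submodule.span_induction with
      | mem x hx =>
        refine Submodule.subset_span ⟨s.equivFin ⟨x, hx⟩, ?_⟩
        funext j
        show lgr ((s.equivFin.symm (s.equivFin ⟨x, hx⟩) : NOE_.R d).coeff) z j = _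
        rw [Equiv.symm_apply_apply, lgr_eq h_LGR _ hz']
      | zero =>
        have : (fun j => L (gw z j) (0 : NOE_.R d)) = 0 := by
          funext j; exact L_zero _
        rw [this]
        exact Submodule.zero_mem _
      | add x y _ _ hx hy =>
        have : (fun j => L (gw z j) (x + y)) = (fun j => L (gw z j) x) + fun j => L (gw z j) y := by
          funext j; exact L_add _ _ _
        rw [this]
        exact Submodule.add_mem _ hx hy
      | smul a x hx' hx =>
        have h3 : L (mon z) x = 0 := by
          have : x ∈ I S hS := by rw [← hs]; exact hx'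
          exact this z hz
        have : (fun j => L (gw z j) (a • x)) = (L (mon z) a) • fun j => L (gw z j) x := by
          funext j
          rw [smul_eq_mul, L_mul (mon z) (gw z j) (gw_add hz' j), h3, mul_zero, add_zero]
          rfl
        rw [this]
        exact Submodule.smul_mem _ _ hx
    have h3 := h2 (.ofCoeff f) (by rw [hs]; exact h1)
    have h4 : lgr f z = fun j => L (gw z j) (.ofCoeff f) := by
      funext j; exact lgr_eq h_LGR f hz' j
    rw [h4]
    exact h3

end LDF
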