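import Pool.Agent.LDF.T

/-!
# LDF: target ONE (first part of the main theorem)
-/

set_option autoImplicit false

open Filter Topology
open scoped Pointwise

noncomputable section

namespace LDF

/-- points of `V` are in the convex hull -/
lemma ONE_mem_conv {d : ℕ} (V : Finset (Fin d → ℤ)) (p : Fin d → ℤ) (hp : p ∈ V) :
    toR p ∈ conv V :=
  subset_convexHull ℝ _ ⟨p, by exact_mod_cast hp, rfl⟩

lemma ONE_toR_sub {d : ℕ} (p q : Fin d → ℤ) : toR (p - q) = (1 : ℝ) • (toR p - toR q) := by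
  funext j
  simp [toR]

theorem p_ONE (h_ARC : T_ARC) (h_NOE : T_NOE) (h_GEO : T_GEO) : T_ONE := by
  classical
  intro d N Γ hN hF S r hS hlim
  obtain ⟨⟨V, rfl⟩, -⟩ := hN
  obtain ⟨-, z, ρ, hzS, hρ, hto, hρt⟩ := hlim
  obtain ⟨m, f, hf, hspan⟩ := h_NOE d S hS
  have hμ : ∀ n, ∃ μ : Fin m → ℂ, ∑ i, μ i • lgr (f i) (z n) = ρ n := fun n =>
    (Submodule.mem_span_range_iff_exists_fun ℂ).1 (hspan (z n) (hzS n) (hρ n))
  choose μ hμ using hμ
  obtain ⟨-, hG2, hG3⟩ := h_GEO d V Γ hF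
  set P : Finset (Fin d → ℤ) := (V ×ˢ V.filter (fun q => toR q ∈ Γ)).image (fun x => x.1 - x.2)
    with hP
  have hPmem : ∀ p ∈ V, ∀ q ∈ V, toR q ∈ Γ → p - q ∈ P := by
    intro p hp q hq hqΓ
    rw [hP, Finset.mem_image]
    exact ⟨(p, q), Finset.mem_product.2 ⟨hp, Finset.mem_filter.2 ⟨hq, hqΓ⟩⟩, rfl⟩
  have hc : ∀ u : Fin d → ℤ, ∃ c : ℂ, u ∈ P →
      (Tendsto (fun n => mon (z n) u) atTop (𝓝 c) ∧ (c ≠ 0 ↔ toR u ∈ vectorSpan ℝ Γ)) := by
    intro u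
    by_cases hu : u ∈ P
    · rw [hP, Finset.mem_image] at hu
      obtain ⟨⟨p, q⟩, hpq, rfl⟩ := hu
      rw [Finset.mem_product, Finset.mem_filter] at hpq
      obtain ⟨c, hc⟩ := hto (p - q) ⟨1, zero_le_one, toR p, ONE_mem_conv V p hpq.1,
        toR q, hpq.2.2, ONE_toR_sub p q⟩
      exact ⟨c, fun _ => hc⟩
    · exact ⟨0, fun h => absurd h hu⟩
  choose c hc using hc
  obtain ⟨a, ha, har⟩ := h_ARC d m f z μ r P c (fun n => hS (hzS n))
    (fun n i => hf i (z n) (hzS n)) (fun u hu => (hc u hu).1) (by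
      have h : (fun n j => ∑ i, μ n i * lgr (f i) (z n) j) = ρ := by
        funext n j
        rw [← hμ n, Finset.sum_apply]
        rfl
      rw [h]
      exact hρt)
  refine ⟨a, hG3 a ?_, har⟩
  intro p hp q hq hqΓ
  obtain ⟨h1, h2⟩ := ha (p - q) (hPmem p hp q hq hqΓ)
  exact ⟨h1, h2.trans ((hc _ (hPmem p hp q hq hqΓ)).2.trans (hG2 p hp q hq hqΓ))⟩

end LDF
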