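import Pool.Agent.LDF.T

set_option autoImplicit false

open Polynomial

noncomputable section

namespace LDF

theorem PLA_field (F K B : Type) [Field F] [Field K] [CommRing B] [Algebra F K] [Algebra B K]
    [IsFractionRing B K] (s : Set B) (hs : s.Finite) (hint : ∀ b : B, IsIntegral F (algebraMap B K b))
    (hgen : ∀ b : B, algebraMap B K b ∈ IntermediateField.adjoin F (algebraMap B K '' s)) :
    FiniteDimensional F K := by
  haveI : Finite (algebraMap B K '' s) := (hs.image _).to_subtype
  have h1 : FiniteDimensional F (IntermediateField.adjoin F (algebraMap B K '' s)) := by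
    apply IntermediateField.finiteDimensional_adjoin
    rintro x ⟨b, -, rfl⟩
    exact hint b
  have h2 : IntermediateField.adjoin F (algebraMap B K '' s) = ⊤ := by
    rw [eq_top_iff]
    intro x _
    obtain ⟨a, b, hb, rfl⟩ := IsFractionRing.div_surjective (A := B) x
    exact div_mem (hgen a) (hgen b)
  rw [h2] at h1
  exact (IntermediateField.topEquiv (F := F) (E := K)).toLinearEquiv.finiteDimensional

theorem PLA_ded (P B : Type) [CommRing P] [IsDomain P] [IsDedekindDomain P] [CharZero P]
    [CommRing B] [IsDomain B] [Algebra P B] [Module.Finite P B]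
    (hinj : Function.Injective (algebraMap P B)) :
    IsDedekindDomain (integralClosure P (FractionRing B)) := by
  have hPK : Function.Injective (algebraMap P (FractionRing B)) := by
    rw [IsScalarTower.algebraMap_eq P B (FractionRing B)]
    exact (IsFractionRing.injective B (FractionRing B)).comp hinj
  haveI : FaithfulSMul P (FractionRing B) := (faithfulSMul_iff_algebraMap_injective _ _).2 hPK
  letI : Algebra (FractionRing P) (FractionRing B) := FractionRing.liftAlgebra P (FractionRing B)
  haveI : IsScalarTower P (FractionRing P) (FractionRing B) :=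
    FractionRing.isScalarTower_liftAlgebra P (FractionRing B)
  haveI : CharZero (FractionRing P) :=
    charZero_of_injective_algebraMap (R := P) (IsFractionRing.injective P (FractionRing P))
  obtain ⟨s, hs⟩ := (Module.Finite.fg_top : (⊤ : Submodule P B).FG)
  haveI : FiniteDimensional (FractionRing P) (FractionRing B) := by
    apply PLA_field (FractionRing P) (FractionRing B) B (s : Set B) s.finite_toSet
    · intro b
      have h1 : IsIntegral P b := Algebra.IsIntegral.isIntegral b
      have h2 : IsIntegral P (algebraMap B (FractionRing B) b) := h1.algebraMap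
      exact h2.tower_top
    · intro b
      have hb : b ∈ (⊤ : Submodule P B) := trivial
      rw [← hs] at hb
      induction hb using Submodule.span_induction with
      | mem x hx => exact IntermediateField.subset_adjoin _ _ ⟨x, hx, rfl⟩
      | zero => rw [map_zero]; exact zero_mem _
      | add x y _ _ hx hy => rw [map_add]; exact add_mem hx hy
      | smul p x _ hx =>
        rw [Algebra.smul_def, map_mul, ← IsScalarTower.algebraMap_apply P B (FractionRing B),
          IsScalarTower.algebraMap_apply P (FractionRing P) (FractionRing B)]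
        exact mul_mem (IntermediateField.algebraMap_mem _ _) hx
  exact integralClosure.isDedekindDomain P (FractionRing P) (FractionRing B)

theorem PLA_core (h_EXP : T_EXP) (B C : Type) [CommRing B] [IsDomain B] [Algebra ℂ B]
    [CommRing C] [IsDomain C] [IsDedekindDomain C] [Algebra ℂ C] [Algebra B C]
    [IsScalarTower ℂ B C] [Algebra.IsIntegral B C]
    (hinj : Function.Injective (algebraMap B C)) (st : B →ₐ[ℂ] ℂ)
    (hne : ∃ b : B, b ≠ 0 ∧ st b = 0) :
    ∃ ψ : B →ₐ[ℂ] PowerSeries ℂ, Function.Injective ψ ∧
      ∀ b : B, PowerSeries.constantCoeff (ψ b) = st b := by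
  have hsurj : Function.Surjective st := fun c => ⟨algebraMap ℂ B c, by simp⟩
  haveI hmax : (RingHom.ker st.toRingHom).IsMaximal :=
    RingHom.ker_isMaximal_of_surjective st.toRingHom hsurj
  have hker : RingHom.ker (algebraMap B C) ≤ RingHom.ker st.toRingHom := by
    rw [(RingHom.injective_iff_ker_eq_bot _).1 hinj]
    exact bot_le
  obtain ⟨n, hn, hnc⟩ := Ideal.exists_ideal_over_maximal_of_isIntegral (S := C)
    (RingHom.ker st.toRingHom) hker
  have hmemn : ∀ b : B, algebraMap B C b ∈ n ↔ st b = 0 := by
    intro b
    rw [← Ideal.mem_comap, hnc, RingHom.mem_ker]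
    rfl
  have hn0 : n ≠ ⊥ := by
    rintro rfl
    obtain ⟨b, hb, hb0⟩ := hne
    apply hb
    apply hinj
    rw [map_zero]
    exact (hmemn b).2 hb0
  haveI := hn.isPrime
  haveI hdvr : IsDiscreteValuationRing (Localization.AtPrime n) :=
    IsLocalization.AtPrime.isDiscreteValuationRing_of_dedekind_domain C hn0
      (Localization.AtPrime n)
  -- the residue field
  letI : Field (C ⧸ n) := Ideal.Quotient.field n
  have hfac : algebraMap B (C ⧸ n) = (algebraMap ℂ (C ⧸ n)).comp st.toRingHom := by
    ext b
    have h1 : algebraMap B C (b - algebraMap ℂ B (st b)) ∈ n := by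
      rw [hmemn]; simp
    rw [map_sub, ← IsScalarTower.algebraMap_apply ℂ B C] at h1
    have h2 := (Ideal.Quotient.mk_eq_mk_iff_sub_mem _ _).2 h1
    exact h2
  haveI : Algebra.IsIntegral ℂ (C ⧸ n) := by
    constructor
    intro x
    obtain ⟨a, rfl⟩ := Ideal.Quotient.mk_surjective x
    have h1 : IsIntegral B a := Algebra.IsIntegral.isIntegral a
    have h2 : IsIntegral B (Ideal.Quotient.mk n a) := h1.map (Ideal.Quotient.mkₐ B n)
    have h3 : (algebraMap B (C ⧸ n)).IsIntegralElem (Ideal.Quotient.mk n a) := h2
    rw [hfac] at h3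
    obtain ⟨p, hp, hp2⟩ := h3
    exact ⟨p.map st.toRingHom, hp.map _, by rw [Polynomial.eval₂_map]; exact hp2⟩
  have hres : ∀ a : C, ∃ c : ℂ, a - algebraMap ℂ C c ∈ n := by
    intro a
    obtain ⟨c, hc⟩ := (IsAlgClosed.algebraMap_bijective_of_isIntegral (k := ℂ)
      (K := C ⧸ n)).2 (Ideal.Quotient.mk n a)
    refine ⟨c, ?_⟩
    rw [← Ideal.Quotient.mk_eq_mk_iff_sub_mem]
    exact hc.symm
  have hmem : ∀ a : C, algebraMap C (Localization.AtPrime n) a ∈
      IsLocalRing.maximalIdeal (Localization.AtPrime n) ↔ a ∈ n := fun a =>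
    IsLocalization.AtPrime.to_map_mem_maximal_iff (Localization.AtPrime n) n a
  have hEXP : ∀ x : Localization.AtPrime n, ∃ c : ℂ,
      x - algebraMap ℂ (Localization.AtPrime n) c ∈
        IsLocalRing.maximalIdeal (Localization.AtPrime n) := by
    intro x
    obtain ⟨⟨a, s⟩, hx⟩ := IsLocalization.surj n.primeCompl x
    obtain ⟨ca, hca⟩ := hres a
    obtain ⟨cs, hcs⟩ := hres s
    have hcs0 : cs ≠ 0 := by
      rintro rfl
      rw [map_zero, sub_zero] at hcs
      exact s.2 hcs
    refine ⟨ca / cs, ?_⟩
    have h1 : (x - algebraMap ℂ (Localization.AtPrime n) (ca / cs)) *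
        algebraMap C (Localization.AtPrime n) s =
        algebraMap C (Localization.AtPrime n) (a - algebraMap ℂ C (ca / cs) * s) := by
      rw [sub_mul, map_sub, map_mul, hx,
        ← IsScalarTower.algebraMap_apply ℂ C (Localization.AtPrime n)]
    have h2 : a - algebraMap ℂ C (ca / cs) * s ∈ n := by
      have e : a - algebraMap ℂ C (ca / cs) * (s : C) = (a - algebraMap ℂ C ca) -
          algebraMap ℂ C (ca / cs) * ((s : C) - algebraMap ℂ C cs) := by
        have e1 : algebraMap ℂ C (ca / cs) * algebraMap ℂ C cs = algebraMap ℂ C ca := by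
          rw [← map_mul, div_mul_cancel₀ _ hcs0]
        rw [mul_sub, e1]
        ring
      rw [e]
      exact n.sub_mem hca (n.mul_mem_left _ hcs)
    have h3 := (hmem _).2 h2
    rw [← h1] at h3
    rcases (IsLocalRing.maximalIdeal.isMaximal (Localization.AtPrime n)).isPrime.mem_or_mem h3
      with h4 | h4
    · exact h4
    · exact absurd ((hmem _).1 h4) s.2
  obtain ⟨ψ, hψ, hψ0⟩ := h_EXP (Localization.AtPrime n) hEXP
  let i : B →ₐ[ℂ] C := IsScalarTower.toAlgHom ℂ B C
  let l : C →ₐ[ℂ] Localization.AtPrime n := IsScalarTower.toAlgHom ℂ C (Localization.AtPrime n)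
  refine ⟨ψ.comp (l.comp i), ?_, ?_⟩
  · have hl : Function.Injective (algebraMap C (Localization.AtPrime n)) :=
      IsLocalization.injective _ n.primeCompl_le_nonZeroDivisors
    exact hψ.comp (hl.comp hinj)
  · intro b
    have h1 : (l.comp i) (b - algebraMap ℂ B (st b)) ∈
        IsLocalRing.maximalIdeal (Localization.AtPrime n) := by
      have : (l.comp i) (b - algebraMap ℂ B (st b)) =
          algebraMap C (Localization.AtPrime n) (algebraMap B C (b - algebraMap ℂ B (st b))) := rfl
      rw [this, hmem, hmemn]
      simp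
    have h2 := hψ0 _ h1
    rw [map_sub, map_sub, map_sub, AlgHom.commutes, AlgHom.commutes, sub_eq_zero] at h2
    rw [AlgHom.comp_apply, h2]
    simp

/-- Dedekind place -/
theorem p_PLA (h_EXP : T_EXP) : T_PLA := by
  intro B _ _ _ j hj hfin st
  letI : Algebra (Polynomial ℂ) B := j.toRingHom.toAlgebra
  haveI : Module.Finite (Polynomial ℂ) B := hfin
  haveI : IsScalarTower ℂ (Polynomial ℂ) B := IsScalarTower.of_algebraMap_eq fun c => by
    change _ = j (algebraMap ℂ _ c)
    rw [AlgHom.commutes]
  have hinj : Function.Injective (algebraMap (Polynomial ℂ) B) := hj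
  haveI := PLA_ded (Polynomial ℂ) B hinj
  let i : B →ₐ[Polynomial ℂ] integralClosure (Polynomial ℂ) (FractionRing B) :=
    (IsScalarTower.toAlgHom (Polynomial ℂ) B (FractionRing B)).codRestrict
      (integralClosure (Polynomial ℂ) (FractionRing B)) (fun b => by
        have h1 : IsIntegral (Polynomial ℂ) b := Algebra.IsIntegral.isIntegral b
        exact h1.algebraMap)
  letI : Algebra B (integralClosure (Polynomial ℂ) (FractionRing B)) := i.toRingHom.toAlgebra
  haveI : IsScalarTower (Polynomial ℂ) B (integralClosure (Polynomial ℂ) (FractionRing B)) :=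
    IsScalarTower.of_algebraMap_eq fun p => by
      change _ = i (algebraMap (Polynomial ℂ) B p)
      rw [AlgHom.commutes]
  haveI : Algebra.IsIntegral B (integralClosure (Polynomial ℂ) (FractionRing B)) :=
    Algebra.IsIntegral.tower_top (R := Polynomial ℂ)
  haveI : IsScalarTower ℂ (Polynomial ℂ) (FractionRing B) :=
    IsScalarTower.of_algebraMap_eq fun c => by
      rw [IsScalarTower.algebraMap_apply ℂ B (FractionRing B),
        IsScalarTower.algebraMap_apply ℂ (Polynomial ℂ) B,
        ← IsScalarTower.algebraMap_apply (Polynomial ℂ) B (FractionRing B)]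
  haveI : IsScalarTower ℂ B (integralClosure (Polynomial ℂ) (FractionRing B)) :=
    IsScalarTower.of_algebraMap_eq fun c => by
      apply Subtype.ext
      change algebraMap ℂ (FractionRing B) c = algebraMap B (FractionRing B) (algebraMap ℂ B c)
      rw [← IsScalarTower.algebraMap_apply ℂ B (FractionRing B)]
  have hinj2 : Function.Injective
      (algebraMap B (integralClosure (Polynomial ℂ) (FractionRing B))) := by
    intro a b hab
    have := congrArg Subtype.val hab
    exact IsFractionRing.injective B (FractionRing B) this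
  refine PLA_core h_EXP B (integralClosure (Polynomial ℂ) (FractionRing B)) hinj2 st ?_
  refine ⟨j (X - C (st (j X))), ?_, ?_⟩
  · intro h
    rw [← map_zero j] at h
    exact Polynomial.X_sub_C_ne_zero _ (hj h)
  · rw [map_sub, map_sub]
    have : j (C (st (j X))) = algebraMap ℂ B (st (j X)) := j.commutes _
    rw [this, AlgHom.commutes]
    simp

end LDF
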