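import Pool.Agent.LDF.T

/-!
# LDF: ROOT, a small root of a polynomial
-/

set_option autoImplicit false

open Polynomial

noncomputable section

namespace LDF

namespace ROOT_

lemma norm_sum_le_card (s : Multiset ℂ) (B : ℝ) (h : ∀ z ∈ s, ‖z‖ ≤ B) :
    ‖s.sum‖ ≤ s.card * B := by
  induction s using Multiset.induction_on with
  | empty => simp
  | cons a s ih =>
    rw [Multiset.sum_cons, Multiset.card_cons]
    have h1 := ih fun z hz => h z (Multiset.mem_cons_of_mem hz)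
    have h2 := h a (Multiset.mem_cons_self a s)
    calc ‖a + s.sum‖ ≤ ‖a‖ + ‖s.sum‖ := norm_add_le _ _
      _ ≤ B + s.card * B := add_le_add h2 h1
      _ = ((s.card + 1 : ℕ) : ℝ) * B := by push_cast; ring

lemma norm_sum_lt_card (s : Multiset ℂ) (hs : s ≠ 0) (B : ℝ) (h : ∀ z ∈ s, ‖z‖ < B) :
    ‖s.sum‖ < s.card * B := by
  obtain ⟨a, ha⟩ := Multiset.exists_mem_of_ne_zero hs
  obtain ⟨t, rfl⟩ := Multiset.exists_cons_of_mem ha
  rw [Multiset.sum_cons, Multiset.card_cons]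
  have h1 := norm_sum_le_card t B fun z hz => (h z (Multiset.mem_cons_of_mem hz)).le
  have h2 := h a (Multiset.mem_cons_self a t)
  calc ‖a + t.sum‖ ≤ ‖a‖ + ‖t.sum‖ := norm_add_le _ _
    _ < B + t.card * B := add_lt_add_of_lt_of_le h2 h1
    _ = ((t.card + 1 : ℕ) : ℝ) * B := by push_cast; ring

end ROOT_

open ROOT_ in
theorem p_ROOT : T_ROOT := by
  intro n p hn hd
  by_cases h0 : p.eval 0 = 0
  · exact ⟨0, h0, by rw [h0]; simp⟩
  have hs := (IsAlgClosed.splits p).eval_derivative_div_eval_of_ne_zero h0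
  have hp : p ≠ 0 := by
    rintro rfl
    simp at h0
  set q : ℂ := p.eval 0 / p.derivative.eval 0 with hq
  have hq0 : q ≠ 0 := div_ne_zero h0 hd
  have hqpos : 0 < ‖q‖ := norm_pos_iff.mpr hq0
  have hinv : p.derivative.eval 0 / p.eval 0 = q⁻¹ := by rw [hq, inv_div]
  by_contra hcon
  push Not at hcon
  -- all the roots are large
  have hroots : ∀ τ ∈ p.roots, (n : ℝ) * ‖q‖ < ‖τ‖ := fun τ hτ =>
    hcon τ (Polynomial.isRoot_of_mem_roots hτ)
  have hn0 : 0 < n := by
    rcases Nat.eq_zero_or_pos n with h | h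
    · subst h
      exfalso
      apply hd
      rw [Polynomial.eq_C_of_natDegree_le_zero hn]
      simp
    · exact h
  have hnR : (0 : ℝ) < n := by exact_mod_cast hn0
  have hbpos : 0 < (n : ℝ) * ‖q‖ := mul_pos hnR hqpos
  -- there is a root
  have hcard : p.roots.card ≤ n := (Polynomial.card_roots' p).trans hn
  have hne : p.roots ≠ 0 := by
    intro h
    rw [h] at hs
    simp only [Multiset.map_zero, Multiset.sum_zero] at hs
    rw [hinv] at hs
    exact inv_ne_zero hq0 hs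
  have hlt := norm_sum_lt_card (p.roots.map fun z => 1 / (0 - z)) (by simpa using hne)
    (((n : ℝ) * ‖q‖)⁻¹) (by
      intro z hz
      obtain ⟨τ, hτ, rfl⟩ := Multiset.mem_map.mp hz
      rw [zero_sub, one_div, norm_inv, norm_neg]
      exact (inv_lt_inv₀ (hbpos.trans (hroots τ hτ)) hbpos).mpr (hroots τ hτ))
  rw [← hs, hinv, norm_inv, Multiset.card_map] at hlt
  have hle : (p.roots.card : ℝ) * ((n : ℝ) * ‖q‖)⁻¹ ≤ ‖q‖⁻¹ := by
    have hc : (p.roots.card : ℝ) ≤ n := by exact_mod_cast hcard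
    calc (p.roots.card : ℝ) * ((n : ℝ) * ‖q‖)⁻¹ ≤ n * ((n : ℝ) * ‖q‖)⁻¹ :=
          mul_le_mul_of_nonneg_right hc (inv_pos.mpr hbpos).le
      _ = ‖q‖⁻¹ := by rw [mul_inv, ← mul_assoc, mul_inv_cancel₀ hnR.ne', one_mul]
  exact absurd (hlt.trans_le hle) (lt_irrefl _)

end LDF
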