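import Pool.Agent.LDF.T

/-!
# LDF: scaling
-/

set_option autoImplicit false

open Filter Topology
open scoped Pointwise

noncomputable section

namespace LDF.SCL_

open LDF

variable {d : ℕ}

theorem argmin_smul {E : Type} [AddCommGroup E] [Module ℝ E] {k : ℝ} (hk : 0 < k) (N : Set E)
    (φ : E → ℝ) (hφ : ∀ x, φ (k • x) = k * φ x) :
    {x | x ∈ k • N ∧ ∀ y ∈ k • N, φ x ≤ φ y} = k • {x | x ∈ N ∧ ∀ y ∈ N, φ x ≤ φ y} := by
  ext x
  constructor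
  · rintro ⟨⟨x', hx', rfl⟩, h⟩
    refine ⟨x', ⟨hx', fun y hy => ?_⟩, rfl⟩
    have h1 := h (k • y) ⟨y, hy, rfl⟩
    have h2 : k * φ x' ≤ k * φ y := by
      rw [← hφ, ← hφ]
      exact h1
    exact le_of_mul_le_mul_left h2 hk
  · rintro ⟨x', ⟨hx', h⟩, rfl⟩
    refine ⟨⟨x', hx', rfl⟩, ?_⟩
    rintro y ⟨y', hy', rfl⟩
    show φ (k • x') ≤ φ (k • y')
    rw [hφ, hφ]
    exact mul_le_mul_of_nonneg_left (h y' hy') hk.le

theorem smul_inj {E : Type} [AddCommGroup E] [Module ℝ E] {k : ℝ} (hk : 0 < k) {s t : Set E}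
    (h : k • s = k • t) : s = t := by
  have h1 := congrArg (fun u : Set E => k⁻¹ • u) h
  simpa only [smul_smul, inv_mul_cancel₀ hk.ne', one_smul] using h1

theorem toR_smul (k : ℕ) (m : Fin d → ℤ) : toR ((k : ℤ) • m) = (k : ℝ) • toR m := by
  funext j
  simp [toR]

theorem conv_smul (k : ℕ) (V : Finset (Fin d → ℤ)) :
    (k : ℝ) • conv V = conv (V.image fun m => (k : ℤ) • m) := by
  classical
  unfold conv
  rw [← convexHull_smul]
  congr 1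
  ext x
  constructor
  · rintro ⟨-, ⟨m, hm, rfl⟩, rfl⟩
    refine ⟨(k : ℤ) • m, ?_, toR_smul k m⟩
    rw [Finset.mem_coe, Finset.mem_image]
    exact ⟨m, hm, rfl⟩
  · rintro ⟨m, hm, rfl⟩
    rw [Finset.mem_coe, Finset.mem_image] at hm
    obtain ⟨m', hm', rfl⟩ := hm
    exact ⟨toR m', ⟨m', hm', rfl⟩, (toR_smul k m').symm⟩

theorem isPoly_smul {k : ℕ} (hk : 0 < k) {N : Set (Fin d → ℝ)} (h : IsPoly N) :
    IsPoly ((k : ℝ) • N) := by
  have hk' : (k : ℝ) ≠ 0 := by exact_mod_cast hk.ne'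
  obtain ⟨⟨V, rfl⟩, h2⟩ := h
  refine ⟨⟨_, conv_smul k V⟩, ?_⟩
  rw [interior_smul₀ hk']
  exact h2.smul_set

theorem isFace_smul {k : ℝ} (hk : 0 < k) {N Γ : Set (Fin d → ℝ)} (h : IsFace N Γ) :
    IsFace (k • N) (k • Γ) := by
  obtain ⟨h1, h2⟩ := h
  refine ⟨h1.smul_set, fun _ => ?_⟩
  obtain ⟨l, hl⟩ := h2 h1
  refine ⟨l, ?_⟩
  have h3 := argmin_smul hk N (fun x => -l x) (fun x => by
    show -l (k • x) = k * -l x
    rw [map_smul, smul_eq_mul]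
    ring)
  simp only [neg_le_neg_iff] at h3
  rw [hl]
  exact h3.symm

theorem vectorSpan_smul' {k : ℝ} (hk : 0 < k) (Γ : Set (Fin d → ℝ)) :
    vectorSpan ℝ (k • Γ) = vectorSpan ℝ Γ := by
  have h : (k • Γ) -ᵥ (k • Γ) = k • (Γ -ᵥ Γ) := by
    ext x
    constructor
    · rintro ⟨-, ⟨p, hp, rfl⟩, -, ⟨q, hq, rfl⟩, rfl⟩
      refine ⟨p - q, ⟨p, hp, q, hq, rfl⟩, ?_⟩
      show k • (p - q) = k • p - k • q
      exact smul_sub k p q
    · rintro ⟨-, ⟨p, hp, q, hq, rfl⟩, rfl⟩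
      refine ⟨k • p, ⟨p, hp, rfl⟩, k • q, ⟨q, hq, rfl⟩, ?_⟩
      show k • p - k • q = k • (p - q)
      exact (smul_sub k p q).symm
  rw [vectorSpan_def, vectorSpan_def, h]
  exact Submodule.span_smul_eq_of_isUnit _ k hk.ne'.isUnit

theorem par_smul {k : ℝ} (hk : 0 < k) (Γ : Set (Fin d → ℝ)) (r : Fin d → ℂ) :
    Par (k • Γ) r ↔ Par Γ r := by
  unfold Par
  have h : {w : Fin d → ℂ | ∃ p ∈ k • Γ, ∃ q ∈ k • Γ, w = fun j => ((p j - q j : ℝ) : ℂ)} =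
      (k : ℂ) • {w : Fin d → ℂ | ∃ p ∈ Γ, ∃ q ∈ Γ, w = fun j => ((p j - q j : ℝ) : ℂ)} := by
    ext x
    constructor
    · rintro ⟨-, ⟨p, hp, rfl⟩, -, ⟨q, hq, rfl⟩, rfl⟩
      refine ⟨fun j => ((p j - q j : ℝ) : ℂ), ⟨p, hp, q, hq, rfl⟩, ?_⟩
      funext j
      simp only [Pi.smul_apply, smul_eq_mul]
      push_cast
      ring
    · rintro ⟨-, ⟨p, hp, q, hq, rfl⟩, rfl⟩
      refine ⟨k • p, ⟨p, hp, rfl⟩, k • q, ⟨q, hq, rfl⟩, ?_⟩
      funext j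
      simp only [Pi.smul_apply, smul_eq_mul]
      push_cast
      ring
  rw [h, Submodule.span_smul_eq_of_isUnit _ (k : ℂ)
    (isUnit_iff_ne_zero.2 (by exact_mod_cast hk.ne'))]

theorem ort_smul {k : ℝ} (hk : 0 < k) (N Γ : Set (Fin d → ℝ)) (r : Fin d → ℂ) :
    Ort (k • N) (k • Γ) r ↔ Ort N Γ r := by
  unfold Ort
  refine exists_congr fun a => and_congr_left fun _ => ?_
  unfold Exposes
  have h := argmin_smul hk N (fun x => ∑ j, (a j : ℝ) * x j) (fun x => by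
    show ∑ j, (a j : ℝ) * (k * x j) = k * ∑ j, (a j : ℝ) * x j
    rw [Finset.mul_sum]
    exact Finset.sum_congr rfl fun j _ => by ring)
  rw [h]
  exact ⟨fun h1 => smul_inj hk h1, fun h1 => congrArg _ h1⟩

end LDF.SCL_

namespace LDF

open SCL_

theorem p_SCL : T_SCL := by
  intro d N Γ k hk hN hΓ
  have hk' : (0 : ℝ) < k := by exact_mod_cast hk
  refine ⟨isPoly_smul hk hN, isFace_smul hk' hΓ, ?_, fun r => ⟨par_smul hk' Γ r,
    ort_smul hk' N Γ r⟩⟩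
  unfold fdim
  rw [vectorSpan_smul' hk']

end LDF
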