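import Pool.Agent.LDF.T

/-!
# LDF: the second part of the main theorem (TWO)
-/

set_option autoImplicit false

open Filter Topology
open scoped Pointwise

noncomputable section

namespace LDF

namespace TWO_

/-- an integer functional constant on a convex hull with interior points vanishes -/
theorem zero_of_const {d : ℕ} (V : Finset (Fin d → ℤ)) (hi : (interior (conv V)).Nonempty)
    (w : Fin d → ℤ) (c : ℝ) (h : ∀ v ∈ V, ∑ j, (w j : ℝ) * toR v j = c) : ∀ j, w j = 0 := by
  have hlin : IsLinearMap ℝ (fun x : Fin d → ℝ => ∑ j, (w j : ℝ) * x j) := by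
    constructor
    · intro x y
      simp [mul_add, Finset.sum_add_distrib]
    · intro t x
      simp only [Pi.smul_apply, smul_eq_mul, Finset.mul_sum]
      exact Finset.sum_congr rfl fun j _ => by ring
  have hsub : conv V ⊆ {x : Fin d → ℝ | ∑ j, (w j : ℝ) * x j = c} := by
    apply convexHull_min _ (convex_hyperplane hlin c)
    rintro _ ⟨v, hv, rfl⟩
    exact h v hv
  obtain ⟨x0, hx0⟩ := hi
  intro j
  have hopen : IsOpen (interior (conv V)) := isOpen_interior
  have hcont : Tendsto (fun t : ℝ => x0 + t • (Pi.single j (1 : ℝ) : Fin d → ℝ)) (𝓝 0) (𝓝 x0) := by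
    have h1 : Continuous (fun t : ℝ => x0 + t • (Pi.single j (1 : ℝ) : Fin d → ℝ)) := by
      fun_prop
    have h2 := h1.tendsto 0
    simpa using h2
  have hev : ∀ᶠ t : ℝ in 𝓝 0, x0 + t • (Pi.single j (1 : ℝ) : Fin d → ℝ) ∈ interior (conv V) :=
    hcont.eventually (hopen.mem_nhds hx0)
  obtain ⟨ε, hε, hball⟩ := Metric.eventually_nhds_iff.1 hev
  have h3 := hball (y := ε / 2) (by
    rw [Real.dist_eq, sub_zero, abs_of_pos (by linarith)]
    linarith)
  have h4 := hsub (interior_subset h3)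
  have h5 := hsub (interior_subset hx0)
  simp only [Set.mem_setOf_eq] at h4 h5
  have h6 : ∑ i, (w i : ℝ) * (x0 + (ε / 2) • (Pi.single j (1 : ℝ) : Fin d → ℝ)) i
      = ∑ i, (w i : ℝ) * x0 i + (ε / 2) * w j := by
    simp only [Pi.add_apply, Pi.smul_apply, smul_eq_mul, mul_add, Finset.sum_add_distrib]
    congr 1
    rw [Finset.sum_eq_single j]
    · simp
      ring
    · intro b _ hb
      simp [Pi.single_eq_of_ne hb]
    · intro hb
      exact absurd (Finset.mem_univ j) hb
  rw [h6, h5] at h4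
  have h7 : (ε / 2) * (w j : ℝ) = 0 := by linarith
  have h8 : (w j : ℝ) = 0 := by
    rcases mul_eq_zero.1 h7 with h9 | h9
    · linarith
    · exact h9
  exact_mod_cast h8

end TWO_

open TWO_ in
theorem p_TWO (hBLD : T_BLD) (hLAT : T_LAT) (hLAT0 : T_LAT0) (hDUAL : T_DUAL) (hVEX : T_VEX) :
    T_TWO := by
  intro d N Γ hN hΓ r hr hO hdim
  obtain ⟨⟨V0, hV0⟩, hint⟩ := hN
  obtain ⟨V, _, hV1, hV2⟩ := hVEX d V0
  rw [← hV1] at hV2
  rw [← hV1] at hV0
  subst hV0
  obtain ⟨a, ha, har⟩ := hO
  by_cases hP : Par Γ r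
  · obtain ⟨g, hg1, hg2, hg3, hg4⟩ := hLAT0 d V Γ hV2 hΓ hdim r hP
    obtain ⟨j, hj⟩ := Function.ne_iff.1 hr
    have hsub : Γ ⊆ conv V := by
      rw [ha]
      exact fun x hx => hx.1
    obtain ⟨Q, hQ1, hQ2⟩ := hBLD d V Γ a (Pi.single j 1) 3 0 g r hV2 hΓ ha hdim le_rfl (by norm_num)
      (by
        intro m hm
        have := hg1 m hm
        push_cast
        exact Set.smul_set_mono hsub this)
      (by
        intro m hm p hp hpΓ
        have h1 := hg1 m hm
        obtain ⟨x, hx, hx2⟩ := Set.mem_smul_set.1 h1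
        have hx' := hx
        have hp' := hpΓ
        rw [ha] at hx' hp'
        have e1 : ∑ j, (a j : ℝ) * x j = ∑ j, (a j : ℝ) * toR p j :=
          le_antisymm (hx'.2 _ hp'.1) (hp'.2 _ hx'.1)
        have e2 : ∑ j, (a j : ℝ) * toR m j = 3 * ∑ j, (a j : ℝ) * x j := by
          rw [← hx2, Finset.mul_sum]
          exact Finset.sum_congr rfl fun i _ => by simp only [Pi.smul_apply, smul_eq_mul]; ring
        rw [e1] at e2
        unfold toR at e2
        have e3 : ((∑ j, a j * m j : ℤ) : ℝ) = ((3 * ∑ j, a j * p j : ℤ) : ℝ) := by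
          push_cast
          exact e2
        have e4 : ∑ j, a j * m j = 3 * ∑ j, a j * p j := by exact_mod_cast e3
        rw [e4]
        push_cast
        ring)
      (by
        intro m hm v hv
        have := hg2 m hm v hv
        simpa using this)
      hg3 hg4
      (by
        rw [Finset.sum_eq_single j]
        · simpa using hj
        · intro b _ hb
          simp [Pi.single_eq_of_ne hb]
        · intro hb
          exact absurd (Finset.mem_univ j) hb)
      (Or.inl rfl)
    exact ⟨3, Q, by norm_num, hQ1, hQ2⟩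
  · obtain ⟨w, hw1, hw2⟩ := hDUAL d V Γ hΓ r hP
    have hex : ∃ v ∈ V, toR v ∉ Γ := by
      by_contra hc
      push Not at hc
      obtain ⟨x, hx⟩ := hΓ.1
      apply hw2
      have h0 := zero_of_const V hint w (∑ j, (w j : ℝ) * x j) (by
        intro v hv
        have h1 := hw1 _ (hc v hv) x hx
        simp only [mul_sub, Finset.sum_sub_distrib] at h1
        linarith)
      simp [h0]
    obtain ⟨k, L, g, hk, hL, hLk, hg1, hg2, hg3, hg4, hg5⟩ := hLAT d V Γ a hint hΓ ha hex r har
    obtain ⟨Q, hQ1, hQ2⟩ := hBLD d V Γ a w k L g r hV2 hΓ ha hdim hk hLk hg1 hg2 hg3 hg4 hg5 hw2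
      (Or.inr hw1)
    exact ⟨k, Q, by omega, hQ1, hQ2⟩

end LDF
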