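import Pool.Agent.LDF.T

set_option autoImplicit false

open Filter Topology
open scoped Pointwise

namespace LDF

theorem p_VEX : T_VEX := by
  classical
  intro d V
  have hfin : (toR '' (V : Set (Fin d → ℤ))).Finite := V.finite_toSet.image _
  refine ⟨V.filter fun v => toR v ∈ (conv V).extremePoints ℝ, Finset.filter_subset _ _, ?_, ?_⟩
  · have himg : toR '' ((V.filter fun v => toR v ∈ (conv V).extremePoints ℝ : Finset (Fin d → ℤ)) :
        Set (Fin d → ℤ)) = (conv V).extremePoints ℝ := by
      ext x
      constructor
      · rintro ⟨v, hv, rfl⟩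
        exact (Finset.mem_filter.1 (Finset.mem_coe.1 hv)).2
      · intro hx
        obtain ⟨v, hv, hvx⟩ := extremePoints_convexHull_subset hx
        refine ⟨v, Finset.mem_coe.2 (Finset.mem_filter.2 ⟨Finset.mem_coe.1 hv, ?_⟩), hvx⟩
        rw [hvx]
        exact hx
    have hK : IsCompact (conv V) := hfin.isCompact_convexHull (𝕜 := ℝ)
    have hc : Convex ℝ (conv V) := convex_convexHull ℝ _
    have h1 := closure_convexHull_extremePoints hK hc
    have h2 : ((conv V).extremePoints ℝ).Finite := hfin.subset extremePoints_convexHull_subset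
    have h3 : IsClosed (convexHull ℝ ((conv V).extremePoints ℝ)) := h2.isClosed_convexHull (𝕜 := ℝ)
    rw [h3.closure_eq] at h1
    unfold conv at himg ⊢
    rw [himg]
    exact h1
  · intro v hv
    exact (Finset.mem_filter.1 hv).2

end LDF
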