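import Pool.Agent.LDF.T

/-!
# LDF: no point of the hypersurface tends to a vertex
-/

set_option autoImplicit false

open Filter Topology
open scoped Pointwise

noncomputable section

namespace LDF

theorem VTX_mon_sub {d : ℕ} (z : Fin d → ℂ) (hz : z ∈ Tor d) (m v : Fin d → ℤ) :
    mon z (m - v) = mon z m * (mon z v)⁻¹ := by
  unfold mon
  rw [← Finset.prod_inv_distrib, ← Finset.prod_mul_distrib]
  refine Finset.prod_congr rfl fun j _ => ?_
  rw [Pi.sub_apply, zpow_sub₀ (hz j), div_eq_mul_inv]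

theorem VTX_toR_sub {d : ℕ} (m v : Fin d → ℤ) : toR (m - v) = toR m - toR v := by
  funext j
  simp [toR]

theorem VTX_toR_inj {d : ℕ} {m : Fin d → ℤ} (h : toR m = 0) : m = 0 := by
  funext j
  have := congrFun h j
  simpa [toR] using this

theorem p_VTX (h_GEO : T_GEO) : T_VTX := by
  classical
  intro d Q Γ hF h0 S r hS hL
  obtain ⟨v, hv, hvΓ⟩ := (h_GEO d Q.support Γ hF).1
  obtain ⟨-, z, ρ, hzS, -, hO, -⟩ := hL
  have hbot : vectorSpan ℝ Γ = ⊥ := Submodule.finrank_eq_zero.1 h0
  have hT : ∀ n, z n ∈ Tor d := fun n => (hS (hzS n)).1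
  have hlim : ∀ m ∈ Q.support, Tendsto (fun n => mon (z n) (m - v)) atTop
      (𝓝 (if m = v then 1 else 0)) := by
    intro m hm
    split_ifs with hmv
    · subst hmv
      have : (fun n => mon (z n) (m - m)) = fun _ => (1 : ℂ) := by
        funext n
        simp [mon]
      rw [this]
      exact tendsto_const_nhds
    · obtain ⟨c, hc, hc'⟩ := hO (m - v) ⟨1, zero_le_one, toR m,
        subset_convexHull ℝ _ ⟨m, hm, rfl⟩, toR v, hvΓ, by rw [VTX_toR_sub, one_smul]⟩
      have hc0 : c = 0 := by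
        by_contra hne
        have h1 := hc'.1 hne
        rw [hbot, Submodule.mem_bot] at h1
        exact hmv (sub_eq_zero.1 (VTX_toR_inj h1))
      rw [hc0] at hc
      exact hc
  have hsum : Tendsto (fun n => ∑ m ∈ Q.support, Q m * mon (z n) (m - v)) atTop
      (𝓝 (∑ m ∈ Q.support, Q m * (if m = v then 1 else 0))) :=
    tendsto_finsetSum _ fun m hm => (hlim m hm).const_mul (Q m)
  have hz : (fun n => ∑ m ∈ Q.support, Q m * mon (z n) (m - v)) = fun _ => (0 : ℂ) := by
    funext n
    have h1 : ev Q (z n) = 0 := (hS (hzS n)).2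
    have h2 : ∑ m ∈ Q.support, Q m * mon (z n) (m - v) = ev Q (z n) * (mon (z n) v)⁻¹ := by
      rw [ev, Finsupp.sum, Finset.sum_mul]
      refine Finset.sum_congr rfl fun m _ => ?_
      rw [VTX_mon_sub (z n) (hT n), mul_assoc]
    rw [h2, h1, zero_mul]
  rw [hz] at hsum
  have h3 := tendsto_nhds_unique hsum tendsto_const_nhds
  have h4 : ∑ m ∈ Q.support, Q m * (if m = v then 1 else 0) = Q v := by
    simp only [mul_ite, mul_one, mul_zero]
    rw [Finset.sum_ite_eq', if_pos hv]
  rw [h4] at h3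
  exact (Finsupp.mem_support_iff.1 hv) h3

end LDF
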