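import Pool.Agent.LDF.P_ARC
import Pool.Agent.LDF.P_BLD
import Pool.Agent.LDF.P_CSL
import Pool.Agent.LDF.P_DER
import Pool.Agent.LDF.P_DIM
import Pool.Agent.LDF.P_DUAL
import Pool.Agent.LDF.P_EX
import Pool.Agent.LDF.P_EXP
import Pool.Agent.LDF.P_EXS
import Pool.Agent.LDF.P_FIN
import Pool.Agent.LDF.P_GD
import Pool.Agent.LDF.P_GEO
import Pool.Agent.LDF.P_INT
import Pool.Agent.LDF.P_LAT
import Pool.Agent.LDF.P_LAT0
import Pool.Agent.LDF.P_LGR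
import Pool.Agent.LDF.P_LIN
import Pool.Agent.LDF.P_MAIN
import Pool.Agent.LDF.P_NOE
import Pool.Agent.LDF.P_ONE
import Pool.Agent.LDF.P_PLA
import Pool.Agent.LDF.P_ROOT
import Pool.Agent.LDF.P_SCL
import Pool.Agent.LDF.P_TWO
import Pool.Agent.LDF.P_VEX
import Pool.Agent.LDF.P_VTX
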