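import Mathlib

/-!
# LDF: limit directions at the faces of the Newton polytope (definitions)

Problem MP_759130_ag (helper86).
-/

set_option autoImplicit false

open Filter Topology
open scoped Pointwise

noncomputable section

namespace LDF

/-- Laurent polynomials in `d` variables: the coefficients, indexed by the exponents -/
abbrev Lau (d : ℕ) : Type := (Fin d → ℤ) →₀ ℂ

/-- the monomial `z^m` -/
def mon {d : ℕ} (z : Fin d → ℂ) (m : Fin d → ℤ) : ℂ := ∏ j, z j ^ m j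

/-- the value of a Laurent polynomial -/
def ev {d : ℕ} (Q : Lau d) (z : Fin d → ℂ) : ℂ := Q.sum fun m c => c * mon z m

/-- the logarithmic gradient ` (z_1 ∂Q/∂z_1, ..., z_d ∂Q/∂z_d)` at `z` -/
def lgr {d : ℕ} (Q : Lau d) (z : Fin d → ℂ) (j : Fin d) : ℂ :=
  z j * deriv (fun w => ev Q (Function.update z j w)) (z j)

/-- the embedding of `ℤ^d` in `ℝ^d` -/
def toR {d : ℕ} (m : Fin d → ℤ) (j : Fin d) : ℝ := (m j : ℝ)

/-- the convex hull in `ℝ^d` of a finite set of lattice points -/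
def conv {d : ℕ} (V : Finset (Fin d → ℤ)) : Set (Fin d → ℝ) :=
  convexHull ℝ (toR '' (V : Set (Fin d → ℤ)))

/-- the Newton polytope -/
def newt {d : ℕ} (Q : Lau d) : Set (Fin d → ℝ) := conv Q.support

/-- `N` is a `d`-dimensional lattice polytope in `ℝ^d` -/
def IsPoly {d : ℕ} (N : Set (Fin d → ℝ)) : Prop :=
  (∃ V : Finset (Fin d → ℤ), N = conv V) ∧ (interior N).Nonempty

/-- `Γ` is a (nonempty) face of `N`, possibly `N` itself -/
def IsFace {d : ℕ} (N Γ : Set (Fin d → ℝ)) : Prop := Γ.Nonempty ∧ IsExposed ℝ N Γ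

/-- the dimension of a face -/
def fdim {d : ℕ} (Γ : Set (Fin d → ℝ)) : ℕ := Module.finrank ℝ (vectorSpan ℝ Γ)

/-- the dense torus -/
def Tor (d : ℕ) : Set (Fin d → ℂ) := {z | ∀ j, z j ≠ 0}

/-- the hypersurface of `Q` in the torus -/
def VQ {d : ℕ} (Q : Lau d) : Set (Fin d → ℂ) := {z | z ∈ Tor d ∧ ev Q z = 0}

/-- The sequence `z n` of points of the torus converges in the toric variety of `N` to a point of
the torus orbit of the face `Γ`.  The affine chart of the variety around this orbit has as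
coordinates the monomials `z^u` for the lattice points `u` of the cone generated by `N - Γ`, and
its points `x` are the semigroup homomorphisms `u ↦ c u`; the orbit of `Γ` consists of those for
which `c u ≠ 0` exactly for the `u` in the linear span of `Γ - Γ`. -/
def ToOrbit {d : ℕ} (N Γ : Set (Fin d → ℝ)) (z : ℕ → Fin d → ℂ) : Prop :=
  ∀ u : Fin d → ℤ, (∃ t : ℝ, 0 ≤ t ∧ ∃ p ∈ N, ∃ q ∈ Γ, toR u = t • (p - q)) →
    ∃ c : ℂ, Tendsto (fun n => mon (z n) u) atTop (𝓝 c) ∧ (c ≠ 0 ↔ toR u ∈ vectorSpan ℝ Γ)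

/-- the logarithmic normal space of a set `S` at the point `z`: the span of the logarithmic
gradients at `z` of the Laurent polynomials which vanish on `S` -/
def logNormal {d : ℕ} (S : Set (Fin d → ℂ)) (z : Fin d → ℂ) : Submodule ℂ (Fin d → ℂ) :=
  Submodule.span ℂ {w | ∃ f : Lau d, (∀ y ∈ S, ev f y = 0) ∧ w = lgr f z}

/-- ` (x, r)`, with `x` in the torus orbit of `Γ`, is a limit of pairs (point of `S`, logarithmic
normal direction of `S` at this point); `r n` are homogeneous coordinates of the direction. -/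
def IsLim {d : ℕ} (N Γ : Set (Fin d → ℝ)) (S : Set (Fin d → ℂ)) (r : Fin d → ℂ) : Prop :=
  r ≠ 0 ∧ ∃ (z : ℕ → Fin d → ℂ) (ρ : ℕ → Fin d → ℂ), (∀ n, z n ∈ S) ∧
    (∀ n, ρ n ∈ logNormal S (z n)) ∧ ToOrbit N Γ z ∧ Tendsto ρ atTop (𝓝 r)

/-- the same for the smooth points of the hypersurface `V_Q` -/
def IsSmoothLim {d : ℕ} (Q : Lau d) (Γ : Set (Fin d → ℝ)) (r : Fin d → ℂ) : Prop :=
  r ≠ 0 ∧ ∃ (z : ℕ → Fin d → ℂ) (s : ℕ → ℂ), (∀ n, z n ∈ VQ Q) ∧ (∀ n, lgr Q (z n) ≠ 0) ∧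
    (∀ n, s n ≠ 0) ∧ ToOrbit (newt Q) Γ z ∧ Tendsto (fun n => s n • lgr Q (z n)) atTop (𝓝 r)

/-- `r` is parallel to `Γ`: it lies in the complex span of the differences of points of `Γ` -/
def Par {d : ℕ} (Γ : Set (Fin d → ℝ)) (r : Fin d → ℂ) : Prop :=
  r ∈ Submodule.span ℂ {w : Fin d → ℂ | ∃ p ∈ Γ, ∃ q ∈ Γ, w = fun j => ((p j - q j : ℝ) : ℂ)}

/-- the integer vector `a` lies in the relative interior of the (inner) normal cone of `Γ` -/
def Exposes {d : ℕ} (a : Fin d → ℤ) (N Γ : Set (Fin d → ℝ)) : Prop :=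
  Γ = {x | x ∈ N ∧ ∀ y ∈ N, ∑ j, (a j : ℝ) * x j ≤ ∑ j, (a j : ℝ) * y j}

/-- `r` is orthogonal to some integer vector in the relative interior of the normal cone of `Γ` -/
def Ort {d : ℕ} (N Γ : Set (Fin d → ℝ)) (r : Fin d → ℂ) : Prop :=
  ∃ a : Fin d → ℤ, Exposes a N Γ ∧ ∑ j, (a j : ℂ) * r j = 0

/-- the statement of Q1 at the face `Γ` for all polynomials whose Newton polytope is a multiple
`k N` of `N` (`k = 1, 2, ...`; these are polynomials with the same toric variety) -/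
def Q1At {d : ℕ} (N Γ : Set (Fin d → ℝ)) : Prop :=
  ∀ k : ℕ, 0 < k → ∀ Q : Lau d, newt Q = (k : ℝ) • N → ∀ S : Set (Fin d → ℂ), S ⊆ VQ Q →
    ∀ r : Fin d → ℂ, IsLim ((k : ℝ) • N) ((k : ℝ) • Γ) S r → Par ((k : ℝ) • Γ) r

/-- the complete description -/
def Main : Prop := ∀ (d : ℕ) (N Γ : Set (Fin d → ℝ)), IsPoly N → IsFace N Γ →
  -- necessary condition, for all strata of all algebraic sets
  (∀ (S : Set (Fin d → ℂ)) (r : Fin d → ℂ), S ⊆ Tor d → IsLim N Γ S r → Ort N Γ r) ∧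
  -- it is sharp
  (∀ r : Fin d → ℂ, r ≠ 0 → Ort N Γ r → 0 < fdim Γ → ∃ (k : ℕ) (Q : Lau d), 0 < k ∧
    newt Q = (k : ℝ) • N ∧ IsSmoothLim Q ((k : ℝ) • Γ) r) ∧
  -- truth table of Q1
  (Q1At N Γ ↔ fdim Γ = 0 ∨ fdim Γ + 1 = d ∨ fdim Γ = d)

/-- the statement of Q1 for all polynomials in `d` variables holds exactly for `d ≤ 2` -/
def Main2 : Prop := ∀ d : ℕ,
  (∀ N Γ : Set (Fin d → ℝ), IsPoly N → IsFace N Γ → Q1At N Γ) ↔ d ≤ 2

end LDF
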