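import Pool.Agent.LDF.T

/-!
# LDF: the main step (ARC)
-/

set_option autoImplicit false
set_option linter.unusedSectionVars false

open Filter Topology
open scoped Pointwise

noncomputable section

namespace LDF

namespace ARC_

/-! ### Laurent series -/

abbrev K : Type := LaurentSeries ℂ

theorem coeff_coe_zero (F : PowerSeries ℂ) : (F : K).coeff 0 = PowerSeries.constantCoeff F := by
  simp [PowerSeries.coeff_coe]

/-- the coefficient of `s^0` of a product of series without negative terms -/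
theorem coeff_zero_mul {A B : K} (hA : ∀ n : ℤ, n < 0 → A.coeff n = 0)
    (hB : ∀ n : ℤ, n < 0 → B.coeff n = 0) : (A * B).coeff 0 = A.coeff 0 * B.coeff 0 := by
  have key : ∀ C : K, (∀ n : ℤ, n < 0 → C.coeff n = 0) →
      ∃ F : PowerSeries ℂ, (F : K) = C := by
    intro C hC
    refine ⟨PowerSeries.mk fun n => C.coeff n, ?_⟩
    ext n
    rcases lt_or_ge n 0 with h | h
    · rw [hC n h, PowerSeries.coeff_coe, if_pos h]
    · rw [PowerSeries.coeff_coe, if_neg (not_lt.2 h), PowerSeries.coeff_mk, Int.natAbs_of_nonneg h]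
  obtain ⟨F, rfl⟩ := key A hA
  obtain ⟨G, rfl⟩ := key B hB
  rw [← PowerSeries.coe_mul, coeff_coe_zero, coeff_coe_zero, coeff_coe_zero, map_mul]

theorem coeff_C' (a : ℂ) (n : ℤ) : (HahnSeries.C a : K).coeff n = if n = 0 then a else 0 := by
  by_cases h : n = 0
  · rw [if_pos h, HahnSeries.C_apply, h, HahnSeries.coeff_single_same]
  · rw [if_neg h, HahnSeries.C_apply, HahnSeries.coeff_single_of_ne h]

theorem coeff_coe_neg (F : PowerSeries ℂ) {n : ℤ} (hn : n < 0) : (F : K).coeff n = 0 := by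
  rw [PowerSeries.coeff_coe, if_pos hn]

/-- the logarithmic derivative as a homomorphism -/
def logD (D : Derivation ℂ K K) : Kˣ →* Multiplicative K where
  toFun x := Multiplicative.ofAdd (D (x : K) * (x : K)⁻¹)
  map_one' := by simp
  map_mul' x y := by
    rw [← ofAdd_add]
    congr 1
    have hx : (x : K) ≠ 0 := x.ne_zero
    have hy : (y : K) ≠ 0 := y.ne_zero
    rw [Units.val_mul, Derivation.leibniz]
    simp only [smul_eq_mul]
    field_simp
    ring

/-- the order as a homomorphism -/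
def ordH : Kˣ →* Multiplicative ℤ where
  toFun x := Multiplicative.ofAdd ((x : K).order)
  map_one' := by simp
  map_mul' x y := by
    rw [← ofAdd_add]
    congr 1
    rw [Units.val_mul, HahnSeries.order_mul x.ne_zero y.ne_zero]

variable {d : ℕ}

/-- the monomial with values in the units of a ring -/
def monU {A : Type} [CommMonoid A] (Z : Fin d → Aˣ) (u : Fin d → ℤ) : Aˣ := ∏ j, Z j ^ u j

theorem logD_monU (D : Derivation ℂ K K) (Z : Fin d → Kˣ) (u : Fin d → ℤ) :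
    D ((monU Z u : Kˣ) : K) =
      ((monU Z u : Kˣ) : K) * ∑ j, (u j : K) * (D (Z j : K) * (Z j : K)⁻¹) := by
  have h1 : logD D (monU Z u) = ∏ j, (logD D (Z j)) ^ u j := by
    unfold monU
    rw [map_prod]
    simp only [map_zpow]
  have h2 : D ((monU Z u : Kˣ) : K) * ((monU Z u : Kˣ) : K)⁻¹ =
      ∑ j, u j • (D (Z j : K) * (Z j : K)⁻¹) := by
    have := congrArg Multiplicative.toAdd h1
    rw [toAdd_prod] at this
    simpa [logD] using this
  have h3 : ((monU Z u : Kˣ) : K) ≠ 0 := (monU Z u).ne_zero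
  rw [show (∑ j, (u j : K) * (D (Z j : K) * (Z j : K)⁻¹)) =
    ∑ j, u j • (D (Z j : K) * (Z j : K)⁻¹) from
    Finset.sum_congr rfl fun j _ => by rw [zsmul_eq_mul], ← h2]
  field_simp

theorem ord_monU (Z : Fin d → Kˣ) (u : Fin d → ℤ) :
    ((monU Z u : Kˣ) : K).order = ∑ j, (Z j : K).order * u j := by
  have h1 : ordH (monU Z u) = ∏ j, (ordH (Z j)) ^ u j := by
    unfold monU
    rw [map_prod]
    simp only [map_zpow]
  have := congrArg Multiplicative.toAdd h1
  rw [toAdd_prod] at this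
  simp only [toAdd_zpow, smul_eq_mul] at this
  rw [show ((monU Z u : Kˣ) : K).order = Multiplicative.toAdd (ordH (monU Z u)) from rfl, this]
  refine Finset.sum_congr rfl fun j _ => ?_
  rw [mul_comm]
  rfl

theorem coe_monU {F : Type} [Field F] {A : Type} [CommRing A] (φ : A →+* F) (Z : Fin d → Aˣ)
    (u : Fin d → ℤ) : φ ((monU Z u : Aˣ) : A) = ∏ j, (φ (Z j : A)) ^ u j := by
  unfold monU
  rw [Units.coe_prod, map_prod]
  refine Finset.prod_congr rfl fun j _ => ?_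
  have h1 : Units.map (φ : A →* F) (Z j ^ u j) = (Units.map (φ : A →* F) (Z j)) ^ u j :=
    map_zpow _ _ _
  have h2 := congrArg (Units.val) h1
  rw [Units.val_zpow_eq_zpow_val] at h2
  exact h2

/-! ### limits along the ultrafilter -/

abbrev 𝒰 : Ultrafilter ℕ := hyperfilter ℕ

theorem exists_lim (w : ℕ → ℂ) (h : ∀ᶠ n in (𝒰 : Filter ℕ), ‖w n‖ ≤ 1) :
    ∃ c, Tendsto w (𝒰 : Filter ℕ) (𝓝 c) := by
  have h1 : (𝒰.map w : Filter ℂ) ≤ 𝓟 (Metric.closedBall 0 1) := by
    rw [le_principal_iff]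
    show ∀ᶠ n in (𝒰 : Filter ℕ), w n ∈ Metric.closedBall (0 : ℂ) 1
    simpa using h
  obtain ⟨c, _, hc⟩ := (isCompact_closedBall (0 : ℂ) 1).ultrafilter_le_nhds (𝒰.map w) h1
  exact ⟨c, hc⟩

/-! ### the ideal of the sequence and the transfer principle -/

section transfer

variable {ι : Type} [Fintype ι]

/-- the polynomials which vanish along the sequence, for almost all `n` -/
def idl (x : ℕ → ι → ℂ) : Ideal (MvPolynomial ι ℂ) where
  carrier := {F | ∀ᶠ n in (𝒰 : Filter ℕ), MvPolynomial.eval (x n) F = 0}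
  zero_mem' := by
    show ∀ᶠ n in (𝒰 : Filter ℕ), MvPolynomial.eval (x n) 0 = 0
    simp
  add_mem' := by
    intro a b ha hb
    filter_upwards [ha, hb] with n h1 h2
    rw [map_add, h1, h2, add_zero]
  smul_mem' := by
    intro c a ha
    filter_upwards [ha] with n h1
    rw [smul_eq_mul, map_mul, h1, mul_zero]

theorem mem_idl {x : ℕ → ι → ℂ} {F : MvPolynomial ι ℂ} :
    F ∈ idl x ↔ ∀ᶠ n in (𝒰 : Filter ℕ), MvPolynomial.eval (x n) F = 0 := Iff.rfl

theorem idl_prime (x : ℕ → ι → ℂ) : (idl x).IsPrime := by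
  refine ⟨?_, ?_⟩
  · intro h
    have h1 : (1 : MvPolynomial ι ℂ) ∈ idl x := by rw [h]; trivial
    rw [mem_idl] at h1
    obtain ⟨n, hn⟩ := h1.exists
    rw [map_one] at hn
    exact one_ne_zero hn
  · intro a b hab
    rw [mem_idl] at hab
    rw [mem_idl, mem_idl]
    have h1 : ∀ᶠ n in (𝒰 : Filter ℕ), MvPolynomial.eval (x n) a = 0 ∨
        MvPolynomial.eval (x n) b = 0 := by
      filter_upwards [hab] with n hn
      rw [map_mul] at hn
      exact mul_eq_zero.1 hn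
    exact Ultrafilter.eventually_or.1 h1

theorem idl_eval {x : ℕ → ι → ℂ} {c : ι → ℂ}
    (hc : ∀ k, Tendsto (fun n => x n k) (𝒰 : Filter ℕ) (𝓝 (c k))) {F : MvPolynomial ι ℂ}
    (hF : F ∈ idl x) : MvPolynomial.eval c F = 0 := by
  have h1 : Tendsto x (𝒰 : Filter ℕ) (𝓝 c) := tendsto_pi_nhds.2 hc
  have h2 : Tendsto (fun n => MvPolynomial.eval (x n) F) (𝒰 : Filter ℕ)
      (𝓝 (MvPolynomial.eval c F)) :=
    ((MvPolynomial.continuous_eval F).tendsto c).comp h1
  have h3 : Tendsto (fun n => MvPolynomial.eval (x n) F) (𝒰 : Filter ℕ) (𝓝 0) :=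
    (tendsto_congr' (mem_idl.1 hF)).2 tendsto_const_nhds
  exact tendsto_nhds_unique h2 h3

variable (g : MvPolynomial ι ℂ) (ψ : MvPolynomial ι ℂ →ₐ[ℂ] PowerSeries ℂ)

/-- the localization -/
abbrev Loc : Type := Localization.Away g

/-- `ψ` with values in the Laurent series -/
def ψK : MvPolynomial ι ℂ →+* K := (HahnSeries.ofPowerSeries ℤ ℂ).comp ψ.toRingHom

theorem ψK_apply (F : MvPolynomial ι ℂ) : ψK ψ F = ((ψ F : PowerSeries ℂ) : K) := rfl

theorem ψK_unit (hg : ψ g ≠ 0) : IsUnit (ψK ψ g) := by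
  rw [isUnit_iff_ne_zero, ψK_apply]
  intro h
  exact hg (HahnSeries.ofPowerSeries_injective (Γ := ℤ) (R := ℂ) (by rw [h, map_zero]))

/-- the extension of `ψ` to the localization -/
def ψL (hg : ψ g ≠ 0) : Loc g →+* K := IsLocalization.Away.lift g (ψK_unit g ψ hg)

theorem ψL_alg (hg : ψ g ≠ 0) (F : MvPolynomial ι ℂ) :
    ψL g ψ hg (algebraMap _ (Loc g) F) = ((ψ F : PowerSeries ℂ) : K) :=
  IsLocalization.Away.lift_eq g (ψK_unit g ψ hg) F

/-- the evaluation at `x n` on the localization -/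
def evL {y : ι → ℂ} (h : IsUnit (MvPolynomial.eval y g)) : Loc g →+* ℂ :=
  IsLocalization.Away.lift g h

theorem evL_alg {y : ι → ℂ} (h : IsUnit (MvPolynomial.eval y g)) (F : MvPolynomial ι ℂ) :
    evL g h (algebraMap _ (Loc g) F) = MvPolynomial.eval y F :=
  IsLocalization.Away.lift_eq g h F

/-- the transfer principle -/
theorem transfer {x : ℕ → ι → ℂ} (hI : ∀ F ∈ idl x, ψ F = 0) (hg : ψ g ≠ 0)
    (hgx : ∀ᶠ n in (𝒰 : Filter ℕ), MvPolynomial.eval (x n) g ≠ 0) (E : Loc g)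
    (hE : ∀ᶠ n in (𝒰 : Filter ℕ), ∀ h : IsUnit (MvPolynomial.eval (x n) g), evL g h E = 0) :
    ψL g ψ hg E = 0 := by
  obtain ⟨k, F, hF⟩ := IsLocalization.Away.surj g E
  have h1 : F ∈ idl x := by
    rw [mem_idl]
    filter_upwards [hE, hgx] with n h2 h3
    have h4 : IsUnit (MvPolynomial.eval (x n) g) := isUnit_iff_ne_zero.2 h3
    have h5 := congrArg (evL g h4) hF
    rw [map_mul, h2 h4, zero_mul, evL_alg] at h5
    exact h5.symm
  have h2 := congrArg (ψL g ψ hg) hF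
  rw [map_mul, map_pow, ψL_alg, ψL_alg, hI F h1] at h2
  have h3 : ((ψ g : PowerSeries ℂ) : K) ≠ 0 := (ψK_unit g ψ hg).ne_zero
  rw [show (((0 : PowerSeries ℂ)) : K) = 0 from map_zero _] at h2
  rcases mul_eq_zero.1 h2 with h4 | h4
  · exact h4
  · exact absurd h4 (pow_ne_zero _ h3)

end transfer

/-! ### the core of the argument -/

section core

variable {m : ℕ} {f : Fin m → Lau d} {z : ℕ → Fin d → ℂ} {μ : ℕ → Fin m → ℂ}
  {ι : Type} [Fintype ι] {x : ℕ → ι → ℂ} {c' : ι → ℂ} {iz : Fin d → ι} {im : Fin m → ι}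
  {bz : Fin d → Prop} {bm : Fin m → Prop}

open Classical in
/-- the product of the inverted coordinates -/
def gg (iz : Fin d → ι) (im : Fin m → ι) (bm : Fin m → Prop) : MvPolynomial ι ℂ :=
  (∏ j, MvPolynomial.X (iz j)) * ∏ i, (if bm i then 1 else MvPolynomial.X (im i))

theorem inv_bd (w : ℕ → ℂ) (hw : ¬ ∀ᶠ n in (𝒰 : Filter ℕ), ‖w n‖ ≤ 1) :
    ∀ᶠ n in (𝒰 : Filter ℕ), 1 < ‖w n‖ := by
  rw [← Ultrafilter.eventually_not] at hw
  filter_upwards [hw] with n hn
  exact not_le.1 hn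

theorem gg_ne (hz : ∀ n, z n ∈ Tor d)
    (xz : ∀ n j, (bz j → x n (iz j) = z n j) ∧ (¬ bz j → x n (iz j) = (z n j)⁻¹))
    (xm : ∀ n i, (bm i → x n (im i) = μ n i) ∧ (¬ bm i → x n (im i) = (μ n i)⁻¹))
    (hbm : ∀ i, ¬ bm i → ∀ᶠ n in (𝒰 : Filter ℕ), 1 < ‖μ n i‖) :
    ∀ᶠ n in (𝒰 : Filter ℕ), MvPolynomial.eval (x n) (gg iz im bm) ≠ 0 := by
  have xz0 : ∀ n j, x n (iz j) ≠ 0 := by
    intro n j
    by_cases hb : bz j
    · rw [(xz n j).1 hb]
      exact hz n j
    · rw [(xz n j).2 hb]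
      exact inv_ne_zero (hz n j)
  have h1 : ∀ᶠ n in (𝒰 : Filter ℕ), ∀ i, ¬ bm i → μ n i ≠ 0 := by
    rw [eventually_all]
    intro i
    by_cases hb : bm i
    · exact Eventually.of_forall fun n h => absurd hb h
    · filter_upwards [hbm i hb] with n hn _ h0
      rw [h0, norm_zero] at hn
      linarith
  filter_upwards [h1] with n hn
  unfold gg
  rw [map_mul, map_prod, map_prod]
  refine mul_ne_zero (Finset.prod_ne_zero_iff.2 fun j _ => ?_)
    (Finset.prod_ne_zero_iff.2 fun i _ => ?_)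
  · rw [MvPolynomial.eval_X]
    exact xz0 n j
  · by_cases hb : bm i
    · rw [if_pos hb, map_one]
      exact one_ne_zero
    · rw [if_neg hb, MvPolynomial.eval_X, (xm n i).2 hb]
      exact inv_ne_zero (hn i hb)

theorem Xz_unit (g : MvPolynomial ι ℂ) (hg : g = gg iz im bm) (j : Fin d) :
    IsUnit (algebraMap (MvPolynomial ι ℂ) (Loc g) (MvPolynomial.X (iz j))) := by
  refine isUnit_of_dvd_unit (map_dvd _ ?_) (IsLocalization.Away.algebraMap_isUnit g)
  rw [hg]
  unfold gg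
  exact (Finset.dvd_prod_of_mem (fun j => (MvPolynomial.X (iz j) : MvPolynomial ι ℂ))
    (Finset.mem_univ j)).trans (dvd_mul_right _ _)

theorem Xm_unit (g : MvPolynomial ι ℂ) (hg : g = gg iz im bm) (i : Fin m) (hb : ¬ bm i) :
    IsUnit (algebraMap (MvPolynomial ι ℂ) (Loc g) (MvPolynomial.X (im i))) := by
  classical
  refine isUnit_of_dvd_unit (map_dvd _ ?_) (IsLocalization.Away.algebraMap_isUnit g)
  rw [hg]
  unfold gg
  refine Dvd.dvd.trans ?_ (dvd_mul_left _ _)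
  have := Finset.dvd_prod_of_mem (fun i => if bm i then (1 : MvPolynomial ι ℂ) else
    MvPolynomial.X (im i)) (Finset.mem_univ i)
  rwa [if_neg hb] at this

/-- there are units `Z j` and elements `M i` of the localization whose values at `x n` are the
coordinates `z n j` and `μ n i` -/
theorem exists_ZM (hz : ∀ n, z n ∈ Tor d)
    (xz : ∀ n j, (bz j → x n (iz j) = z n j) ∧ (¬ bz j → x n (iz j) = (z n j)⁻¹))
    (xm : ∀ n i, (bm i → x n (im i) = μ n i) ∧ (¬ bm i → x n (im i) = (μ n i)⁻¹))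
    (g : MvPolynomial ι ℂ) (hg : g = gg iz im bm) :
    ∃ (Z : Fin d → (Loc g)ˣ) (M : Fin m → Loc g),
      (∀ n (h : IsUnit (MvPolynomial.eval (x n) g)) j, evL g h (Z j : Loc g) = z n j) ∧
      ∀ n (h : IsUnit (MvPolynomial.eval (x n) g)) i, evL g h (M i) = μ n i := by
  classical
  refine ⟨fun j => if bz j then (Xz_unit g hg j).unit else (Xz_unit g hg j).unit⁻¹,
    fun i => if hb : bm i then algebraMap (MvPolynomial ι ℂ) (Loc g) (MvPolynomial.X (im i)) else
      (((Xm_unit g hg i hb).unit⁻¹ : (Loc g)ˣ) : Loc g), ?_, ?_⟩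
  · intro n h j
    beta_reduce
    by_cases hb : bz j
    · rw [if_pos hb, IsUnit.unit_spec, evL_alg, MvPolynomial.eval_X, (xz n j).1 hb]
    · rw [if_neg hb]
      have h1 : evL g h (((Xz_unit g hg j).unit : (Loc g)ˣ) : Loc g) = (z n j)⁻¹ := by
        rw [IsUnit.unit_spec, evL_alg, MvPolynomial.eval_X, (xz n j).2 hb]
      have h2 : evL g h (((Xz_unit g hg j).unit : (Loc g)ˣ) : Loc g) *
          evL g h (((Xz_unit g hg j).unit⁻¹ : (Loc g)ˣ) : Loc g) = 1 := by
        rw [← map_mul, Units.mul_inv, map_one]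
      rw [h1] at h2
      exact ((inv_mul_eq_one₀ (hz n j)).1 h2).symm
  · intro n h i
    beta_reduce
    by_cases hb : bm i
    · rw [dif_pos hb, evL_alg, MvPolynomial.eval_X, (xm n i).1 hb]
    · rw [dif_neg hb]
      have h1 : evL g h (((Xm_unit g hg i hb).unit : (Loc g)ˣ) : Loc g) = (μ n i)⁻¹ := by
        rw [IsUnit.unit_spec, evL_alg, MvPolynomial.eval_X, (xm n i).2 hb]
      have h2 : evL g h (((Xm_unit g hg i hb).unit : (Loc g)ˣ) : Loc g) *
          evL g h (((Xm_unit g hg i hb).unit⁻¹ : (Loc g)ˣ) : Loc g) = 1 := by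
        rw [← map_mul, Units.mul_inv, map_one]
      rw [h1] at h2
      have h3 : μ n i ≠ 0 := by
        intro h0
        rw [h0, inv_zero, zero_mul] at h2
        exact zero_ne_one h2
      exact ((inv_mul_eq_one₀ h3).1 h2).symm

variable {g : MvPolynomial ι ℂ} {ψ : MvPolynomial ι ℂ →ₐ[ℂ] PowerSeries ℂ}
  {Z : Fin d → (Loc g)ˣ} {M : Fin m → Loc g}

theorem evmon (evZ : ∀ n (h : IsUnit (MvPolynomial.eval (x n) g)) j,
    evL g h (Z j : Loc g) = z n j) (n : ℕ) (h : IsUnit (MvPolynomial.eval (x n) g))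
    (u : Fin d → ℤ) : evL g h ((monU Z u : (Loc g)ˣ) : Loc g) = mon (z n) u := by
  rw [coe_monU]
  unfold mon
  exact Finset.prod_congr rfl fun j _ => by rw [evZ]

theorem algC {y : ι → ℂ} (h : IsUnit (MvPolynomial.eval y g)) (a : ℂ) :
    evL g h (algebraMap ℂ (Loc g) a) = a := by
  rw [IsScalarTower.algebraMap_apply ℂ (MvPolynomial ι ℂ) (Loc g), evL_alg,
    MvPolynomial.algebraMap_eq, MvPolynomial.eval_C]

theorem algKC (a : ℂ) : algebraMap ℂ K a = HahnSeries.C a := by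
  rw [HahnSeries.algebraMap_apply']
  exact PowerSeries.coe_C (R := ℂ) a

theorem algK (hg : ψ g ≠ 0) (a : ℂ) :
    ψL g ψ hg (algebraMap ℂ (Loc g) a) = HahnSeries.C a := by
  rw [IsScalarTower.algebraMap_apply ℂ (MvPolynomial ι ℂ) (Loc g), ψL_alg,
    AlgHom.commutes]
  exact PowerSeries.coe_C (R := ℂ) a

/-- the arc -/
def arc (Z : Fin d → (Loc g)ˣ) (hg : ψ g ≠ 0) (j : Fin d) : Kˣ :=
  Units.map (ψL g ψ hg : Loc g →* K) (Z j)

theorem arcmon (hg : ψ g ≠ 0) (u : Fin d → ℤ) :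
    ψL g ψ hg ((monU Z u : (Loc g)ˣ) : Loc g) = ((monU (arc Z hg) u : Kˣ) : K) := by
  have h1 : Units.map (ψL g ψ hg : Loc g →* K) (monU Z u) = monU (arc Z hg) u := by
    unfold monU
    rw [map_prod]
    simp only [map_zpow]
    rfl
  exact congrArg Units.val h1

/-- the sum `∑ a(u) Z^u` -/
def ee (Z : Fin d → (Loc g)ˣ) (s : Finset (Fin d → ℤ)) (a : (Fin d → ℤ) → ℂ) : Loc g :=
  ∑ u ∈ s, algebraMap ℂ (Loc g) (a u) * ((monU Z u : (Loc g)ˣ) : Loc g)

theorem evee (evZ : ∀ n (h : IsUnit (MvPolynomial.eval (x n) g)) j,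
    evL g h (Z j : Loc g) = z n j) (n : ℕ) (h : IsUnit (MvPolynomial.eval (x n) g))
    (s : Finset (Fin d → ℤ)) (a : (Fin d → ℤ) → ℂ) :
    evL g h (ee Z s a) = ∑ u ∈ s, a u * mon (z n) u := by
  unfold ee
  rw [map_sum]
  exact Finset.sum_congr rfl fun u _ => by rw [map_mul, algC, evmon evZ]

theorem ψee (hg : ψ g ≠ 0) (s : Finset (Fin d → ℤ)) (a : (Fin d → ℤ) → ℂ) :
    ψL g ψ hg (ee Z s a) = ∑ u ∈ s, HahnSeries.C (a u) * ((monU (arc Z hg) u : Kˣ) : K) := by
  unfold ee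
  rw [map_sum]
  exact Finset.sum_congr rfl fun u _ => by rw [map_mul, algK, arcmon]

/-- the derivative of a relation -/
theorem rel (D : Derivation ℂ K K) (ζ : Fin d → Kˣ) (s : Finset (Fin d → ℤ))
    (a : (Fin d → ℤ) → ℂ)
    (h : ∑ u ∈ s, HahnSeries.C (a u) * ((monU ζ u : Kˣ) : K) = 0) :
    ∑ j, (D (ζ j : K) * (ζ j : K)⁻¹) *
      ∑ u ∈ s, HahnSeries.C (a u * (u j : ℂ)) * ((monU ζ u : Kˣ) : K) = 0 := by
  have h5 : D (∑ u ∈ s, HahnSeries.C (a u) * ((monU ζ u : Kˣ) : K)) = 0 := by rw [h, map_zero]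
  rw [map_sum] at h5
  have h6 : ∀ u ∈ s, D (HahnSeries.C (a u) * ((monU ζ u : Kˣ) : K)) =
      ∑ j, (D (ζ j : K) * (ζ j : K)⁻¹) *
        (HahnSeries.C (a u * (u j : ℂ)) * ((monU ζ u : Kˣ) : K)) := by
    intro u _
    have h7 : D (HahnSeries.C (a u)) = 0 := by
      rw [← algKC]
      exact Derivation.map_algebraMap D _
    rw [Derivation.leibniz, h7, smul_zero, add_zero, logD_monU,
      smul_eq_mul, Finset.mul_sum, Finset.mul_sum]
    refine Finset.sum_congr rfl fun j _ => ?_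
    rw [map_mul, map_intCast]
    ring
  rw [Finset.sum_congr rfl h6, Finset.sum_comm] at h5
  rw [← h5]
  exact Finset.sum_congr rfl fun j _ => by rw [Finset.mul_sum]

/-- the end of the proof, for abstract coordinates -/
theorem fin_step (h_CSL : T_CSL) (D : Derivation ℂ K K)
    (hD : ∀ x : LaurentSeries ℂ, x ≠ 0 → ∀ n : ℤ, n ≤ 0 →
      (D x * x⁻¹ - algebraMap ℂ (LaurentSeries ℂ) (x.order : ℂ)).coeff n = 0) (h_LGR : T_LGR)
    {r : Fin d → ℂ} {P : Finset (Fin d → ℤ)} {c : (Fin d → ℤ) → ℂ}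
    (hz : ∀ n, z n ∈ Tor d) (hf : ∀ n i, ev (f i) (z n) = 0)
    (hc : ∀ u ∈ P, Tendsto (fun n => mon (z n) u) atTop (𝓝 (c u)))
    (hr : Tendsto (fun n j => ∑ i, μ n i * lgr (f i) (z n) j) atTop (𝓝 r))
    (hle : (𝒰 : Filter ℕ) ≤ atTop)
    {iu : {u // u ∈ P} → ι} {iR : Fin d → ι}
    (xu : ∀ n u, x n (iu u) = mon (z n) u.1)
    (xR : ∀ n j, x n (iR j) = ∑ i, μ n i * lgr (f i) (z n) j)
    (xz : ∀ n j, (bz j → x n (iz j) = z n j) ∧ (¬ bz j → x n (iz j) = (z n j)⁻¹))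
    (xm : ∀ n i, (bm i → x n (im i) = μ n i) ∧ (¬ bm i → x n (im i) = (μ n i)⁻¹))
    (hbm : ∀ i, ¬ bm i → ∀ᶠ n in (𝒰 : Filter ℕ), 1 < ‖μ n i‖)
    (hc' : ∀ k, Tendsto (fun n => x n k) (𝒰 : Filter ℕ) (𝓝 (c' k))) :
    ∃ a : Fin d → ℤ, (∀ u ∈ P, 0 ≤ ∑ j, a j * u j ∧ (∑ j, a j * u j = 0 ↔ c u ≠ 0)) ∧
      ∑ j, (a j : ℂ) * r j = 0 := by
  obtain ⟨g, hgg⟩ : ∃ g : MvPolynomial ι ℂ, g = gg iz im bm := ⟨_, rfl⟩
  have hgx : ∀ᶠ n in (𝒰 : Filter ℕ), MvPolynomial.eval (x n) g ≠ 0 := by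
    rw [hgg]
    exact gg_ne hz xz xm hbm
  have hgI : g ∉ idl x := by
    intro h
    rw [mem_idl] at h
    obtain ⟨n, h1, h2⟩ := (h.and hgx).exists
    exact h2 h1
  obtain ⟨ψ, hI, hg, hcc⟩ := h_CSL ι (idl x) (idl_prime x) c' (fun F hF => idl_eval hc' hF) g hgI
  obtain ⟨Z, M, evZ, evM⟩ := exists_ZM hz xz xm g hgg
  have ev1 : ∀ i, ∑ u ∈ (f i).support,
      HahnSeries.C (f i u) * ((monU (arc Z hg) u : Kˣ) : K) = 0 := by
    intro i
    have h1 : ψL g ψ hg (ee Z (f i).support (f i)) = 0 := by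
      refine transfer g ψ hI hg hgx _ (Eventually.of_forall fun n h => ?_)
      rw [evee evZ]
      exact hf n i
    rwa [ψee] at h1
  have ev2 : ∀ u : {u // u ∈ P}, ((ψ (MvPolynomial.X (iu u)) : PowerSeries ℂ) : K) =
      ((monU (arc Z hg) u.1 : Kˣ) : K) := by
    intro u
    have h1 : ψL g ψ hg (algebraMap (MvPolynomial ι ℂ) (Loc g) (MvPolynomial.X (iu u)) -
        ((monU Z u.1 : (Loc g)ˣ) : Loc g)) = 0 := by
      refine transfer g ψ hI hg hgx _ (Eventually.of_forall fun n h => ?_)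
      rw [map_sub, evL_alg, MvPolynomial.eval_X, evmon evZ, xu, sub_self]
    rw [map_sub, ψL_alg, arcmon, sub_eq_zero] at h1
    exact h1
  have ev3 : ∀ j, ((ψ (MvPolynomial.X (iR j)) : PowerSeries ℂ) : K) =
      ∑ i, ψL g ψ hg (M i) * ∑ u ∈ (f i).support,
        HahnSeries.C (f i u * (u j : ℂ)) * ((monU (arc Z hg) u : Kˣ) : K) := by
    intro j
    have h1 : ψL g ψ hg (algebraMap (MvPolynomial ι ℂ) (Loc g) (MvPolynomial.X (iR j)) -
        ∑ i, M i * ee Z (f i).support (fun u => f i u * (u j : ℂ))) = 0 := by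
      refine transfer g ψ hI hg hgx _ (Eventually.of_forall fun n h => ?_)
      rw [map_sub, evL_alg, MvPolynomial.eval_X, xR, map_sum, sub_eq_zero]
      refine Finset.sum_congr rfl fun i _ => ?_
      rw [map_mul, evM, h_LGR d (f i) (z n) (hz n) j, evee evZ]
      rfl
    rw [map_sub, ψL_alg, sub_eq_zero, map_sum] at h1
    rw [h1]
    exact Finset.sum_congr rfl fun i _ => by rw [map_mul, ψee]
  have h7 : ∑ j, (D (arc Z hg j : K) * (arc Z hg j : K)⁻¹) *
      ((ψ (MvPolynomial.X (iR j)) : PowerSeries ℂ) : K) = 0 := by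
    simp only [ev3, Finset.mul_sum (s := Finset.univ)]
    rw [Finset.sum_comm]
    refine Finset.sum_eq_zero fun i _ => ?_
    have h8 := rel D (arc Z hg) _ _ (ev1 i)
    have h9 := congrArg (fun y : K => ψL g ψ hg (M i) * y) h8
    simp only [mul_zero] at h9
    rw [← h9, Finset.mul_sum]
    exact Finset.sum_congr rfl fun j _ => by ring
  refine ⟨fun j => (arc Z hg j : K).order, ?_, ?_⟩
  · intro u hu
    have h8 := ev2 ⟨u, hu⟩
    have h9 := ord_monU (arc Z hg) u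
    rw [← h8] at h9
    obtain ⟨F, hF⟩ : ∃ F : PowerSeries ℂ, F = ψ (MvPolynomial.X (iu ⟨u, hu⟩)) := ⟨_, rfl⟩
    rw [← hF] at h8 h9
    have hF0 : (F : K) ≠ 0 := by rw [h8]; exact (monU (arc Z hg) u).ne_zero
    have hFc : PowerSeries.constantCoeff F = c u := by
      rw [hF, hcc, MvPolynomial.eval_X]
      refine tendsto_nhds_unique (hc' (iu ⟨u, hu⟩)) ?_
      exact ((hc u hu).mono_left hle).congr fun n => (xu n ⟨u, hu⟩).symm
    have h12 : (F : K).coeff (F : K).order ≠ 0 := fun h =>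
      hF0 (HahnSeries.coeff_order_eq_zero.1 h)
    have h10 : 0 ≤ (F : K).order := by
      by_contra hcon
      push Not at hcon
      exact h12 (coeff_coe_neg F hcon)
    rw [← h9]
    refine ⟨h10, ?_, ?_⟩
    · intro h11
      rw [h11, coeff_coe_zero, hFc] at h12
      exact h12
    · intro h11
      rw [← hFc, ← coeff_coe_zero] at h11
      exact le_antisymm (HahnSeries.order_le_of_coeff_ne_zero h11) h10
  · have h8 := congrArg (fun y : K => y.coeff 0) h7
    beta_reduce at h8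
    rw [HahnSeries.coeff_sum, HahnSeries.coeff_zero] at h8
    rw [← h8]
    refine Finset.sum_congr rfl fun j _ => ?_
    have h9 : ∀ n : ℤ, n ≤ 0 → (D (arc Z hg j : K) * (arc Z hg j : K)⁻¹).coeff n =
        (HahnSeries.C ((arc Z hg j : K).order : ℂ)).coeff n := by
      intro n hn
      have := hD (arc Z hg j : K) (arc Z hg j).ne_zero n hn
      rw [HahnSeries.coeff_sub, sub_eq_zero, algKC] at this
      exact this
    rw [coeff_zero_mul, coeff_coe_zero, h9 0 le_rfl, coeff_C', hcc,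
      MvPolynomial.eval_X]
    · rw [if_pos rfl]
      congr 1
      refine tendsto_nhds_unique ?_ (hc' (iR j))
      exact (((tendsto_pi_nhds.1 hr) j).mono_left hle).congr fun n => (xR n j).symm
    · intro n hn
      rw [h9 n hn.le, coeff_C', if_neg hn.ne]
    · intro n hn
      exact coeff_coe_neg _ hn

end core

end ARC_

open ARC_ in
theorem p_ARC (h_CSL : T_CSL) (h_DER : T_DER) (h_LGR : T_LGR) : T_ARC := by
  classical
  intro d m f z μ r P c hz hf hc hr
  obtain ⟨D, hD⟩ := h_DER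
  -- the coordinates
  let bz : Fin d → Prop := fun j => ∀ᶠ n in (𝒰 : Filter ℕ), ‖z n j‖ ≤ 1
  let bm : Fin m → Prop := fun i => ∀ᶠ n in (𝒰 : Filter ℕ), ‖μ n i‖ ≤ 1
  let ι : Type := {u // u ∈ P} ⊕ (Fin d ⊕ (Fin d ⊕ Fin m))
  let iu : {u // u ∈ P} → ι := fun u => Sum.inl u
  let iR : Fin d → ι := fun j => Sum.inr (Sum.inl j)
  let iz : Fin d → ι := fun j => Sum.inr (Sum.inr (Sum.inl j))
  let im : Fin m → ι := fun i => Sum.inr (Sum.inr (Sum.inr i))
  obtain ⟨x, xu, xR, xz, xm⟩ : ∃ x : ℕ → ι → ℂ, (∀ n u, x n (iu u) = mon (z n) u.1) ∧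
      (∀ n j, x n (iR j) = ∑ i, μ n i * lgr (f i) (z n) j) ∧
      (∀ n j, (bz j → x n (iz j) = z n j) ∧ (¬ bz j → x n (iz j) = (z n j)⁻¹)) ∧
      (∀ n i, (bm i → x n (im i) = μ n i) ∧ (¬ bm i → x n (im i) = (μ n i)⁻¹)) := by
    refine ⟨fun n k => Sum.elim (fun u : {u // u ∈ P} => mon (z n) u.1)
      (Sum.elim (fun j => ∑ i, μ n i * lgr (f i) (z n) j)
        (Sum.elim (fun j => if bz j then z n j else (z n j)⁻¹)
          (fun i => if bm i then μ n i else (μ n i)⁻¹))) k, fun n u => rfl, fun n j => rfl,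
            fun n j => ⟨fun h => ?_, fun h => ?_⟩, fun n j => ⟨fun h => ?_, fun h => ?_⟩⟩
    · simp [iz, h]
    · simp [iz, h]
    · simp [im, h]
    · simp [im, h]
  have hle : (𝒰 : Filter ℕ) ≤ atTop := Nat.hyperfilter_le_atTop
  -- the limits of the coordinates
  have hlim : ∀ k : ι, ∃ c', Tendsto (fun n => x n k) (𝒰 : Filter ℕ) (𝓝 c') := by
    intro k
    rcases k with u | j | j | i
    · exact ⟨c u.1, ((hc u.1 u.2).mono_left hle).congr fun n => (xu n u).symm⟩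
    · exact ⟨r j, (((tendsto_pi_nhds.1 hr) j).mono_left hle).congr fun n => (xR n j).symm⟩
    · refine exists_lim _ ?_
      by_cases hb : bz j
      · filter_upwards [hb] with n hn
        rw [(xz n j).1 hb]
        exact hn
      · filter_upwards [inv_bd _ hb] with n hn
        rw [(xz n j).2 hb, norm_inv]
        exact inv_le_one_of_one_le₀ hn.le
    · refine exists_lim _ ?_
      by_cases hb : bm i
      · filter_upwards [hb] with n hn
        rw [(xm n i).1 hb]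
        exact hn
      · filter_upwards [inv_bd _ hb] with n hn
        rw [(xm n i).2 hb, norm_inv]
        exact inv_le_one_of_one_le₀ hn.le
  choose c' hc' using hlim
  have hxx : ∀ i, ¬ bm i → ∀ᶠ n in (𝒰 : Filter ℕ), 1 < ‖μ n i‖ := fun i hb => inv_bd _ hb
  exact fin_step h_CSL D hD h_LGR hz hf hc hr hle xu xR xz xm hxx hc'

end LDF
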