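import Pool.Agent.LDF.T

/-!
# LDF: LGR (formula of the logarithmic gradient)
-/

set_option autoImplicit false

noncomputable section

namespace LDF

namespace LGR_

theorem mon_update {d : ℕ} (z : Fin d → ℂ) (j : Fin d) (w : ℂ) (m : Fin d → ℤ) :
    mon (Function.update z j w) m = w ^ m j * ∏ i ∈ Finset.univ.erase j, z i ^ m i := by
  unfold mon
  rw [← Finset.mul_prod_erase Finset.univ _ (Finset.mem_univ j), Function.update_self]
  congr 1
  apply Finset.prod_congr rfl
  intro i hi
  rw [Function.update_of_ne (Finset.ne_of_mem_erase hi)]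

theorem mon_eq {d : ℕ} (z : Fin d → ℂ) (j : Fin d) (m : Fin d → ℤ) :
    mon z m = z j ^ m j * ∏ i ∈ Finset.univ.erase j, z i ^ m i := by
  have h := mon_update z j (z j) m
  rw [Function.update_eq_self] at h
  exact h

theorem hasDeriv_mon {d : ℕ} (z : Fin d → ℂ) (j : Fin d) (hz : z j ≠ 0) (m : Fin d → ℤ) :
    HasDerivAt (fun w => mon (Function.update z j w) m)
      ((m j : ℂ) * z j ^ (m j - 1) * ∏ i ∈ Finset.univ.erase j, z i ^ m i) (z j) := by
  have h1 : (fun w => mon (Function.update z j w) m) =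
      fun w => w ^ m j * ∏ i ∈ Finset.univ.erase j, z i ^ m i := by
    funext w
    exact mon_update z j w m
  rw [h1]
  exact (hasDerivAt_zpow (m j) (z j) (Or.inl hz)).mul_const _

theorem hasDeriv_ev {d : ℕ} (Q : Lau d) (z : Fin d → ℂ) (j : Fin d) (hz : z j ≠ 0) :
    HasDerivAt (fun w => ev Q (Function.update z j w))
      (∑ m ∈ Q.support, Q m *
        ((m j : ℂ) * z j ^ (m j - 1) * ∏ i ∈ Finset.univ.erase j, z i ^ m i)) (z j) := by
  have h1 : (fun w => ev Q (Function.update z j w)) =
      fun w => ∑ m ∈ Q.support, Q m * mon (Function.update z j w) m := by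
    funext w
    rfl
  rw [h1]
  apply HasDerivAt.fun_sum
  intro m _
  exact (hasDeriv_mon z j hz m).const_mul (Q m)

end LGR_

open LGR_ in
theorem p_LGR : T_LGR := by
  intro d Q z hz j
  have hzj : z j ≠ 0 := hz j
  unfold lgr
  rw [(hasDeriv_ev Q z j hzj).deriv, Finset.mul_sum, Finsupp.sum]
  apply Finset.sum_congr rfl
  intro m _
  rw [mon_eq z j m]
  have h : z j * z j ^ (m j - 1) = z j ^ m j := by
    rw [← zpow_one_add₀ hzj]
    congr 1
    ring
  rw [← h]
  ring

end LDF
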