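import Pool.Agent.LDF.Defs

/-!
# LDF: targets (complete proofs in the docstrings)
-/

set_option autoImplicit false

open Filter Topology
open scoped Pointwise

noncomputable section

namespace LDF

/-! ### Section A: algebraic curve selection -/

/-- EXP.  A discrete valuation ring containing `ℂ`, with residue field `ℂ`, embeds in `ℂ[[s]]`.
Let `π` be a uniformizer (`IsDiscreteValuationRing.exists_irreducible`).  Choose `c : R → ℂ` with
`x - c x ∈ 𝔪` (unique, since `ℂ ∩ 𝔪 = 0`: a nonzero constant is a unit) and `q : R → R` with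
`x = c x + π * q x` (`𝔪 = (π)`).  The coefficients of `ψ x` are `c (q^[n] x)`.  By induction
`x = ∑_{i<n} c (q^[i] x) π^i + π^n * q^[n] x`.  UNIQUENESS: if `x - ∑_{i<n} b i π^i ∈ (π^n)` then
`b i = c (q^[i] x)` for `i < n` (compare the first different coefficient: a difference of constants
times `π^i` would be in ` (π^(i+1))`, so a nonzero constant would be in `𝔪`).  Additivity,
multiplicativity (the coefficient `∑_{i+j=n}` of the product), compatibility with `ℂ` from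
uniqueness.  Injectivity: `ψ x = 0` gives `x ∈ (π^n)` for all `n`, so `x = 0`
(`IsDiscreteValuationRing`/Krull intersection, `Ideal.iInf_pow_eq_bot_of_isLocalRing`).
It may be easier to work with `R → R ⧸ 𝔪^n`, or to write `ψ x = PowerSeries.mk (fun n => c (q^[n] x))`
and to show that `x ≡ aeval π (trunc n (ψ x)) mod π^n`. -/
def T_EXP : Prop := ∀ (R : Type) [CommRing R] [IsDomain R] [IsDiscreteValuationRing R]
  [Algebra ℂ R], (∀ x : R, ∃ c : ℂ, x - algebraMap ℂ R c ∈ IsLocalRing.maximalIdeal R) →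
  ∃ ψ : R →ₐ[ℂ] PowerSeries ℂ, Function.Injective ψ ∧
    ∀ x : R, x ∈ IsLocalRing.maximalIdeal R → PowerSeries.constantCoeff (ψ x) = 0

/-- PLA (from EXP).  Let `B` be a domain, finite over `ℂ[T]`, and `st : B → ℂ` a homomorphism. Then
`B` embeds in `ℂ[[s]]` such that the constant term is `st`.
Proof: regard `B` as a `ℂ[T]`-algebra via `j`; `K = FractionRing B` is a finite extension of
`F = FractionRing ℂ[T]` (or of `RatFunc ℂ`; e.g. `IsFractionRing` and integrality of `B`; finite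
because `B` is a finite module), separable since `F` has characteristic zero.
`C = integralClosure ℂ[T] K` is a Dedekind domain (`integralClosure.isDedekindDomain`), and
`B ⊆ C` (elements of `B` are integral over `ℂ[T]`), `C` integral over `B`.
`ker st` is a maximal ideal of `B`; there is a maximal ideal `n` of `C` lying over it
(`Ideal.exists_ideal_over_maximal_of_isIntegral` or `Ideal.exists_ideal_over_prime_of_isIntegral`).
`n ≠ ⊥` since `T - st (j T) ∈ ker st` is not zero. `R = Localization.AtPrime n` is a discrete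
valuation ring (`IsLocalization.AtPrime.isDiscreteValuationRing_of_dedekind_domain`).
Its residue field is `C ⧸ n`, which is integral over `ℂ[T] ⧸ (T - st (j T)) = ℂ`, hence equal to
`ℂ` (algebraically closed: `IsAlgClosed.algebraMap_bijective_of_isIntegral`); so the hypothesis of
EXP holds. Compose `B → C → R → ℂ[[s]]` (all injective).  For `b : B` the element `b - st b` is in
`ker st`, so its image is in the maximal ideal of `R` and the constant term is `0`. -/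
def T_PLA : Prop := ∀ (B : Type) [CommRing B] [IsDomain B] [Algebra ℂ B]
  (j : Polynomial ℂ →ₐ[ℂ] B), Function.Injective j → j.toRingHom.Finite → ∀ st : B →ₐ[ℂ] ℂ,
  ∃ ψ : B →ₐ[ℂ] PowerSeries ℂ, Function.Injective ψ ∧
    ∀ b : B, PowerSeries.constantCoeff (ψ b) = st b

/-- LIN.  If `h` is a nonzero polynomial and `h(c) = 0` there is a direction `w ≠ 0` with
`h(c + s w) ≠ 0` as a polynomial in `s`.  (There is a point `y` with `h(y) ≠ 0`, `ℂ` is infinite:
`MvPolynomial.funext`; take `w = y - c`, evaluate at `s = 1`; `w ≠ 0` since `h(c) = 0`.)  The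
homomorphism `X i ↦ C (c i) + T * C (w i)` is surjective: if `w i ≠ 0` then
`T = (X i - c i)/w i`. -/
def T_LIN : Prop := ∀ (n : ℕ) (h : MvPolynomial (Fin n) ℂ) (c : Fin n → ℂ), h ≠ 0 →
  MvPolynomial.eval c h = 0 → ∃ l : MvPolynomial (Fin n) ℂ →ₐ[ℂ] Polynomial ℂ,
    Function.Surjective l ∧ l h ≠ 0 ∧ ∀ F, (l F).eval 0 = MvPolynomial.eval c F

/-- GD (from LIN).  A curve through the point `c` of the variety of the prime ideal `I`, not
contained in `g = 0`.
Proof: `A = ℂ[X] ⧸ I` is a finitely generated domain. Noether normalization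
(`exists_finite_inj_algHom_of_fg`): an injective finite homomorphism `θ : P = ℂ[x_1..x_n] → A`.
Let `ev : A → ℂ` be the evaluation at `c` (well defined since it kills `I`) and `c' : Fin n → ℂ`,
`c' i = ev (θ (x i))`.  The class `ḡ ≠ 0` is integral over `P`, so there is `h ≠ 0` in `P` with
`θ h ∈ (ḡ)` (constant term of an integral equation of minimal degree;
`exists_ne_zero_mem_ideal...`/ `Ideal.comap_ne_bot_of_integral_mem`).  `ev ḡ = 0` gives
`h(c') = 0`.  LIN gives `l : P → ℂ[T]`; `p = ker l` is prime and `p ≤ ker (eval c')` since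
` (l F)(0) = F(c')`.  `P` is integrally closed (UFD), `A` is a domain, integral over `P`, so going
down holds (instance in `Mathlib/RingTheory/IntegralClosure/GoingDown.lean`,
`Ideal.exists_ideal_le_liesOver_of_le`): the maximal ideal `ker ev` of `A` lies over
`ker (eval c')`, so there is a prime `q ≤ ker ev` of `A` with `q` over `p`.  `ḡ ∉ q`: otherwise
`θ h ∈ q`, `h ∈ p`, `l h = 0`.  Let `Q` be the preimage of `q` in `ℂ[X]`; `ℂ[X] ⧸ Q = A ⧸ q` is
finite over `P ⧸ p = ℂ[T]` (`Ideal.quotientKerAlgEquivOfSurjective`), and `P ⧸ p → A ⧸ q` is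
injective because `q` lies over `p`. -/
def T_GD : Prop := ∀ (ι : Type) [Fintype ι] (I : Ideal (MvPolynomial ι ℂ)), I.IsPrime →
  ∀ (c : ι → ℂ), (∀ F ∈ I, MvPolynomial.eval c F = 0) → ∀ g : MvPolynomial ι ℂ, g ∉ I →
  MvPolynomial.eval c g = 0 → ∃ Q : Ideal (MvPolynomial ι ℂ), Q.IsPrime ∧ I ≤ Q ∧
    (∀ F ∈ Q, MvPolynomial.eval c F = 0) ∧ g ∉ Q ∧
    ∃ j : Polynomial ℂ →ₐ[ℂ] (MvPolynomial ι ℂ ⧸ Q), Function.Injective j ∧ j.toRingHom.Finite

/-- CSL (from GD, PLA).  Algebraic curve selection.  If `g(c) ≠ 0` take the constant map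
`F ↦ C (eval c F)`.  Otherwise GD gives `Q`; `B = ℂ[X] ⧸ Q` is a domain, `st : B → ℂ` the
evaluation at `c`; PLA gives `B → ℂ[[s]]`; compose with `ℂ[X] → B`. -/
def T_CSL : Prop := ∀ (ι : Type) [Fintype ι] (I : Ideal (MvPolynomial ι ℂ)), I.IsPrime →
  ∀ (c : ι → ℂ), (∀ F ∈ I, MvPolynomial.eval c F = 0) → ∀ g : MvPolynomial ι ℂ, g ∉ I →
  ∃ ψ : MvPolynomial ι ℂ →ₐ[ℂ] PowerSeries ℂ, (∀ F ∈ I, ψ F = 0) ∧ ψ g ≠ 0 ∧
    ∀ F, PowerSeries.constantCoeff (ψ F) = MvPolynomial.eval c F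

/-- DER.  The derivation `D = s d/ds` of `ℂ((s))`: ` (D x)_n = n x_n`.  Leibniz: coefficients of the
product (`HahnSeries.coeff_mul`, with supports enlarged by `HahnSeries.coeff_mul_left'` and
`HahnSeries.coeff_mul_right'`), ` (i + j) x_i y_j = i x_i y_j + j x_i y_j`.  For `x ≠ 0` of order
`a`: `D x - a x` has order `> a` or is zero, so ` (D x - a x) * x⁻¹` has only coefficients of
positive index (`HahnSeries.orderTop_mul` or `order_mul`, `order_inv`). -/
def T_DER : Prop := ∃ D : Derivation ℂ (LaurentSeries ℂ) (LaurentSeries ℂ),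
  ∀ x : LaurentSeries ℂ, x ≠ 0 → ∀ n : ℤ, n ≤ 0 →
    (D x * x⁻¹ - algebraMap ℂ (LaurentSeries ℂ) (x.order : ℂ)).coeff n = 0

/-! ### Section B: the necessary condition -/

/-- LGR.  Formula for the logarithmic gradient (derivative of a finite sum of monomials; the
monomial `mon (update z j w) m` is `w ^ m j * ∏_{i ≠ j} z i ^ m i`; `deriv_zpow`,
`z j * z j ^ (m j - 1) = z j ^ m j`). -/
def T_LGR : Prop := ∀ (d : ℕ) (Q : Lau d) (z : Fin d → ℂ), z ∈ Tor d → ∀ j,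
  lgr Q z j = Q.sum fun m c => c * (m j : ℂ) * mon z m

/-- ARC (from CSL, DER, LGR).  The main step.  See the blueprint; helper86 does it. -/
def T_ARC : Prop := ∀ (d m : ℕ) (f : Fin m → Lau d) (z : ℕ → Fin d → ℂ) (μ : ℕ → Fin m → ℂ)
  (r : Fin d → ℂ) (P : Finset (Fin d → ℤ)) (c : (Fin d → ℤ) → ℂ), (∀ n, z n ∈ Tor d) →
  (∀ n i, ev (f i) (z n) = 0) → (∀ u ∈ P, Tendsto (fun n => mon (z n) u) atTop (𝓝 (c u))) →
  Tendsto (fun n j => ∑ i, μ n i * lgr (f i) (z n) j) atTop (𝓝 r) →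
  ∃ a : Fin d → ℤ, (∀ u ∈ P, 0 ≤ ∑ j, a j * u j ∧ (∑ j, a j * u j = 0 ↔ c u ≠ 0)) ∧
    ∑ j, (a j : ℂ) * r j = 0

/-- NOE (from LGR).  Finitely many polynomials suffice for the logarithmic normal space.
`R = AddMonoidAlgebra ℂ (Fin d → ℤ)` is a finitely generated algebra (`ℤ^d` is a finitely
generated monoid), hence noetherian.  For `z` in the torus `ev · z` is a ring homomorphism on `R`
(the same coefficients) and `lgr (g * f) z = ev g z • lgr f z + ev f z • lgr g z`.  The ideal `I` of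
the `f : R` vanishing on `S` is generated by finitely many `f i`; for `f = ∑ g_i f_i` and `z ∈ S`,
`lgr f z = ∑ ev g_i z • lgr f_i z`. -/
def T_NOE : Prop := ∀ (d : ℕ) (S : Set (Fin d → ℂ)), S ⊆ Tor d →
  ∃ (m : ℕ) (f : Fin m → Lau d), (∀ i, ∀ y ∈ S, ev (f i) y = 0) ∧
    ∀ z ∈ S, logNormal S z ≤ Submodule.span ℂ (Set.range fun i => lgr (f i) z)

/-- GEO.  Faces and vertices.  Let `l` be the functional exposing `Γ`, `M = max l`.  A point
`x = ∑ λ_p p` of `conv V` (`λ_p ≥ 0`, sum 1; `mem_convexHull` for a finite set: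
`Finset.mem_convexHull` or `Set.Finite.convexHull_eq`) is in `Γ` iff `l x = M` iff all `p` with
`λ_p > 0` satisfy `l p = M`, i.e. `toR p ∈ Γ`.  (1) `Γ` is nonempty, so it contains some `toR v`.
(2) `l` is constant on `Γ`, so it vanishes on `vectorSpan ℝ Γ`; if `p - q` is in it and `q ∈ Γ`,
`l p = M`, `p ∈ Γ`.  (3) With `α = a·q` for `q ∈ Γ ∩ V`: `a·x ≥ α` on `conv V`, with equality iff
all `p` with `λ_p > 0` are in `Γ`, i.e. iff `x ∈ Γ`. -/
def T_GEO : Prop := ∀ (d : ℕ) (V : Finset (Fin d → ℤ)) (Γ : Set (Fin d → ℝ)),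
  IsFace (conv V) Γ → (∃ v ∈ V, toR v ∈ Γ) ∧
  (∀ p ∈ V, ∀ q ∈ V, toR q ∈ Γ → (toR (p - q) ∈ vectorSpan ℝ Γ ↔ toR p ∈ Γ)) ∧
  ∀ a : Fin d → ℤ, (∀ p ∈ V, ∀ q ∈ V, toR q ∈ Γ →
    0 ≤ ∑ j, a j * (p - q) j ∧ (∑ j, a j * (p - q) j = 0 ↔ toR p ∈ Γ)) → Exposes a (conv V) Γ

/-- ONE (from ARC, NOE, GEO).  The first part of `Main`: `N = conv V`,
`P = {p - q : p ∈ V, q ∈ V, toR q ∈ Γ}`; `ToOrbit` gives the limits `c u` for `u ∈ P` (`t = 1`) with
`c u ≠ 0 ↔ toR u ∈ vectorSpan ℝ Γ ↔ toR p ∈ Γ`.  NOE gives `f i`, and `ρ n = ∑ μ n i • lgr (f i)`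
(`Submodule.mem_span_range_iff_exists_fun`).  ARC gives `a`. -/
def T_ONE : Prop := ∀ (d : ℕ) (N Γ : Set (Fin d → ℝ)), IsPoly N → IsFace N Γ →
  ∀ (S : Set (Fin d → ℂ)) (r : Fin d → ℂ), S ⊆ Tor d → IsLim N Γ S r → Ort N Γ r

/-! ### Section C: sharpness -/

/-- ROOT.  A polynomial of degree at most `n` with `p(0) ≠ 0`, `p'(0) ≠ 0` has a root `τ` with
`|τ| ≤ n |p(0)/p'(0)|`; if `p(0) = 0` take `τ = 0`.  (`p` splits, `p = c ∏ (X - τ_i)`,
`p'(0)/p(0) = -∑ 1/τ_i`: `Polynomial.eval_derivative_div_eval_of_ne_zero_of_splits` or similar;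
if all `|τ_i| > n |p(0)/p'(0)|` then `|∑ 1/τ_i| < |p'(0)/p(0)|`.) -/
def T_ROOT : Prop := ∀ (n : ℕ) (p : Polynomial ℂ), p.natDegree ≤ n → p.derivative.eval 0 ≠ 0 →
  ∃ τ : ℂ, p.eval τ = 0 ∧ ‖τ‖ ≤ n * ‖p.eval 0 / p.derivative.eval 0‖

/-- EXS (from ROOT).  Roots of exponential sums.  Multiply by ` (1 + τ)^M`, `M` so large that all
exponents `e i + M` are nonnegative: `p_n = ∑ c n i (1 + X)^(e i + M)` has bounded degree,
`p_n(0) = ∑ c n i → 0`, `p_n'(0) = ∑ c n i (e i + M) → ∑ c' i e i ≠ 0`.  ROOT (for `n` large)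
gives `τ n → 0`; then `1 + τ n ≠ 0` for large `n` and the factor ` (1 + τ)^M` can be removed.  For
the finitely many other `n` put `τ n = 0`. -/
def T_EXS : Prop := ∀ (ι : Type) (A : Finset ι) (e : ι → ℤ) (c : ℕ → ι → ℂ) (c' : ι → ℂ),
  (∀ i ∈ A, Tendsto (fun n => c n i) atTop (𝓝 (c' i))) → ∑ i ∈ A, c' i = 0 →
  ∑ i ∈ A, c' i * (e i : ℂ) ≠ 0 → ∃ τ : ℕ → ℂ, Tendsto τ atTop (𝓝 0) ∧
    ∀ᶠ n in atTop, 1 + τ n ≠ 0 ∧ ∑ i ∈ A, c n i * (1 + τ n) ^ e i = 0

/-- VEX.  The vertices suffice: `V' = {v ∈ V : toR v is an extreme point of conv V}`.  Krein-Milman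
(`closure_convexHull_extremePoints`, `conv V` is compact and convex), the extreme points are in
`toR '' V` (`extremePoints_convexHull_subset`) and the convex hull of a finite set is closed. -/
def T_VEX : Prop := ∀ (d : ℕ) (V : Finset (Fin d → ℤ)), ∃ V' : Finset (Fin d → ℤ), V' ⊆ V ∧
  conv V' = conv V ∧ ∀ v ∈ V', toR v ∈ (conv V).extremePoints ℝ

/-- LAT.  Lattice points for the construction.  `Γ ≠ N = conv V` is exposed by the integer vector
`a`, `r` is orthogonal to `a`.  There are `k ≥ 3`, `0 < L < k` and a finitely supported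
family `g` of coefficients on lattice points of `k N` at the height `L` (above the minimum `k α`
of `a` on `k N`), which are not multiples `k v` of points `v ∈ V`, with `∑ g = 0`
and `∑ g_m m = r`.
Proof: fix `p ∈ V`, `toR p ∈ Γ`, `α = a·p`, `h_v = a·v - α ≥ 0` for `v ∈ V`, `h_v = 0` iff
`toR v ∈ Γ`, and `v₀ ∈ V` with `h_{v₀} > 0`.  `L = ∏ {h_v : h_v > 0}`, `k = L + 3`.  Points: for `h_v > 0`
`m_v = k p + (L/h_v)(v - p)`; for `h_v = 0` `m_v = m_{v₀} + (v - p)`.  They lie in `k N`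
(coefficients `≥ 0` with sum `≤ k`), at height `L`; `k v'` has height `0` or `≥ k > L`.
Every `x ∈ ℂ^d` with `a·x = 0` is a combination of the `m_v - m_{v₀}`: `x = ∑ c_v (v - p)` (the
`v - p` span `ℝ^d`, hence `ℂ^d`, because `N` has interior points), `∑ c_v h_v = 0`, and
`∑_{h_v>0} c_v (v - p) = ∑_{h_v>0} (c_v h_v/L)(m_v - k p) = ∑_{h_v>0} (c_v h_v/L)(m_v - m_{v₀})`.
So `g = ∑_v c'_v (δ_{m_v} - δ_{m_{v₀}})`. -/
def T_LAT : Prop := ∀ (d : ℕ) (V : Finset (Fin d → ℤ)) (Γ : Set (Fin d → ℝ)) (a : Fin d → ℤ),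
  (interior (conv V)).Nonempty → IsFace (conv V) Γ → Exposes a (conv V) Γ →
  (∃ v ∈ V, toR v ∉ Γ) → ∀ r : Fin d → ℂ, ∑ j, (a j : ℂ) * r j = 0 →
  ∃ (k L : ℕ) (g : Lau d), 3 ≤ k ∧ 0 < L ∧ L < k ∧
    (∀ m ∈ g.support, toR m ∈ (k : ℝ) • conv V) ∧
    (∀ m ∈ g.support, ∀ p ∈ V, toR p ∈ Γ → ∑ j, a j * m j = k * (∑ j, a j * p j) + L) ∧
    (∀ m ∈ g.support, ∀ v ∈ V, m ≠ (k : ℤ) • v) ∧ (g.sum fun _ c => c) = 0 ∧
    ∀ j, (g.sum fun m c => c * (m j : ℂ)) = r j

/-- LAT0.  The same for a direction `r` parallel to `Γ` (`dim Γ > 0`), with points of `3 Γ`: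
the points `2 p + v` for `v ∈ V ∩ Γ` different from `p`, and `p + 2 v₁` (`p ≠ v₁` in `V ∩ Γ`);
the differences ` (2 p + v) - (2 p + v₁) = v - v₁` and ` (p + 2 v₁) - (2 p + v₁) = v₁ - p` span
the span of the differences of `V ∩ Γ`, which is the complex span of `Γ - Γ` (the points of `Γ` are
convex combinations of `V ∩ Γ`, see GEO).  `2 p + v ≠ 3 v'` for `v' ∈ V` because `v'` is an
extreme point and ` (2 p + v)/3` is a proper convex combination.  `V ∩ Γ` has two different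
points since `dim Γ > 0`. -/
def T_LAT0 : Prop := ∀ (d : ℕ) (V : Finset (Fin d → ℤ)) (Γ : Set (Fin d → ℝ)),
  (∀ v ∈ V, toR v ∈ (conv V).extremePoints ℝ) → IsFace (conv V) Γ → 0 < fdim Γ →
  ∀ r : Fin d → ℂ, Par Γ r → ∃ g : Lau d, (∀ m ∈ g.support, toR m ∈ (3 : ℝ) • Γ) ∧
    (∀ m ∈ g.support, ∀ v ∈ V, m ≠ (3 : ℤ) • v) ∧ (g.sum fun _ c => c) = 0 ∧
    ∀ j, (g.sum fun m c => c * (m j : ℂ)) = r j

/-- DUAL.  A direction which is not parallel to `Γ` is detected by an integer vector orthogonal to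
`Γ - Γ`.  Suppose `w·r = 0` for all integer (hence for all rational) `w` orthogonal to the
differences `p - q` of points of `V ∩ Γ`.  The coordinates of `r` span a finite dimensional
`ℚ`-subspace of `ℂ`; with a basis `e_i` of it `r = ∑ e_i r_i`, `r_i ∈ ℚ^d`, and `w·r_i = 0` for all
`i` and all these `w`.  So `r_i` is in the double orthogonal complement of
`W = span_ℚ {p - q}`, which is `W` (e.g. `Subspace.dualAnnihilator_dualCoannihilator_eq`; or
Matrix rank).  So `r` is in the complex span: `Par Γ r`.  (`Γ` is contained in the convex hull of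
`V ∩ Γ`, see GEO, so `w` is orthogonal to all differences of points of `Γ`.) -/
def T_DUAL : Prop := ∀ (d : ℕ) (V : Finset (Fin d → ℤ)) (Γ : Set (Fin d → ℝ)),
  IsFace (conv V) Γ → ∀ r : Fin d → ℂ, ¬ Par Γ r → ∃ w : Fin d → ℤ,
    (∀ x ∈ Γ, ∀ y ∈ Γ, ∑ j, (w j : ℝ) * (x j - y j) = 0) ∧ ∑ j, (w j : ℂ) * r j ≠ 0

/-- INT.  A face is exposed by an integer vector.  `N = conv V`, `Γ` exposed by the functional `l`,
`b_j = - l (e_j)`, so `b·(p - q) = 0` for `p, q ∈ V ∩ Γ` and `> 0` for `p ∈ V \ Γ`, `q ∈ V ∩ Γ`.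
The `b_j` span a finite dimensional `ℚ`-subspace of `ℝ` with a basis `e_i`: `b = ∑ e_i b_i`,
`b_i ∈ ℚ^d`.  For integer vectors `u`: `b·u = 0` iff `b_i·u = 0` for all `i`.  For rational
`e'_i` close to `e_i` the rational vector `b' = ∑ e'_i b_i` satisfies the same equations and (finitely
many) strict inequalities; multiply by a common denominator.  GEO (3) gives `Exposes`. -/
def T_INT : Prop := ∀ (d : ℕ) (N Γ : Set (Fin d → ℝ)), IsPoly N → IsFace N Γ →
  ∃ a : Fin d → ℤ, Exposes a N Γ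

/-- BLD (from EXS, LGR, GEO).  The construction.  `α = a·p` for `p ∈ V ∩ Γ`; for `v ∈ V ∩ Γ`
choose `v' ∈ V ∩ Γ`, `v' ≠ v` (`dim Γ > 0`).
`Q = ∑_{v ∈ V ∩ Γ} z^{k v} (1 - z^{v' - v})² + ∑_{v ∈ V \ Γ} z^{k v} + g`, as a `Finsupp`:
`single (k v) 1 - single ((k-1) v + v') 2 + single ((k-2) v + 2 v') 1` etc.
Newton polytope: all exponents are in `k N`; the coefficient of `k v` is `1` for `v ∈ V`, because
`v` is an extreme point, ` (k-1) v₁ + v₁'` and ` (k-2) v₁ + 2 v₁'` are `k` times proper convex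
combinations (`k ≥ 3`), and `g` has no exponent `k v`.
Points: `z_j = t^{a_j} (1 + τ)^{w_j}`, `t = 1/(n+1)`, so `z^m = t^{a·m} (1 + τ)^{w·m}`.
Let `Q₁ = Q` if `L = 0`, and `Q₁ = Q` without the terms of the first sum if `w` is orthogonal to
`Γ - Γ` (then `z^{v' - v} = 1` and these terms and their logarithmic gradients vanish).  All
exponents `m` of `Q₁` have `a·m ≥ k α + L` (`a·v ≥ α + 1` for `v ∈ V \ Γ`, and `k > L`).  EXS with
`c n m = Q₁(m) t^{a·m - k α - L}`, `e m = w·m`, `c' m = Q₁(m)` if `a·m = k α + L`, otherwise `0`: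
`∑ c' = 0` and `∑ c' m w·m = w·r ≠ 0` (the terms of the first sum contribute `1 - 2 + 1 = 0` and
`k v·w - 2 ((k-1) v + v')·w + ((k-2) v + 2 v')·w = 0`; those of the second sum have height
`> k α + L`).  So `ev Q (z n) = 0` for large `n`, and
`t^{-(k α + L)} lgr Q (z n) = ∑ c n m (1+τ)^{w·m} m → ∑ c' m • m = r` (same computation).
`lgr ≠ 0` for large `n` since `r ≠ 0` (as `w·r ≠ 0`); shift the sequence.
`ToOrbit`: for `toR u = s (p - q)`, `p ∈ k N`, `q ∈ k Γ`: `a·u = s (a·p - a·q) ≥ 0`; if it is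
`0` then `s = 0` or `p ∈ k Γ`, so `toR u ∈ vectorSpan (k Γ)`; conversely `a·u = 0` on the
vectorSpan.  `z^u = t^{a·u} (1 + τ)^{w·u}` tends to `1` if `a·u = 0` and to `0` if `a·u > 0`. -/
def T_BLD : Prop := ∀ (d : ℕ) (V : Finset (Fin d → ℤ)) (Γ : Set (Fin d → ℝ)) (a w : Fin d → ℤ)
  (k L : ℕ) (g : Lau d) (r : Fin d → ℂ), (∀ v ∈ V, toR v ∈ (conv V).extremePoints ℝ) →
  IsFace (conv V) Γ → Exposes a (conv V) Γ → 0 < fdim Γ → 3 ≤ k → L < k →
  (∀ m ∈ g.support, toR m ∈ (k : ℝ) • conv V) →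
  (∀ m ∈ g.support, ∀ p ∈ V, toR p ∈ Γ → ∑ j, a j * m j = k * (∑ j, a j * p j) + L) →
  (∀ m ∈ g.support, ∀ v ∈ V, m ≠ (k : ℤ) • v) → (g.sum fun _ c => c) = 0 →
  (∀ j, (g.sum fun m c => c * (m j : ℂ)) = r j) → ∑ j, (w j : ℂ) * r j ≠ 0 →
  (L = 0 ∨ ∀ x ∈ Γ, ∀ y ∈ Γ, ∑ j, (w j : ℝ) * (x j - y j) = 0) →
  ∃ Q : Lau d, newt Q = (k : ℝ) • conv V ∧ IsSmoothLim Q ((k : ℝ) • Γ) r

/-- TWO (from BLD, LAT, LAT0, DUAL, VEX, GEO).  The second part of `Main`.  `N = conv V` with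
vertices `V` (VEX).  If `Par Γ r`: LAT0 with `k = 3`, `L = 0` (the height of a point of `3 Γ` is
`3 α`), and `w` a coordinate vector with `r_j ≠ 0`.  Otherwise `Γ ≠ N` (in `N` everything is
parallel, as `N` has interior points), so some `v ∈ V` is not in `Γ`; LAT and DUAL. -/
def T_TWO : Prop := ∀ (d : ℕ) (N Γ : Set (Fin d → ℝ)), IsPoly N → IsFace N Γ →
  ∀ r : Fin d → ℂ, r ≠ 0 → Ort N Γ r → 0 < fdim Γ → ∃ (k : ℕ) (Q : Lau d), 0 < k ∧
    newt Q = (k : ℝ) • N ∧ IsSmoothLim Q ((k : ℝ) • Γ) r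

/-! ### Section D: the truth table -/

/-- VTX (from GEO).  No point of the hypersurface tends to a vertex.  `vectorSpan ℝ Γ = ⊥`.  GEO (1):
some `v ∈ Q.support` with `toR v ∈ Γ`.  For `m ∈ Q.support` the monomial `z^(m - v)` tends to a
limit which is nonzero iff `toR (m - v) = 0`, i.e. `m = v`; `z^0 = 1`.  So
`0 = ev Q (z n) * mon (z n) (-v) = ∑ Q m * mon (z n) (m - v) → Q v ≠ 0`, a contradiction. -/
def T_VTX : Prop := ∀ (d : ℕ) (Q : Lau d) (Γ : Set (Fin d → ℝ)), IsFace (newt Q) Γ →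
  fdim Γ = 0 → ∀ (S : Set (Fin d → ℂ)) (r : Fin d → ℂ), S ⊆ VQ Q → ¬ IsLim (newt Q) Γ S r

/-- DIM (from INT).  Let `W ⊆ ℂ^d` be the complex span of the differences of points of `Γ`.
`dim_ℂ W = fdim Γ` (real vectors which are linearly independent over `ℝ` are linearly independent
over `ℂ`: real and imaginary parts).  (1) clear.  (2) `a ≠ 0` since otherwise `Γ = N`, of dimension
`d`; `W ⊆ a^⊥` and both have dimension `d - 1`.  (3) With `a` from INT, `a^⊥` has dimension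
`≥ d - 1 > fdim Γ`, so it contains some `r ∉ W`. -/
def T_DIM : Prop := ∀ (d : ℕ) (N Γ : Set (Fin d → ℝ)), IsPoly N → IsFace N Γ →
  (fdim Γ = d → ∀ r, Par Γ r) ∧ (fdim Γ + 1 = d → ∀ r, Ort N Γ r → Par Γ r) ∧
  (fdim Γ + 1 ≠ d → fdim Γ ≠ d → ∃ r, r ≠ 0 ∧ Ort N Γ r ∧ ¬ Par Γ r)

/-- SCL.  Scaling by `k`. -/
def T_SCL : Prop := ∀ (d : ℕ) (N Γ : Set (Fin d → ℝ)) (k : ℕ), 0 < k → IsPoly N → IsFace N Γ →
  IsPoly ((k : ℝ) • N) ∧ IsFace ((k : ℝ) • N) ((k : ℝ) • Γ) ∧ fdim ((k : ℝ) • Γ) = fdim Γ ∧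
  ∀ r : Fin d → ℂ, (Par ((k : ℝ) • Γ) r ↔ Par Γ r) ∧
    (Ort ((k : ℝ) • N) ((k : ℝ) • Γ) r ↔ Ort N Γ r)

/-- MAIN (from ONE, TWO, VTX, DIM, SCL).  Third part of `Main`, `→`: otherwise DIM (3) gives `r`,
TWO gives `k`, `Q` and smooth points, and `s n • lgr Q (z n) ∈ logNormal (VQ Q) (z n)`; so `Q1At` gives
`Par (k Γ) r`, `Par Γ r` by SCL.  `←`: `fdim Γ = 0`: VTX for `Q` and `k Γ` (SCL).
`fdim Γ + 1 = d`: ONE for `k N`, SCL, DIM (2).  `fdim Γ = d`: DIM (1). -/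
def T_MAIN : Prop := Main

/-- EX.  In dimension `d ≥ 2` the simplex with the vertices `0, e_1, ..., e_d` has an edge: the segment
from `0` to `e_1`, exposed by `x ↦ - ∑_{j ≥ 2} x_j`.  Interior:
`interior_convexHull_nonempty_iff_affineSpan_eq_top` (`0` and the `e_j` span everything), or a
small ball around ` (1/(2d), ..., 1/(2d))`.  The face: a convex combination with
`∑_{j ≥ 2} x_j = 0`.  `fdim = 1`: `vectorSpan` of a segment with different end points. -/
def T_EX : Prop := ∀ d : ℕ, 2 ≤ d → ∃ N Γ : Set (Fin d → ℝ), IsPoly N ∧ IsFace N Γ ∧ fdim Γ = 1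

/-- FIN (from MAIN, EX).  `fdim Γ ≤ d` always; for `d ≤ 2` it is `0`, `d - 1` or `d`. For `d ≥ 3`
the edge of EX has `fdim = 1`, which is not `0`, `d - 1`, `d`. -/
def T_FIN : Prop := Main ∧ Main2

end LDF
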